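import Pool.Agent.Helper75.LQ.Stage

/-!
# MP_e2a5d3_al : gapfreeness, and the induction
-/

namespace Pool.Agent.LQ

open Finsupp

variable {V : Type*}

theorem gap_aux {G : SimpleGraph V} {a b c d : V} (h1 : ¬ G.Adj a c)
    (h2 : ¬ G.Adj a d) (h3 : ¬ G.Adj b c) (h4 : ¬ G.Adj b d) (hab : G.Adj a b) (hcd : G.Adj c d) :
    ∀ {q : ℕ} {m : V →₀ ℕ}, m ∈ P G q → (∀ v, 0 < m v → v = a ∨ v = b ∨ v = c ∨ v = d) →
      m a = m b ∧ m c = m d
  | 0, m, hm, _ => by
      have : m = 0 := hm
      subst this
      simp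
  | q + 1, m, hm, hS => by
      obtain ⟨v, hv, x, y, hxy, e⟩ := hm
      have e' : m = v + δ x + δ y := by rw [e, ev, add_assoc]
      have hvS : ∀ w, 0 < v w → w = a ∨ w = b ∨ w = c ∨ w = d := by
        intro w hw
        apply hS
        have := pw e' w
        simp only [Finsupp.add_apply] at this
        omega
      obtain ⟨i1, i2⟩ := gap_aux h1 h2 h3 h4 hab hcd hv hvS
      have hx : x = a ∨ x = b ∨ x = c ∨ x = d := by
        apply hS
        have := pw e' x
        simp only [Finsupp.add_apply, δ_self] at this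
        omega
      have hy : y = a ∨ y = b ∨ y = c ∨ y = d := by
        apply hS
        have := pw e' y
        simp only [Finsupp.add_apply, δ_self] at this
        omega
      have ac : a ≠ c := by rintro rfl; exact h2 hcd
      have ad : a ≠ d := by rintro rfl; exact h1 hcd.symm
      have bc : b ≠ c := by rintro rfl; exact h4 hcd
      have bd : b ≠ d := by rintro rfl; exact h3 hcd.symm
      have pa := pw e' a
      have pb := pw e' b
      have pc := pw e' c
      have pd := pw e' d
      simp only [Finsupp.add_apply] at pa pb pc pd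
      have nab := hab.ne
      have ncd := hcd.ne
      rcases hx with rfl | rfl | rfl | rfl <;> rcases hy with rfl | rfl | rfl | rfl <;>
        first
        | exact absurd hxy (G.loopless.irrefl _)
        | exact absurd hxy h1
        | exact absurd hxy h2
        | exact absurd hxy h3
        | exact absurd hxy h4
        | exact absurd hxy.symm h1
        | exact absurd hxy.symm h2
        | exact absurd hxy.symm h3
        | exact absurd hxy.symm h4
        | (simp only [δ_self, δ_ne nab, δ_ne (Ne.symm nab), δ_ne ncd, δ_ne (Ne.symm ncd), δ_ne ac,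
            δ_ne (Ne.symm ac), δ_ne ad, δ_ne (Ne.symm ad), δ_ne bc, δ_ne (Ne.symm bc), δ_ne bd,
            δ_ne (Ne.symm bd)] at pa pb pc pd
           constructor <;> omega)

theorem smul_edge_mem {G : SimpleGraph V} {a b : V} (hab : G.Adj a b) : ∀ q : ℕ,
    q • (δ a + δ b) ∈ P G q
  | 0 => by rw [zero_smul]; exact rfl
  | q + 1 => by
      rw [succ_nsmul]
      exact ⟨_, smul_edge_mem hab q, a, b, hab, rfl⟩

/-- if a power `I(G)^q`, `q ≥ 1`, has linear quotients then `G` is gapfree. -/
theorem gf_of_clq {G : SimpleGraph V} {q : ℕ} (hq : 1 ≤ q) (h : CLQ (P G q)) : GF G := by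
  intro a b c d hab hcd
  by_contra hcon
  push Not at hcon
  obtain ⟨h1, h2, h3, h4⟩ := hcon
  have ac : a ≠ c := by rintro rfl; exact h2 hcd
  have ad : a ≠ d := by rintro rfl; exact h1 hcd.symm
  have bc : b ≠ c := by rintro rfl; exact h4 hcd
  have bd : b ≠ d := by rintro rfl; exact h3 hcd.symm
  obtain ⟨r, hinj, hr⟩ := (F_restrict h {a, b, c, d} a (2 * q)).rank
  set E := F G ({a, b, c, d} : Set V) a q (2 * q) with hE
  have hmem : ∀ m ∈ P G q, (∀ v, 0 < m v → v = a ∨ v = b ∨ v = c ∨ v = d) → m ∈ E := by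
    intro m hm hS
    refine ⟨hm, fun v hv => ?_, ?_⟩
    · simpa using hS v hv
    · rw [← degree_of_mem_P hm]; exact Finsupp.le_degree a m
  have hE' : ∀ m ∈ E, m a = m b ∧ m c = m d := by
    intro m hm
    exact gap_aux h1 h2 h3 h4 hab hcd hm.1 (fun v hv => by simpa using hm.2.1 v hv)
  have key : ∀ x ∈ E, ∀ y ∈ E, ¬ r y < r x := by
    intro x hx y hy hlt
    obtain ⟨t, ht, b', hb', hlt', hle⟩ := hr x hx y hy hlt
    obtain ⟨s, hs⟩ := exists_single_of_le hx.1 hb'.1 hle
    have hst : s ≠ t := by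
      rintro rfl
      have : b' = x := by (refine Finsupp.ext (fun fsv => ?_); have fsh0 := DFunLike.congr_fun (hs) fsv; simp only [Finsupp.add_apply] at *; omega)
      rw [this] at hlt'
      exact lt_irrefl _ hlt'
    obtain ⟨x1, x2⟩ := hE' x hx
    obtain ⟨b1, b2⟩ := hE' b' hb'
    have htS : t = a ∨ t = b ∨ t = c ∨ t = d := by
      simpa using hy.2.1 t (by omega)
    have pa := pw hs a
    have pb := pw hs b
    have pc := pw hs c
    have pd := pw hs d
    simp only [Finsupp.add_apply] at pa pb pc pd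
    have nab := hab.ne
    have ncd := hcd.ne
    rcases htS with rfl | rfl | rfl | rfl
    · rw [δ_self, δ_ne hst] at pa
      rw [δ_ne nab] at pb
      omega
    · rw [δ_self, δ_ne hst] at pb
      rw [δ_ne (Ne.symm nab)] at pa
      omega
    · rw [δ_self, δ_ne hst] at pc
      rw [δ_ne ncd] at pd
      omega
    · rw [δ_self, δ_ne hst] at pd
      rw [δ_ne (Ne.symm ncd)] at pc
      omega
  have m1 : q • (δ a + δ b) ∈ E := by
    refine hmem _ (smul_edge_mem hab q) (fun v hv => ?_)
    simp only [Finsupp.smul_apply, Finsupp.add_apply, smul_eq_mul] at hv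
    have : 0 < δ a v + δ b v := Nat.pos_of_mul_pos_left hv
    by_cases hav : a = v
    · exact Or.inl hav.symm
    · rw [δ_ne hav] at this
      exact Or.inr (Or.inl (δ_pos (by omega)).symm)
  have m2 : q • (δ c + δ d) ∈ E := by
    refine hmem _ (smul_edge_mem hcd q) (fun v hv => ?_)
    simp only [Finsupp.smul_apply, Finsupp.add_apply, smul_eq_mul] at hv
    have : 0 < δ c v + δ d v := Nat.pos_of_mul_pos_left hv
    by_cases hav : c = v
    · exact Or.inr (Or.inr (Or.inl hav.symm))
    · rw [δ_ne hav] at this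
      exact Or.inr (Or.inr (Or.inr (δ_pos (by omega)).symm))
  have hne : q • (δ a + δ b) ≠ q • (δ c + δ d) := by
    intro h'
    have := pw h' a
    simp only [Finsupp.smul_apply, Finsupp.add_apply, smul_eq_mul, δ_self, δ_ne (Ne.symm ac),
      δ_ne (Ne.symm ad), δ_ne hab.ne.symm] at this
    omega
  rcases lt_trichotomy (r (q • (δ a + δ b))) (r (q • (δ c + δ d))) with h' | h' | h'
  · exact key _ m2 _ m1 h'
  · exact hne (hinj m1 m2 h')
  · exact key _ m1 _ m2 h'

theorem clq_empty : CLQ (∅ : Set (V →₀ ℕ)) :=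
  ⟨[], List.nodup_nil, by simp, by intro i hi; simp at hi⟩

/-- the induction on the support -/
theorem clq_succ {G : SimpleGraph V} (hG : GF G) {q : ℕ} (hq : 1 ≤ q) (H : CLQ (P G q))
    (hS : ∀ S : Finset V, S.Nonempty → ∃ h ∈ S, HubIn G S h) :
    ∀ (N : ℕ) (S : Finset V), S.card = N →
      CLQ {a | a ∈ P G (q + 1) ∧ ∀ v, 0 < a v → v ∈ S} := by
  classical
  intro N
  induction N with
  | zero =>
      intro S hcard
      rw [Finset.card_eq_zero] at hcard
      subst hcard
      convert clq_empty (V := V) using 1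
      rw [Set.eq_empty_iff_forall_notMem]
      rintro a ⟨ha, hv⟩
      have h1 : a = 0 := by
        ext v
        have := hv v
        rw [Finsupp.zero_apply]
        by_contra hne
        simpa using this (by omega)
      have h2 := degree_of_mem_P ha
      rw [h1] at h2
      simp at h2
  | succ N ih =>
      intro S hcard
      obtain ⟨h, hhS, hub⟩ := hS S (Finset.card_pos.1 (by omega))
      have hk : ∀ k, CLQ (F G (S : Set V) h (q + 1) k) := by
        intro k
        induction k with
        | zero =>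
            have := ih (S.erase h) (by rw [Finset.card_erase_of_mem hhS, hcard]; rfl)
            convert this using 1
            ext a
            constructor
            · rintro ⟨h1, h2, h3⟩
              refine ⟨h1, fun v hv => Finset.mem_erase.2 ⟨?_, h2 v hv⟩⟩
              rintro rfl
              omega
            · rintro ⟨h1, h2⟩
              refine ⟨h1, fun v hv => Finset.mem_of_mem_erase (h2 v hv), ?_⟩
              by_contra hcon
              exact Finset.notMem_erase h S (h2 h (by omega))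
        | succ k ihk =>
            exact stage hG hhS hub hq ihk (F_restrict H _ h k)
      convert hk (2 * (q + 1)) using 1
      ext a
      constructor
      · rintro ⟨h1, h2⟩
        refine ⟨h1, h2, ?_⟩
        rw [← degree_of_mem_P h1]
        exact Finsupp.le_degree h a
      · rintro ⟨h1, h2, _⟩
        exact ⟨h1, h2⟩

theorem clq_persist [Finite V] {G : SimpleGraph V}
    (hS : ∀ S : Finset V, S.Nonempty → ∃ h ∈ S, HubIn G S h) {q : ℕ} (hq : 1 ≤ q)
    (H : CLQ (P G q)) : ∀ s, q ≤ s → CLQ (P G s) := by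
  classical
  cases nonempty_fintype V
  have hG := gf_of_clq hq H
  intro s hs
  induction s, hs using Nat.le_induction with
  | base => exact H
  | succ s hs ih =>
      have := clq_succ hG (hq.trans hs) ih hS _ Finset.univ rfl
      convert this using 1
      ext a
      simp

/-- The hub sets of the induced cycles form a chain. -/
def HubChain (G : SimpleGraph V) : Prop :=
  ∀ n, 5 ≤ n → ∀ z : ZMod n → V, IndCyc G.Adj n z →
  ∀ n', 5 ≤ n' → ∀ z' : ZMod n' → V, IndCyc G.Adj n' z' →
    (∃ h, ∀ i, ¬ G.Adj h (z i)) → (∃ h, ∀ i, ¬ G.Adj h (z' i)) →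
    (∀ h, (∀ i, ¬ G.Adj h (z i)) → ∀ i, ¬ G.Adj h (z' i)) ∨
    (∀ h, (∀ i, ¬ G.Adj h (z' i)) → ∀ i, ¬ G.Adj h (z i))

theorem exists_hubIn {G : SimpleGraph V} (hc : HubChain G) (S : Finset V) (hS : S.Nonempty) :
    ∃ h ∈ S, HubIn G S h := by
  classical
  -- the family of hub sets
  let 𝓗 : Set (Finset V) := {A | ∃ n, 5 ≤ n ∧ ∃ z : ZMod n → V, (∀ i, z i ∈ S) ∧
    IndCyc G.Adj n z ∧ A.Nonempty ∧ A = S.filter (fun h => ∀ i, ¬ G.Adj h (z i))}
  by_cases hne : 𝓗.Nonempty
  · obtain ⟨A, hA, hmin⟩ := WellFounded.has_min (InvImage.wf Finset.card Nat.lt_wfRel.wf) 𝓗 hne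
    obtain ⟨n, hn, z, hzS, hz, hAne, hAeq⟩ := hA
    obtain ⟨h, hh⟩ := hAne
    have hh' := hh
    rw [hAeq, Finset.mem_filter] at hh'
    refine ⟨h, hh'.1, ?_⟩
    intro n' hn' z' hzS' hz' hex
    obtain ⟨h0, h0S, hh0⟩ := hex
    rcases hc n hn z hz n' hn' z' hz' ⟨h, hh'.2⟩ ⟨h0, hh0⟩ with h1 | h1
    · exact h1 h hh'.2
    · -- the other inclusion: equality by minimality
      set A' := S.filter (fun h => ∀ i, ¬ G.Adj h (z' i)) with hA'
      have hsub : A' ⊆ A := by
        intro x hx
        rw [hA', Finset.mem_filter] at hx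
        rw [hAeq, Finset.mem_filter]
        exact ⟨hx.1, h1 x hx.2⟩
      have hA'𝓗 : A' ∈ 𝓗 := ⟨n', hn', z', hzS', hz', ⟨h0, by
        rw [hA', Finset.mem_filter]; exact ⟨h0S, hh0⟩⟩, rfl⟩
      have hcard : A.card ≤ A'.card := not_lt.1 (hmin A' hA'𝓗)
      have heq : A' = A := Finset.eq_of_subset_of_card_le hsub hcard
      rw [← heq, hA', Finset.mem_filter] at hh
      exact hh.2
  · obtain ⟨h, hh⟩ := hS
    refine ⟨h, hh, ?_⟩
    intro n hn z hzS hz hex
    obtain ⟨h0, h0S, hh0⟩ := hex
    exfalso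
    exact hne ⟨_, n, hn, z, hzS, hz, ⟨h0, Finset.mem_filter.2 ⟨h0S, hh0⟩⟩, rfl⟩

end Pool.Agent.LQ
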