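import Pool.Agent.Helper75.LQ.Cyc

/-!
# MP_e2a5d3_al : simplicial vertices away from a vertex `h` (a relative form of Dirac's theorem)
-/

namespace Pool.Agent.LQ

variable {W : Type*}

/-- an induced cycle of the graph `G`, of length `n` -/
def GCyc (G : SimpleGraph W) (n : ℕ) (z : ZMod n → W) : Prop :=
  Function.Injective z ∧ ∀ i j, i ≠ j → (G.Adj (z i) (z j) ↔ (j = i + 1 ∨ i = j + 1))

/-- there is a path of length `k` from `y` to `y'` with interior in `C` -/
def PathIn (G : SimpleGraph W) (C : Set W) (y y' : W) (k : ℕ) : Prop :=
  ∃ p : ℕ → W, p 0 = y ∧ p k = y' ∧ (∀ i, i < k → G.Adj (p i) (p (i + 1))) ∧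
    ∀ i, 0 < i → i < k → p i ∈ C

theorem exists_gcyc {G : SimpleGraph W} {C : Set W} {y y' h : W} (hk : ∃ k, PathIn G C y y' k)
    (hyy' : y ≠ y') (hnadj : ¬ G.Adj y y') (hy : G.Adj h y) (hy' : G.Adj h y')
    (hC : ∀ c ∈ C, c ≠ h ∧ ¬ G.Adj h c) :
    ∃ n, 4 ≤ n ∧ ∃ z : ZMod n → W, GCyc G n z ∧ (∀ i, z i ∈ C ∨ z i = y ∨ z i = y' ∨ z i = h) ∧
      ∃ i, z i = h := by
  classical
  obtain ⟨k, hkk⟩ : ∃ k, k = Nat.find hk := ⟨_, rfl⟩
  have hspec : PathIn G C y y' k := by rw [hkk]; exact Nat.find_spec hk
  have hmin : ∀ k', PathIn G C y y' k' → k ≤ k' := fun k' h' => by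
    rw [hkk]; exact Nat.find_min' hk h'
  obtain ⟨p, hp0, hpk, hadj, hint⟩ := hspec
  have hk2 : 2 ≤ k := by
    rcases Nat.lt_or_ge k 2 with h1 | h1
    · exfalso
      interval_cases k
      · exact hyy' (hp0.symm.trans hpk)
      · have := hadj 0 (by omega)
        rw [hp0, zero_add, hpk] at this
        exact hnadj this
    · exact h1
  -- no shortcuts
  have hsc : ∀ i j, i + 2 ≤ j → j ≤ k → ¬ G.Adj (p i) (p j) := by
    intro i j hij hjk ha
    have : PathIn G C y y' (k - (j - i - 1)) := by
      refine ⟨fun t => if t ≤ i then p t else p (t + (j - i - 1)), ?_, ?_, ?_, ?_⟩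
      · simp [hp0]
      · have h1 : ¬ (k - (j - i - 1) ≤ i) := by omega
        simp only [h1, if_false]
        rw [show k - (j - i - 1) + (j - i - 1) = k by omega, hpk]
      · intro t ht
        by_cases h1 : t + 1 ≤ i
        · have h2 : t ≤ i := by omega
          simp only [h1, h2, if_true]
          exact hadj t (by omega)
        · by_cases h2 : t ≤ i
          · have h3 : t = i := by omega
            subst h3
            simp only [le_refl, if_true, h1, if_false]
            rw [show t + 1 + (j - t - 1) = j by omega]
            exact ha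
          · simp only [h1, h2, if_false]
            rw [show t + 1 + (j - i - 1) = t + (j - i - 1) + 1 by omega]
            exact hadj _ (by omega)
      · intro t ht0 ht
        by_cases h2 : t ≤ i
        · simp only [h2, if_true]
          exact hint t ht0 (by omega)
        · simp only [h2, if_false]
          exact hint _ (by omega) (by omega)
    have := hmin _ this
    omega
  have hinj : ∀ i j, i < j → j ≤ k → p i ≠ p j := by
    intro i j hij hjk he
    have : PathIn G C y y' (k - (j - i)) := by
      refine ⟨fun t => if t ≤ i then p t else p (t + (j - i)), ?_, ?_, ?_, ?_⟩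
      · simp [hp0]
      · by_cases h1 : k - (j - i) ≤ i
        · have h2 : k - (j - i) = i := by omega
          have h3 : j = k := by omega
          simp only [h2, le_refl, if_true]
          rw [he, h3, hpk]
        · simp only [h1, if_false]
          rw [show k - (j - i) + (j - i) = k by omega, hpk]
      · intro t ht
        by_cases h1 : t + 1 ≤ i
        · have h2 : t ≤ i := by omega
          simp only [h1, h2, if_true]
          exact hadj t (by omega)
        · by_cases h2 : t ≤ i
          · have h3 : t = i := by omega
            subst h3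
            simp only [le_refl, if_true, h1, if_false]
            rw [he, show t + 1 + (j - t) = j + 1 by omega]
            exact hadj _ (by omega)
          · simp only [h1, h2, if_false]
            rw [show t + 1 + (j - i) = t + (j - i) + 1 by omega]
            exact hadj _ (by omega)
      · intro t ht0 ht
        by_cases h2 : t ≤ i
        · simp only [h2, if_true]
          exact hint t ht0 (by omega)
        · simp only [h2, if_false]
          exact hint _ (by omega) (by omega)
    have := hmin _ this
    omega
  have hph : ∀ i, i ≤ k → p i ≠ h := by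
    intro i hi
    rcases Nat.eq_zero_or_pos i with h0 | h0
    · rw [h0, hp0]; exact hy.ne'
    · rcases Nat.lt_or_ge i k with h1 | h1
      · exact (hC _ (hint i h0 h1)).1
      · rw [show i = k by omega, hpk]; exact hy'.ne'
  have hhp : ∀ i, i ≤ k → (G.Adj h (p i) ↔ (i = 0 ∨ i = k)) := by
    intro i hi
    constructor
    · intro ha
      by_contra hcon
      push Not at hcon
      exact (hC _ (hint i (by omega) (by omega))).2 ha
    · rintro (rfl | rfl)
      · rw [hp0]; exact hy
      · rw [hpk]; exact hy'
  have : NeZero (k + 2) := ⟨by omega⟩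
  let z : ZMod (k + 2) → W := fun i => if i.val ≤ k then p i.val else h
  have hval : ∀ i : ZMod (k + 2), i.val ≤ k + 1 := fun i => by
    have := ZMod.val_lt i; omega
  have hcast : ∀ i : ZMod (k + 2), ((i.val : ℕ) : ZMod (k + 2)) = i := fun i =>
    ZMod.natCast_zmod_val i
  have hne : ∀ a b : ℕ, a < b → b < a + (k + 2) → (a : ZMod (k + 2)) ≠ (b : ZMod (k + 2)) :=
    fun a b => natCast_ne
  -- consecutive indices
  have hcons : ∀ i j : ZMod (k + 2), i.val < j.val →
      ((j = i + 1 ∨ i = j + 1) ↔ (j.val = i.val + 1 ∨ (i.val = 0 ∧ j.val = k + 1))) := by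
    intro i j hij
    constructor
    · rintro (h1 | h1)
      · left
        by_contra hcon
        have h2 := hne (i.val + 1) j.val (by omega) (by have := hval j; omega)
        apply h2
        push_cast
        rw [hcast, hcast, h1]
      · right
        by_contra hcon
        have h2 := hne i.val (j.val + 1) (by omega) (by
          have := hval j
          omega)
        apply h2
        push_cast
        rw [hcast, hcast, ← h1]
    · rintro (h1 | ⟨h1, h2⟩)
      · left
        rw [← hcast j, h1]
        push_cast
        rw [hcast]
      · right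
        rw [← hcast i, ← hcast j, h1, h2]
        have : (((k + 2 : ℕ)) : ZMod (k + 2)) = 0 := ZMod.natCast_self _
        push_cast at this ⊢
        rw [add_assoc, show (1 : ZMod (k + 2)) + 1 = 2 by norm_num, this]
  have hzadj : ∀ i j : ZMod (k + 2), i.val < j.val →
      (z i ≠ z j ∧ (G.Adj (z i) (z j) ↔ (j = i + 1 ∨ i = j + 1))) := by
    intro i j hij
    rw [hcons i j hij]
    have hi : i.val ≤ k := by have := hval j; omega
    have hzi : z i = p i.val := by simp only [z, hi, if_true]
    by_cases hj : j.val ≤ k
    · have hzj : z j = p j.val := by simp only [z, hj, if_true]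
      rw [hzi, hzj]
      refine ⟨hinj _ _ hij hj, ?_⟩
      constructor
      · intro ha
        left
        by_contra hcon
        exact hsc i.val j.val (by omega) hj ha
      · rintro (h1 | ⟨h1, h2⟩)
        · rw [h1]; exact hadj _ (by omega)
        · omega
    · have hj' : j.val = k + 1 := by have := hval j; omega
      have hzj : z j = h := by simp only [z, hj, if_false]
      rw [hzi, hzj]
      refine ⟨hph _ hi, ?_⟩
      rw [G.adj_comm, hhp _ hi, hj']
      constructor
      · rintro (h1 | h1)
        · exact Or.inr ⟨h1, rfl⟩
        · exact Or.inl (by omega)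
      · rintro (h1 | ⟨h1, h2⟩)
        · exact Or.inr (by omega)
        · exact Or.inl h1
  refine ⟨k + 2, by omega, z, ⟨?_, ?_⟩, ?_, ?_⟩
  · intro i j he
    by_contra hij
    have hv : i.val ≠ j.val := fun h' => hij (ZMod.val_injective _ h')
    rcases Nat.lt_or_gt_of_ne hv with h1 | h1
    · exact (hzadj i j h1).1 he
    · exact (hzadj j i h1).1 he.symm
  · intro i j hij
    have hv : i.val ≠ j.val := fun h' => hij (ZMod.val_injective _ h')
    rcases Nat.lt_or_gt_of_ne hv with h1 | h1
    · exact (hzadj i j h1).2
    · rw [G.adj_comm, (hzadj j i h1).2, or_comm]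
  · intro i
    by_cases hi : i.val ≤ k
    · have hzi : z i = p i.val := by simp only [z, hi, if_true]
      rw [hzi]
      rcases Nat.eq_zero_or_pos i.val with h0 | h0
      · rw [h0]; exact Or.inr (Or.inl hp0)
      · rcases Nat.lt_or_ge i.val k with h1 | h1
        · exact Or.inl (hint _ h0 h1)
        · rw [show i.val = k by omega]; exact Or.inr (Or.inr (Or.inl hpk))
    · have hzi : z i = h := by simp only [z, hi, if_false]
      exact Or.inr (Or.inr (Or.inr hzi))
  · refine ⟨((k + 1 : ℕ) : ZMod (k + 2)), ?_⟩
    have hv : (((k + 1 : ℕ)) : ZMod (k + 2)).val = k + 1 := by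
      rw [ZMod.val_natCast, Nat.mod_eq_of_lt (by omega)]
    show (if _ then _ else _) = h
    rw [hv, if_neg (by omega)]

theorem exists_simplicial {G : SimpleGraph W} : ∀ (N : ℕ) (S : Finset W), S.card = N →
    ∀ h ∈ S, (∀ n, 4 ≤ n → ∀ z : ZMod n → W, GCyc G n z → (∀ i, z i ∈ S) → ∀ i, G.Adj h (z i)) →
    (∃ x ∈ S, x ≠ h ∧ ¬ G.Adj h x) →
    ∃ x ∈ S, x ≠ h ∧ ¬ G.Adj h x ∧ ∀ t ∈ S, ∀ t' ∈ S, G.Adj x t → G.Adj x t' → t ≠ t' →
      G.Adj t t' := by
  classical
  intro N
  induction N using Nat.strong_induction_on with
  | _ N ih =>
      rintro S hS h hhS hcyc ⟨x0, hx0S, hx0h, hx0⟩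
      -- the component of `x0`
      let R : W → W → Prop := fun a b => G.Adj a b ∧ b ∈ S ∧ b ≠ h ∧ ¬ G.Adj h b
      let C : Set W := {c | Relation.ReflTransGen R x0 c}
      have hCS : ∀ c ∈ C, c ∈ S ∧ c ≠ h ∧ ¬ G.Adj h c := by
        intro c hc
        rcases Relation.ReflTransGen.cases_tail hc with h1 | ⟨b, _, h2⟩
        · rw [h1]; exact ⟨hx0S, hx0h, hx0⟩
        · exact h2.2
      have hCstep : ∀ c ∈ C, ∀ b, G.Adj c b → b ∈ S → b ≠ h → ¬ G.Adj h b → b ∈ C :=
        fun c hc b h1 h2 h3 h4 => Relation.ReflTransGen.tail hc ⟨h1, h2, h3, h4⟩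
      -- paths inside `C`
      have hpath : ∀ c ∈ C, ∃ (m : ℕ) (p : ℕ → W), p 0 = x0 ∧ p m = c ∧
          (∀ i, i < m → G.Adj (p i) (p (i + 1))) ∧ ∀ i, i ≤ m → p i ∈ C := by
        intro c hc
        induction hc with
        | refl => exact ⟨0, fun _ => x0, rfl, rfl, by intro i hi; omega,
            fun i _ => Relation.ReflTransGen.refl⟩
        | tail hab hbc ihp =>
            rename_i b c
            obtain ⟨m, p, h0, hm, ha, hC'⟩ := ihp
            refine ⟨m + 1, fun i => if i ≤ m then p i else c, by simp [h0], by simp, ?_, ?_⟩
            · intro i hi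
              by_cases h1 : i + 1 ≤ m
              · have h2 : i ≤ m := by omega
                simp only [h1, h2, if_true]
                exact ha i (by omega)
              · have h2 : i = m := by omega
                subst h2
                simp only [le_refl, if_true, h1, if_false]
                rw [hm]; exact hbc.1
            · intro i hi
              by_cases h1 : i ≤ m
              · simp only [h1, if_true]; exact hC' i h1
              · simp only [h1, if_false]
                exact Relation.ReflTransGen.tail hab hbc
      -- attachments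
      let Q : Set W := {y | y ∈ S ∧ G.Adj h y ∧ ∃ c ∈ C, G.Adj c y}
      have hQ : ∀ y ∈ Q, ∀ y' ∈ Q, y ≠ y' → G.Adj y y' := by
        rintro y ⟨hyS, hhy, c, hc, hcy⟩ y' ⟨hyS', hhy', c', hc', hcy'⟩ hne
        by_contra hna
        obtain ⟨m, p, p0, pm, pa, pC⟩ := hpath c hc
        obtain ⟨m', p', p0', pm', pa', pC'⟩ := hpath c' hc'
        have hP : PathIn G C y y' (m + m' + 2) := by
          refine ⟨fun i => if i = 0 then y else if i ≤ m + 1 then p (m + 1 - i) else
            if i ≤ m + m' + 1 then p' (i - (m + 1)) else y', ?_, ?_, ?_, ?_⟩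
          · simp
          · have h1 : ¬ (m + m' + 2 = 0) := by omega
            have h2 : ¬ (m + m' + 2 ≤ m + 1) := by omega
            have h3 : ¬ (m + m' + 2 ≤ m + m' + 1) := by omega
            simp only [h1, h2, h3, if_false]
          · intro i hi
            have e1 : ¬ (i + 1 = 0) := by omega
            simp only [e1, if_false]
            by_cases h1 : i = 0
            · subst h1
              simp only [if_true]
              have h2 : 0 + 1 ≤ m + 1 := by omega
              simp only [h2, if_true]
              rw [show m + 1 - (0 + 1) = m by omega, pm]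
              exact hcy.symm
            · simp only [h1, if_false]
              by_cases h2 : i + 1 ≤ m + 1
              · have h3 : i ≤ m + 1 := by omega
                simp only [h2, h3, if_true]
                have := pa (m + 1 - (i + 1)) (by omega)
                rw [show m + 1 - (i + 1) + 1 = m + 1 - i by omega] at this
                exact this.symm
              · by_cases h3 : i ≤ m + 1
                · have h4 : i = m + 1 := by omega
                  subst h4
                  simp only [le_refl, if_true, h2, if_false]
                  rw [show m + 1 - (m + 1) = 0 by omega, p0]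
                  by_cases h5 : m + 1 + 1 ≤ m + m' + 1
                  · simp only [h5, if_true]
                    rw [show m + 1 + 1 - (m + 1) = 1 by omega, ← p0']
                    exact pa' 0 (by omega)
                  · simp only [h5, if_false]
                    have h6 : m' = 0 := by omega
                    rw [h6] at pm'
                    rw [← p0', pm']
                    exact hcy'
                · simp only [h2, h3, if_false]
                  by_cases h5 : i + 1 ≤ m + m' + 1
                  · have h6 : i ≤ m + m' + 1 := by omega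
                    simp only [h5, h6, if_true]
                    rw [show i + 1 - (m + 1) = i - (m + 1) + 1 by omega]
                    exact pa' _ (by omega)
                  · have h6 : i ≤ m + m' + 1 := by omega
                    simp only [h5, h6, if_true, if_false]
                    rw [show i - (m + 1) = m' by omega, pm']
                    exact hcy'
          · intro i hi0 hi
            have h1 : ¬ (i = 0) := by omega
            have h3 : i ≤ m + m' + 1 := by omega
            simp only [h1, h3, if_true, if_false]
            by_cases h2 : i ≤ m + 1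
            · simp only [h2, if_true]; exact pC _ (by omega)
            · simp only [h2, if_false]; exact pC' _ (by omega)
        obtain ⟨n, hn, z, hz, hzS, i0, hi0⟩ := exists_gcyc ⟨_, hP⟩ hne hna hhy hhy'
          (fun c hc => (hCS c hc).2)
        have hzS' : ∀ i, z i ∈ S := by
          intro i
          rcases hzS i with h1 | h1 | h1 | h1
          · exact (hCS _ h1).1
          · rw [h1]; exact hyS
          · rw [h1]; exact hyS'
          · rw [h1]; exact hhS
        have := hcyc n hn z hz hzS' i0
        rw [hi0] at this
        exact G.irrefl this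
      -- the smaller set
      set S' : Finset W := S.filter (fun v => v ∈ C ∨ v ∈ Q) with hS'
      have hmemS' : ∀ v, v ∈ S' ↔ (v ∈ C ∨ v ∈ Q) := by
        intro v
        rw [hS', Finset.mem_filter]
        constructor
        · exact fun h' => h'.2
        · rintro (h' | h')
          · exact ⟨(hCS v h').1, Or.inl h'⟩
          · exact ⟨h'.1, Or.inr h'⟩
      have hsub : S' ⊆ S := Finset.filter_subset _ _
      have hh' : h ∉ S' := by
        rw [hmemS']
        rintro (h' | h')
        · exact (hCS h h').2.1 rfl
        · exact G.irrefl h'.2.1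
      have hcard : S'.card < N := by
        rw [← hS]
        exact Finset.card_lt_card ⟨hsub, fun h' => hh' (h' hhS)⟩
      have hnb : ∀ x ∈ C, ∀ t ∈ S, G.Adj x t → t ∈ S' := by
        intro x hx t ht hxt
        rw [hmemS']
        have hth : t ≠ h := by
          rintro rfl
          exact (hCS x hx).2.2 hxt.symm
        by_cases h1 : G.Adj h t
        · exact Or.inr ⟨ht, h1, x, hx, hxt⟩
        · exact Or.inl (hCstep x hx t hxt ht hth h1)
      have hx0C : x0 ∈ C := Relation.ReflTransGen.refl
      have hnocyc : ∀ n, 4 ≤ n → ∀ z : ZMod n → W, GCyc G n z → (∀ i, z i ∈ S') → False := by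
        intro n hn z hz hzS
        have h1 := hcyc n hn z hz (fun i => hsub (hzS i))
        have h2 : ∀ i, z i ∈ Q := by
          intro i
          rcases (hmemS' _).1 (hzS i) with h' | h'
          · exact absurd (h1 i) (hCS _ h').2.2
          · exact h'
        have c2 : (0 : ZMod n) ≠ 2 := by exact_mod_cast natCast_ne (n := n) (a := 0) (b := 2) (by omega) (by omega)
        have c3 : (0 : ZMod n) ≠ 3 := by exact_mod_cast natCast_ne (n := n) (a := 0) (b := 3) (by omega) (by omega)
        have c1 : (0 : ZMod n) ≠ 1 := by exact_mod_cast natCast_ne (n := n) (a := 0) (b := 1) (by omega) (by omega)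
        have h3 := hQ _ (h2 0) _ (h2 2) (fun h' => c2 (hz.1 h'))
        rcases (hz.2 0 2 c2).1 h3 with h4 | h4
        · apply c1; linear_combination -h4
        · apply c3; linear_combination h4
      -- it is enough to find a simplicial vertex of `S'` in `C`
      have hend : (∃ x ∈ C, ∀ t ∈ S', ∀ t' ∈ S', G.Adj x t → G.Adj x t' → t ≠ t' → G.Adj t t') →
          ∃ x ∈ S, x ≠ h ∧ ¬ G.Adj h x ∧ ∀ t ∈ S, ∀ t' ∈ S, G.Adj x t → G.Adj x t' → t ≠ t' →
            G.Adj t t' := by
        rintro ⟨x, hx, hsimp⟩
        refine ⟨x, (hCS x hx).1, (hCS x hx).2.1, (hCS x hx).2.2, ?_⟩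
        intro t ht t' ht' h1 h2 h3
        exact hsimp t (hnb x hx t ht h1) t' (hnb x hx t' ht' h2) h1 h2 h3
      apply hend
      by_cases hcomp : ∀ a ∈ S', ∀ b ∈ S', a ≠ b → G.Adj a b
      · exact ⟨x0, hx0C, fun t ht t' ht' _ _ h3 => hcomp t ht t' ht' h3⟩
      · push Not at hcomp
        -- choose the vertex `h''`
        obtain ⟨a, haS', b, hbS', hab, hnab, hgood⟩ : ∃ a ∈ S', ∃ b ∈ S', a ≠ b ∧ ¬ G.Adj a b ∧
            ∀ x ∈ S', x ≠ a → ¬ G.Adj a x → x ∈ C := by
          by_cases hq : ∃ a ∈ Q, ∃ b ∈ S', a ≠ b ∧ ¬ G.Adj a b
          · obtain ⟨a, ha, b, hb, hab, hnab⟩ := hq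
            refine ⟨a, (hmemS' a).2 (Or.inr ha), b, hb, hab, hnab, ?_⟩
            intro x hx hxa hax
            rcases (hmemS' x).1 hx with h' | h'
            · exact h'
            · exact absurd (hQ a ha x h' (Ne.symm hxa)) hax
          · push Not at hq
            obtain ⟨a, ha, b, hb, hab, hnab⟩ := hcomp
            refine ⟨a, ha, b, hb, hab, hnab, ?_⟩
            intro x hx hxa hax
            rcases (hmemS' x).1 hx with h' | h'
            · exact h'
            · exact absurd (hq x h' a ha hxa).symm hax
        obtain ⟨x, hxS', hxa, hax, hsimp⟩ := ih _ hcard S' rfl a haS'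
          (fun n hn z hz hzS => (hnocyc n hn z hz hzS).elim) ⟨b, hbS', Ne.symm hab, hnab⟩
        exact ⟨x, hgood x hxS' hxa hax, hsimp⟩

end Pool.Agent.LQ
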