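import Pool.Agent.Helper75.LQ.Defs

/-!
# MP_e2a5d3_al : translation of linear quotients of `I(G)^q` to degree vectors
-/

namespace Pool.Agent.LQ

open MvPolynomial Finsupp

variable {V : Type*}

/-- exponent vector of the edge `ab` -/
noncomputable def ev (a b : V) : V →₀ ℕ := single a 1 + single b 1

/-- degree vectors of the `q`-edge multisets of `G` -/
def P (G : SimpleGraph V) : ℕ → Set (V →₀ ℕ)
  | 0 => {0}
  | q + 1 => {u | ∃ v ∈ P G q, ∃ a b, G.Adj a b ∧ u = v + ev a b}

theorem P_zero (G : SimpleGraph V) : P G 0 = {0} := rfl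

theorem mem_P_succ {G : SimpleGraph V} {q : ℕ} {u : V →₀ ℕ} :
    u ∈ P G (q + 1) ↔ ∃ v ∈ P G q, ∃ a b, G.Adj a b ∧ u = v + ev a b := Iff.rfl

theorem degree_ev (a b : V) : (ev a b).degree = 2 := by
  simp [ev, degree_single]

theorem degree_of_mem_P {G : SimpleGraph V} : ∀ {q : ℕ} {u : V →₀ ℕ}, u ∈ P G q →
    u.degree = 2 * q
  | 0, u, h => by
      have : u = 0 := h
      simp [this]
  | q + 1, u, h => by
      obtain ⟨v, hv, a, b, hab, rfl⟩ := h
      rw [map_add, degree_of_mem_P hv, degree_ev]; ring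

section ideal

variable (K : Type*) [Field K]

theorem edgeIdeal_eq (G : SimpleGraph V) :
    edgeIdeal K G = Ideal.span ((fun u => monomial u (1 : K)) '' {u | ∃ a b, G.Adj a b ∧ u = ev a b}) := by
  unfold edgeIdeal
  congr 1
  ext f
  constructor
  · rintro ⟨a, b, h, rfl⟩
    refine ⟨ev a b, ⟨a, b, h, rfl⟩, ?_⟩
    simp only [ev, X]
    rw [monomial_mul, one_mul]
  · rintro ⟨u, ⟨a, b, h, rfl⟩, rfl⟩
    refine ⟨a, b, h, ?_⟩
    simp only [ev, X]
    rw [monomial_mul, one_mul]

theorem pow_edgeIdeal (G : SimpleGraph V) : ∀ q : ℕ,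
    edgeIdeal K G ^ q = Ideal.span ((fun u => monomial u (1 : K)) '' P G q)
  | 0 => by
      rw [pow_zero, P_zero, Set.image_singleton]
      have : (monomial (0 : V →₀ ℕ) (1 : K)) = 1 := by simp
      rw [this, Ideal.span_singleton_one, Ideal.one_eq_top]
  | q + 1 => by
      rw [pow_succ, pow_edgeIdeal G q, edgeIdeal_eq, Ideal.span_mul_span']
      congr 1
      ext f
      rw [Set.mem_mul]
      constructor
      · rintro ⟨_, ⟨u, hu, rfl⟩, _, ⟨_, ⟨a, b, h, rfl⟩, rfl⟩, rfl⟩
        refine ⟨u + ev a b, ⟨u, hu, a, b, h, rfl⟩, ?_⟩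
        simp [monomial_mul]
      · rintro ⟨_, ⟨u, hu, a, b, h, rfl⟩, rfl⟩
        refine ⟨_, ⟨u, hu, rfl⟩, _, ⟨_, ⟨a, b, h, rfl⟩, rfl⟩, ?_⟩
        simp [monomial_mul]

theorem monomial_mem_span_iff (E : Set (V →₀ ℕ)) (u : V →₀ ℕ) :
    monomial u (1 : K) ∈ Ideal.span ((fun u => monomial u (1 : K)) '' E) ↔ ∃ v ∈ E, v ≤ u := by
  classical
  rw [mem_ideal_span_monomial_image]
  constructor
  · intro h
    have := h u (by simp [coeff_monomial])
    exact this
  · rintro ⟨v, hv, hvu⟩ m hm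
    have : m = u := by
      by_contra hne
      rw [MvPolynomial.mem_support_iff, coeff_monomial, if_neg (fun h => hne h.symm)] at hm
      exact hm rfl
    subst this
    exact ⟨v, hv, hvu⟩

theorem minGens_span {E : Set (V →₀ ℕ)} {d : ℕ} (hE : ∀ u ∈ E, u.degree = d) :
    minGens (Ideal.span ((fun u => monomial u (1 : K)) '' E)) = E := by
  ext u
  unfold minGens
  simp only [monomial_mem_span_iff, Set.mem_ofPred_eq]
  constructor
  · rintro ⟨⟨v, hv, hvu⟩, h⟩
    rw [← h v hvu ⟨v, hv, le_rfl⟩]; exact hv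
  · intro hu
    refine ⟨⟨u, hu, le_rfl⟩, ?_⟩
    rintro v hvu ⟨w, hw, hwv⟩
    have hwu : w = u := by
      by_contra hne
      have hlt : w < u := lt_of_le_of_ne (hwv.trans hvu) hne
      have h1 := hE w hw
      have h2 := hE u hu
      obtain ⟨c, hc⟩ := exists_add_of_le hlt.le
      rw [hc, map_add, h1] at h2
      have hc0 : c.degree = 0 := by omega
      rw [degree_eq_zero_iff] at hc0
      rw [hc0, add_zero] at hc
      exact hne hc.symm
    subst hwu
    exact le_antisymm hvu hwv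

end ideal

/-- combinatorial linear quotients for a list (in the order of the list) -/
def LQList (l : List (V →₀ ℕ)) : Prop :=
  ∀ i (hi : i < l.length), ∀ b ∈ l.take i, ∃ t, (l[i]) t < b t ∧
    ∃ b' ∈ l.take i, b' ≤ l[i] + single t 1

/-- combinatorial linear quotients for a set of exponent vectors -/
def CLQ (E : Set (V →₀ ℕ)) : Prop :=
  ∃ l : List (V →₀ ℕ), l.Nodup ∧ (∀ u, u ∈ l ↔ u ∈ E) ∧ LQList l

theorem colon_aux (K : Type*) [Field K] (E : Set (V →₀ ℕ)) (a : V →₀ ℕ) :
    (∃ W : Set V, (Ideal.span ((fun u => monomial u (1 : K)) '' E)).colon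
        ({monomial a (1 : K)} : Set (MvPolynomial V K)) = Ideal.span (X '' W)) ↔
      ∀ b ∈ E, ∃ t, a t < b t ∧ ∃ b' ∈ E, b' ≤ a + single t 1 := by
  classical
  have hX : ∀ W : Set V, (X '' W : Set (MvPolynomial V K)) =
      (fun u => monomial u (1 : K)) '' ((fun t => single t 1) '' W) := by
    intro W
    rw [Set.image_image]
    rfl
  constructor
  · rintro ⟨W, hW⟩ b hb
    have h1 : monomial (b - a) (1 : K) ∈ (Ideal.span ((fun u => monomial u (1 : K)) '' E)).colon
        ({monomial a (1 : K)} : Set (MvPolynomial V K)) := by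
      rw [Submodule.mem_colon_singleton, smul_eq_mul, monomial_mul, one_mul,
        monomial_mem_span_iff]
      exact ⟨b, hb, le_tsub_add⟩
    rw [hW, hX, monomial_mem_span_iff] at h1
    obtain ⟨_, ⟨t, ht, rfl⟩, hle⟩ := h1
    have ht1 : 1 ≤ (b - a) t := by
      have := hle t
      simpa using this
    refine ⟨t, ?_, ?_⟩
    · rw [tsub_apply] at ht1
      omega
    · have h2 : monomial (single t 1) (1 : K) ∈ (Ideal.span ((fun u => monomial u (1 : K)) '' E)).colon
          ({monomial a (1 : K)} : Set (MvPolynomial V K)) := by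
        rw [hW]
        exact Ideal.subset_span ⟨t, ht, rfl⟩
      rw [Submodule.mem_colon_singleton, smul_eq_mul, monomial_mul, one_mul,
        monomial_mem_span_iff] at h2
      obtain ⟨b', hb', h3⟩ := h2
      exact ⟨b', hb', by rwa [add_comm]⟩
  · intro h
    refine ⟨{t | ∃ b' ∈ E, b' ≤ a + single t 1}, ?_⟩
    ext f
    rw [Submodule.mem_colon_singleton, smul_eq_mul, hX, mem_ideal_span_monomial_image,
      mem_ideal_span_monomial_image]
    have hsupp : ∀ m, m + a ∈ (f * monomial a (1 : K)).support ↔ m ∈ f.support := by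
      intro m
      rw [MvPolynomial.mem_support_iff, MvPolynomial.mem_support_iff, coeff_mul_monomial, mul_one]
    constructor
    · intro h1 m hm
      obtain ⟨b, hb, hle⟩ := h1 (m + a) ((hsupp m).2 hm)
      obtain ⟨t, ht, ht'⟩ := h b hb
      refine ⟨single t 1, ⟨t, ht', rfl⟩, ?_⟩
      rw [Finsupp.single_le_iff]
      have := hle t
      rw [Finsupp.add_apply] at this
      omega
    · intro h1 x hx
      have hx' : a ≤ x := by
        by_contra hne
        rw [MvPolynomial.mem_support_iff, coeff_mul_monomial', if_neg hne] at hx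
        exact hx rfl
      obtain ⟨m, rfl⟩ := exists_add_of_le hx'
      rw [add_comm] at hx
      obtain ⟨_, ⟨t, ⟨b', hb', hb''⟩, rfl⟩, hle⟩ := h1 m ((hsupp m).1 hx)
      exact ⟨b', hb', hb''.trans (add_le_add le_rfl hle)⟩

theorem hasLinearQuotients_iff (K : Type*) [Field K] (G : SimpleGraph V) (q : ℕ) :
    HasLinearQuotients (edgeIdeal K G ^ q) ↔ CLQ (P G q) := by
  unfold HasLinearQuotients CLQ LQList
  rw [pow_edgeIdeal, minGens_span K (fun u hu => degree_of_mem_P hu)]
  constructor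
  · rintro ⟨_, l, h1, h2, h3⟩
    refine ⟨l, h1, h2, fun i hi => ?_⟩
    exact (colon_aux K _ _).1 (h3 i hi)
  · rintro ⟨l, h1, h2, h3⟩
    refine ⟨⟨2 * q, fun u hu => degree_of_mem_P hu⟩, l, h1, h2, fun i hi => ?_⟩
    exact (colon_aux K _ _).2 (h3 i hi)

end Pool.Agent.LQ
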