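import Pool.Agent.Helper75.LQ.Rank

/-!
# MP_e2a5d3_al : conformal exchange between two edge multisets
-/

namespace Pool.Agent.LQ

open Finsupp

variable {V : Type*}

theorem exch_auxc [DecidableEq V] (G : SimpleGraph V) (N : Multiset (Sym2 V))
    (hN : ∀ e ∈ N, e ∈ G.edgeSet) : ∀ n : ℕ, ∀ M : Multiset (Sym2 V), (N - M).card = n →
    (∀ e ∈ M, e ∈ G.edgeSet) → ∀ z, dg M z < dg N z →
    (∃ w M', M ∩ N ≤ M' ∧ M' ≤ M ∪ N ∧ M'.card = M.card ∧
      dg M' + single w 1 = dg M + single z 1 ∧ dg N w < dg M w) ∨
    (∃ w M', M ∩ N ≤ M' ∧ M' ≤ M ∪ N ∧ M'.card = M.card + 1 ∧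
      dg M' = dg M + single z 1 + single w 1 ∧ dg M w + (single z 1 : V →₀ ℕ) w < dg N w) := by
  intro n
  induction n with
  | zero =>
      intro M hM hMe z hz
      exfalso
      obtain ⟨e, he, hlt⟩ := exists_count_lt (fun e he => G.not_isDiag_of_mem_edgeSet (hMe e he))
        (fun e he => G.not_isDiag_of_mem_edgeSet (hN e he)) hz
      rw [Multiset.card_eq_zero] at hM
      have := congrArg (Multiset.count e) hM
      rw [Multiset.count_sub, Multiset.count_zero] at this
      omega
  | succ n ih =>
      intro M hM hMe z hz
      have hMd : ∀ e ∈ M, ¬ e.IsDiag := fun e he => G.not_isDiag_of_mem_edgeSet (hMe e he)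
      have hNd : ∀ e ∈ N, ¬ e.IsDiag := fun e he => G.not_isDiag_of_mem_edgeSet (hN e he)
      obtain ⟨e, he, hlt⟩ := exists_count_lt hMd hNd hz
      have heN : e ∈ N := Multiset.count_pos.1 (by omega)
      obtain ⟨z1, rfl⟩ := Sym2.mem_iff_exists.1 he
      have hadj : G.Adj z z1 := hN _ heN
      have hne : z ≠ z1 := hadj.ne
      by_cases h1 : dg M z1 < dg N z1
      · right
        refine ⟨z1, s(z, z1) ::ₘ M, (Multiset.inter_le_left).trans (Multiset.le_cons_self _ _), ?_, by simp, ?_, ?_⟩
        · rw [Multiset.le_iff_count]
          intro f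
          rw [Multiset.count_cons, Multiset.count_union]
          by_cases hf : f = s(z, z1)
          · subst hf
            rw [if_pos rfl]
            omega
          · rw [if_neg hf]
            omega
        · rw [dg_cons, ev2_mk, ev]; abel
        · rw [single_eq_of_ne (Ne.symm hne), add_zero]; exact h1
      · push Not at h1
        obtain ⟨e', he', hlt'⟩ := exists_count_lt' hNd hMd h1 (Sym2.mem_mk_right z z1) hlt
        have heM : e' ∈ M := Multiset.count_pos.1 (by omega)
        obtain ⟨z2, rfl⟩ := Sym2.mem_iff_exists.1 he'
        have hadj' : G.Adj z1 z2 := hMe _ heM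
        have hne' : z2 ≠ z := by
          rintro rfl
          rw [Sym2.eq_swap] at hlt'
          omega
        have hee : s(z, z1) ≠ s(z1, z2) := by
          intro h
          rw [h] at hlt
          omega
        obtain ⟨M0, rfl⟩ := Multiset.exists_cons_of_mem heM
        set M' := s(z, z1) ::ₘ M0 with hM'
        have hM'e : ∀ e ∈ M', e ∈ G.edgeSet := by
          intro e he
          rcases Multiset.mem_cons.1 he with rfl | he
          · exact hadj
          · exact hMe e (Multiset.mem_cons_of_mem he)
        have hle : M' ≤ (s(z1, z2) ::ₘ M0) ∪ N := by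
          rw [Multiset.le_iff_count]
          intro f
          rw [hM', Multiset.count_union, Multiset.count_cons, Multiset.count_cons]
          rw [Multiset.count_cons, if_neg hee] at hlt
          by_cases hf : f = s(z, z1)
          · subst hf
            rw [if_pos rfl]
            omega
          · rw [if_neg hf]
            omega
        have hge : (s(z1, z2) ::ₘ M0) ∩ N ≤ M' := by
          rw [Multiset.le_iff_count]
          intro f
          rw [hM', Multiset.count_inter, Multiset.count_cons, Multiset.count_cons]
          rw [Multiset.count_cons, if_neg hee] at hlt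
          rw [Multiset.count_cons, if_pos rfl] at hlt'
          by_cases hf : f = s(z, z1)
          · subst hf
            rw [if_pos rfl, if_neg hee]
            omega
          · rw [if_neg hf]
            by_cases hf' : f = s(z1, z2)
            · subst hf'
              rw [if_pos rfl]
              omega
            · rw [if_neg hf']
              omega
        have hdg : dg M' + single z2 1 = dg (s(z1, z2) ::ₘ M0) + single z 1 := by
          rw [hM', dg_cons, dg_cons, ev2_mk, ev2_mk, ev, ev]; abel
        have hcard : M'.card = (s(z1, z2) ::ₘ M0).card := by simp [hM']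
        by_cases h2 : dg N z2 < dg (s(z1, z2) ::ₘ M0) z2
        · left
          exact ⟨z2, M', hge, hle, hcard, hdg, h2⟩
        · push Not at h2
          have hval : ∀ v, dg M' v + (single z2 1 : V →₀ ℕ) v =
              dg (s(z1, z2) ::ₘ M0) v + (single z 1 : V →₀ ℕ) v := fun v => by
            have := DFunLike.congr_fun hdg v
            simpa using this
          have h3 : dg M' z2 < dg N z2 := by
            have := hval z2
            rw [single_eq_same, single_eq_of_ne hne'] at this
            omega
          have hsub : (N - M').card = n := by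
            have : N - (s(z1, z2) ::ₘ M0) = s(z, z1) ::ₘ (N - M') := by
              ext e
              rw [Multiset.count_sub, Multiset.count_cons, Multiset.count_cons, Multiset.count_sub,
                hM', Multiset.count_cons]
              rw [Multiset.count_cons] at hlt hlt'
              rw [if_pos rfl] at hlt'
              rw [if_neg hee] at hlt
              by_cases ha : e = s(z, z1)
              · subst ha
                rw [if_neg hee, if_pos rfl]
                omega
              · by_cases hb : e = s(z1, z2)
                · subst hb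
                  rw [if_pos rfl, if_neg ha]
                  omega
                · rw [if_neg hb, if_neg ha]
                  omega
            rw [this, Multiset.card_cons] at hM
            omega
          have hge2 : (s(z1, z2) ::ₘ M0) ∩ N ≤ M' ∩ N := Multiset.le_inter hge Multiset.inter_le_right
          rcases ih M' hsub hM'e z2 h3 with ⟨w, M'', hgg, hM''e, hc, hd, hw⟩ | ⟨w, M'', hgg, hM''e, hc, hd, hw⟩
          · left
            refine ⟨w, M'', hge2.trans hgg, hM''e.trans (Multiset.union_le hle Multiset.le_union_right), hc.trans hcard,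
              hd.trans hdg, ?_⟩
            have h4 := hval w
            by_cases hwz : w = z
            · subst hwz
              rw [single_eq_same, single_eq_of_ne (Ne.symm hne')] at h4
              omega
            · rw [single_eq_of_ne hwz] at h4
              omega
          · right
            refine ⟨w, M'', hge2.trans hgg, hM''e.trans (Multiset.union_le hle Multiset.le_union_right),
              by rw [hc, hcard], by rw [hd, hdg], ?_⟩
            have h4 := hval w
            omega


/-- the edges of `M` at `v` -/
def edgesAt (v : V) (M : Multiset (Sym2 V)) : Set (Sym2 V) := {e | e ∈ M ∧ v ∈ e}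

/-- number of distinct edges of `M` at `v` -/
noncomputable def kap (v : V) (M : Multiset (Sym2 V)) : ℕ := (edgesAt v M).ncard

theorem edgesAt_finite (v : V) (M : Multiset (Sym2 V)) : (edgesAt v M).Finite := by
  classical
  refine (M.toFinset.finite_toSet).subset (fun e he => ?_)
  rw [Finset.mem_coe, Multiset.mem_toFinset]
  exact he.1

theorem kap_le_card (v : V) (M : Multiset (Sym2 V)) : kap v M ≤ M.card := by
  classical
  have h1 : edgesAt v M ⊆ (M.toFinset : Set (Sym2 V)) := by
    intro e he
    rw [Finset.mem_coe, Multiset.mem_toFinset]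
    exact he.1
  have h2 := Set.ncard_le_ncard h1 (M.toFinset.finite_toSet)
  rw [Set.ncard_coe_finset] at h2
  exact h2.trans (Multiset.toFinset_card_le M)

theorem kap_conf [DecidableEq V] (v : V) {M N M' N' : Multiset (Sym2 V)} (h : M' + N' = M + N)
    (h1 : M ∩ N ≤ M') (h2 : M' ≤ M ∪ N) : kap v M + kap v N ≤ kap v M' + kap v N' := by
  unfold kap
  rw [← Set.ncard_union_add_ncard_inter _ _ (edgesAt_finite v M) (edgesAt_finite v N),
    ← Set.ncard_union_add_ncard_inter _ _ (edgesAt_finite v M') (edgesAt_finite v N')]
  have hc : ∀ e, M'.count e + N'.count e = M.count e + N.count e := by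
    intro e
    rw [← Multiset.count_add, ← Multiset.count_add, h]
  have a1 : ∀ e, min (M.count e) (N.count e) ≤ M'.count e := by
    intro e
    have := Multiset.le_iff_count.1 h1 e
    rwa [Multiset.count_inter] at this
  have a2 : ∀ e, M'.count e ≤ max (M.count e) (N.count e) := by
    intro e
    have := Multiset.le_iff_count.1 h2 e
    rwa [Multiset.count_union] at this
  have hm : ∀ (A : Multiset (Sym2 V)) (e : Sym2 V), e ∈ edgesAt v A ↔ (0 < A.count e ∧ v ∈ e) := by
    intro A e
    rw [Multiset.count_pos]; rfl
  refine add_le_add (Set.ncard_le_ncard ?_ ?_) (Set.ncard_le_ncard ?_ ?_)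
  · intro e he
    rw [Set.mem_union, hm, hm] at he ⊢
    have := hc e
    rcases he with ⟨h3, h4⟩ | ⟨h3, h4⟩
    · by_cases h5 : 0 < M'.count e
      · exact Or.inl ⟨h5, h4⟩
      · exact Or.inr ⟨by omega, h4⟩
    · by_cases h5 : 0 < M'.count e
      · exact Or.inl ⟨h5, h4⟩
      · exact Or.inr ⟨by omega, h4⟩
  · exact (edgesAt_finite v M').union (edgesAt_finite v N')
  · intro e he
    rw [Set.mem_inter_iff, hm, hm] at he ⊢
    have := hc e
    have := a1 e
    have := a2 e
    refine ⟨⟨by omega, he.1.2⟩, by omega, he.1.2⟩
  · exact (edgesAt_finite v M').inter_of_left _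

/-- conformal exchange -/
theorem exchM {G : SimpleGraph V} [DecidableEq V] {M N : Multiset (Sym2 V)}
    (hM : ∀ e ∈ M, e ∈ G.edgeSet) (hN : ∀ e ∈ N, e ∈ G.edgeSet) {z : V} (hz : dg M z < dg N z) :
    (∃ w M' N', M' + N' = M + N ∧ M ∩ N ≤ M' ∧ M' ≤ M ∪ N ∧ M'.card = M.card ∧
      dg M' + δ w = dg M + δ z ∧ dg N w < dg M w) ∨
    (∃ w, dg M + δ z + δ w ∈ P G (M.card + 1) ∧ dg M w + δ z w < dg N w) := by
  rcases exch_auxc G N hN _ M rfl hM z hz with ⟨w, M', h0, h1, h2, h3, h4⟩ |
    ⟨w, M', h0, h1, h2, h3, h4⟩
  · left
    have hle : M' ≤ M + N := h1.trans (Multiset.union_le (Multiset.le_add_right _ _)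
      (Multiset.le_add_left _ _))
    exact ⟨w, M', M + N - M', by rw [add_comm M', Multiset.sub_add_cancel hle], h0, h1, h2, h3, h4⟩
  · right
    refine ⟨w, mem_P_iff.2 ⟨M', ?_, h2, h3⟩, h4⟩
    intro e he
    have hle : M' ≤ M + N := h1.trans (Multiset.union_le (Multiset.le_add_right _ _)
      (Multiset.le_add_left _ _))
    rcases Multiset.mem_add.1 (Multiset.mem_of_le hle he) with h5 | h5
    · exact hM e h5
    · exact hN e h5

end Pool.Agent.LQ
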