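import Pool.Agent.Helper75.LQ.EX

/-!
# MP_e2a5d3_al : even connections over an element `u` of `P G q` (gapfree graphs)
-/

namespace Pool.Agent.LQ

open Finsupp

variable {V : Type*}

theorem δ_self (x : V) : δ x x = 1 := single_eq_same

theorem δ_ne {x y : V} (h : x ≠ y) : δ x y = 0 := single_eq_of_ne (Ne.symm h)

theorem δ_le (x y : V) : δ x y ≤ 1 := by
  classical
  rw [δ, single_apply]; split_ifs <;> omega

theorem δ_pos {x y : V} (h : 0 < δ x y) : x = y := by
  by_contra hne
  rw [δ_ne hne] at h
  omega

theorem pw {A B : V →₀ ℕ} (h : A = B) (v : V) : A v = B v := by rw [h]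

/-- gapfree: no two edges without an edge between them -/
def GF (G : SimpleGraph V) : Prop :=
  ∀ a b c d, G.Adj a b → G.Adj c d → G.Adj a c ∨ G.Adj a d ∨ G.Adj b c ∨ G.Adj b d

theorem add_edge {G : SimpleGraph V} {q : ℕ} {X Y : V →₀ ℕ} {a b : V} (hX : X ∈ P G q)
    (h : G.Adj a b) (hY : Y = X + δ a + δ b) : Y ∈ P G (q + 1) :=
  ⟨X, hX, a, b, h, by rw [hY, ev, add_assoc]⟩

theorem split_at {G : SimpleGraph V} {q : ℕ} {X : V →₀ ℕ} (hX : X ∈ P G (q + 1)) {x : V}
    (hx : 0 < X x) : ∃ a X', G.Adj x a ∧ X' ∈ P G q ∧ X' + δ x + δ a = X := by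
  classical
  obtain ⟨M, hM, hMc, rfl⟩ := mem_P_iff.1 hX
  have hd : ∀ e ∈ M, ¬ e.IsDiag := fun e he => G.not_isDiag_of_mem_edgeSet (hM e he)
  obtain ⟨e, he, hlt⟩ := exists_count_lt (M := 0) (by simp) hd (z := x) (by simpa using hx)
  have heM : e ∈ M := Multiset.count_pos.1 (by simpa using hlt)
  obtain ⟨a, rfl⟩ := Sym2.mem_iff_exists.1 he
  obtain ⟨M0, rfl⟩ := Multiset.exists_cons_of_mem heM
  refine ⟨a, dg M0, hM _ heM, mem_P_iff.2 ⟨M0, fun e he => hM e (Multiset.mem_cons_of_mem he), by
    simpa using hMc, rfl⟩, ?_⟩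
  rw [dg_cons, ev2_mk, ev, δ, δ]; abel

/-- `x` and `y` are even-connected over `u` -/
def EC (G : SimpleGraph V) (q : ℕ) (u : V →₀ ℕ) (x y : V) : Prop := u + δ x + δ y ∈ P G (q + 1)

theorem EC.symm {G : SimpleGraph V} {q : ℕ} {u : V →₀ ℕ} {x y : V} (h : EC G q u x y) :
    EC G q u y x := by
  unfold EC at *
  rwa [add_right_comm]

theorem ec_of {G : SimpleGraph V} {q : ℕ} {u Y : V →₀ ℕ} {x y : V} (h : Y ∈ P G (q + 1))
    (hY : Y = u + δ x + δ y) : EC G q u x y := by
  unfold EC; rwa [← hY]

theorem ec_of_adj {G : SimpleGraph V} {q : ℕ} {u : V →₀ ℕ} {x y : V} (hu : u ∈ P G q)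
    (h : G.Adj x y) : EC G q u x y := add_edge hu h rfl

/-- no induced 4-cycle in the complement of the even-connection graph -/
theorem ec_c4 {G : SimpleGraph V} (hG : GF G) {q : ℕ} {u : V →₀ ℕ} {x y x' y' : V}
    (h : EC G q u x y) (h' : EC G q u x' y') :
    EC G q u x x' ∨ EC G q u x y' ∨ EC G q u y x' ∨ EC G q u y y' := by
  by_cases h1 : x = x'
  · subst h1; exact Or.inr (Or.inl h')
  by_cases h2 : x = y'
  · subst h2; exact Or.inl h'.symm
  by_cases h3 : y = x'
  · subst h3; exact Or.inr (Or.inr (Or.inr h'))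
  by_cases h4 : y = y'
  · subst h4; exact Or.inr (Or.inr (Or.inl h'.symm))
  obtain ⟨a, X1, hxa, hX1, e1⟩ := split_at h (x := x) (by
    simp only [Finsupp.add_apply, δ_self]; omega)
  obtain ⟨b, X2, hxb, hX2, e2⟩ := split_at h' (x := x') (by
    simp only [Finsupp.add_apply, δ_self]; omega)
  have E1 : X1 + δ a = u + δ y := by (refine Finsupp.ext (fun fsv => ?_); have fsh0 := DFunLike.congr_fun (e1) fsv; simp only [Finsupp.add_apply] at *; omega)
  have E2 : X2 + δ b = u + δ y' := by (refine Finsupp.ext (fun fsv => ?_); have fsh0 := DFunLike.congr_fun (e2) fsv; simp only [Finsupp.add_apply] at *; omega)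
  rcases hG _ _ _ _ hxa hxb with hh | hh | hh | hh
  · -- x ~ x'
    have hlt : (u + δ x + δ y) x' < (u + δ x' + δ y') x' := by
      simp only [Finsupp.add_apply, δ_self, δ_ne h1, δ_ne h3]; omega
    rcases exch' h' h hlt with ⟨w, X', hX', e3, hw⟩ | ⟨w, X', hX', e3, hw⟩
    · simp only [Finsupp.add_apply] at hw
      by_cases hwx : x = w
      · subst hwx
        exact Or.inr (Or.inl (ec_of hX' (by (refine Finsupp.ext (fun fsv => ?_); have fsh0 := DFunLike.congr_fun (e3) fsv; simp only [Finsupp.add_apply] at *; omega))))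
      · have hwy : y = w := δ_pos (by rw [δ_ne hwx] at hw; omega)
        subst hwy
        exact Or.inr (Or.inr (Or.inr (ec_of hX' (by (refine Finsupp.ext (fun fsv => ?_); have fsh0 := DFunLike.congr_fun (e3) fsv; simp only [Finsupp.add_apply] at *; omega)))))
    · have e4 : X' + δ w = u + δ y' := by (refine Finsupp.ext (fun fsv => ?_); have fsh0 := DFunLike.congr_fun (e3) fsv; simp only [Finsupp.add_apply] at *; omega)
      have hwy : y' = w := by
        by_contra hne
        have := pw e4 w
        simp only [Finsupp.add_apply, δ_self, δ_ne hne] at this hw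
        omega
      subst hwy
      have : X' = u := by (refine Finsupp.ext (fun fsv => ?_); have fsh0 := DFunLike.congr_fun (e4) fsv; simp only [Finsupp.add_apply] at *; omega)
      subst this
      exact Or.inl (ec_of_adj hX' hh)
  · exact Or.inr (Or.inl (add_edge hX2 hh (by (refine Finsupp.ext (fun fsv => ?_); have fsh0 := DFunLike.congr_fun (E2) fsv; simp only [Finsupp.add_apply] at *; omega))))
  · exact Or.inr (Or.inr (Or.inl (add_edge hX1 hh (by (refine Finsupp.ext (fun fsv => ?_); have fsh0 := DFunLike.congr_fun (E1) fsv; simp only [Finsupp.add_apply] at *; omega)))))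
  · -- a ~ b
    by_cases hb : b = y'
    · subst hb
      exact Or.inr (Or.inr (Or.inr (add_edge hX1 hh (by (refine Finsupp.ext (fun fsv => ?_); have fsh0 := DFunLike.congr_fun (E1) fsv; simp only [Finsupp.add_apply] at *; omega)))))
    have hlt : X1 y' < X2 y' := by
      have p1 := pw E1 y'
      have p2 := pw E2 y'
      simp only [Finsupp.add_apply, δ_self, δ_ne h4, δ_ne hb] at p1 p2
      omega
    rcases exch hX1 hX2 hlt with ⟨w, X', hX', e3, hw⟩ | ⟨w, hX', hw⟩
    · have p1 := pw E1 w
      have p2 := pw E2 w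
      simp only [Finsupp.add_apply] at p1 p2
      by_cases hwy : y = w
      · subst hwy
        exact Or.inr (Or.inl (add_edge hX' hxa.symm (by (refine Finsupp.ext (fun fsv => ?_); have fsh0 := DFunLike.congr_fun (e3) fsv; have fsh1 := DFunLike.congr_fun (E1) fsv; simp only [Finsupp.add_apply] at *; omega))))
      · have hwb : b = w := δ_pos (by rw [δ_ne hwy] at p1; omega)
        subst hwb
        exact Or.inr (Or.inr (Or.inr (add_edge hX' hh (by (refine Finsupp.ext (fun fsv => ?_); have fsh0 := DFunLike.congr_fun (e3) fsv; have fsh1 := DFunLike.congr_fun (E1) fsv; simp only [Finsupp.add_apply] at *; omega)))))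
    · have p1 := pw E1 w
      have p2 := pw E2 w
      simp only [Finsupp.add_apply] at p1 p2
      have hwa : a = w := δ_pos (by omega)
      subst hwa
      exact Or.inr (Or.inr (Or.inr (ec_of hX' (by (refine Finsupp.ext (fun fsv => ?_); have fsh0 := DFunLike.congr_fun (E1) fsv; simp only [Finsupp.add_apply] at *; omega)))))

/-- if `y₁, y₂` are even-connected and `x` is even-connected to neither, then the set of `s` such
that `u + x - s` is in `P G q` is independent. -/
theorem ec_ld {G : SimpleGraph V} (hG : GF G) {q : ℕ} {u : V →₀ ℕ} {x y₁ y₂ p r : V}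
    (h : EC G q u y₁ y₂) (h1 : ¬ EC G q u x y₁) (h2 : ¬ EC G q u x y₂) {A B : V →₀ ℕ}
    (hA : A ∈ P G q) (hB : B ∈ P G q) (eA : A + δ p = u + δ x) (eB : B + δ r = u + δ x) :
    ¬ G.Adj p r := by
  intro hpr
  -- y₁ is not adjacent to p or r
  have n1 : ¬ G.Adj y₁ p := fun hh => h1 (EC.symm (add_edge hA hh (by (refine Finsupp.ext (fun fsv => ?_); have fsh0 := DFunLike.congr_fun (eA) fsv; simp only [Finsupp.add_apply] at *; omega))))
  have n2 : ¬ G.Adj y₁ r := fun hh => h1 (EC.symm (add_edge hB hh (by (refine Finsupp.ext (fun fsv => ?_); have fsh0 := DFunLike.congr_fun (eB) fsv; simp only [Finsupp.add_apply] at *; omega))))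
  obtain ⟨a, X1, hya, hX1, e1⟩ := split_at h (x := y₁) (by
    simp only [Finsupp.add_apply, δ_self]; omega)
  have E1 : X1 + δ a = u + δ y₂ := by (refine Finsupp.ext (fun fsv => ?_); have fsh0 := DFunLike.congr_fun (e1) fsv; simp only [Finsupp.add_apply] at *; omega)
  -- the argument for one of `p, r`
  have key : ∀ (B : V →₀ ℕ) (r : V), B ∈ P G q → B + δ r = u + δ x → G.Adj a r → False := by
    intro B r hB eB har
    by_cases hrx : r = x
    · subst hrx
      exact h2 (EC.symm (add_edge hX1 har (by (refine Finsupp.ext (fun fsv => ?_); have fsh0 := DFunLike.congr_fun (E1) fsv; simp only [Finsupp.add_apply] at *; omega))))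
    have hy2 : y₂ ≠ x := by
      rintro rfl
      exact h1 h.symm
    have hlt : X1 x < B x := by
      have p1 := pw E1 x
      have p2 := pw eB x
      simp only [Finsupp.add_apply, δ_self, δ_ne hrx, δ_ne hy2] at p1 p2
      omega
    rcases exch hX1 hB hlt with ⟨w, X', hX', e3, hw⟩ | ⟨w, hX', hw⟩
    · have p1 := pw E1 w
      have p2 := pw eB w
      simp only [Finsupp.add_apply] at p1 p2
      by_cases hwy : y₂ = w
      · subst hwy
        exact h1 (add_edge hX' hya.symm (by (refine Finsupp.ext (fun fsv => ?_); have fsh0 := DFunLike.congr_fun (e3) fsv; have fsh1 := DFunLike.congr_fun (E1) fsv; simp only [Finsupp.add_apply] at *; omega)))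
      · have hwr : r = w := δ_pos (by rw [δ_ne hwy] at p1; omega)
        subst hwr
        exact h2 (add_edge hX' har (by (refine Finsupp.ext (fun fsv => ?_); have fsh0 := DFunLike.congr_fun (e3) fsv; have fsh1 := DFunLike.congr_fun (E1) fsv; simp only [Finsupp.add_apply] at *; omega)))
    · have p1 := pw E1 w
      have p2 := pw eB w
      simp only [Finsupp.add_apply] at p1 p2
      have hwa : a = w := δ_pos (by omega)
      subst hwa
      exact h2 (ec_of hX' (by (refine Finsupp.ext (fun fsv => ?_); have fsh0 := DFunLike.congr_fun (E1) fsv; simp only [Finsupp.add_apply] at *; omega)))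
  rcases hG _ _ _ _ hya hpr with hh | hh | hh | hh
  · exact n1 hh
  · exact n2 hh
  · exact key A p hA eA hh
  · exact key B r hB eB hh

/-- augmentation: an element of `P G (q+1)` gives a pair which is even-connected over `u`. -/
theorem exists_aug {G : SimpleGraph V} {q : ℕ} : ∀ (n : ℕ) {u a : V →₀ ℕ}, u ∈ P G q →
    a ∈ P G (q + 1) → (a - u).degree = n →
    ∃ t t', u t < a t ∧ u t' + δ t t' < a t' ∧ EC G q u t t' := by
  classical
  intro n
  induction n using Nat.strong_induction_on with
  | _ n ih =>
      intro u a hu ha hn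
      obtain ⟨z, hz⟩ : ∃ z, u z < a z := by
        by_contra hcon
        push Not at hcon
        have hle : a ≤ u := hcon
        obtain ⟨c, hc⟩ := exists_add_of_le hle
        have h1 := degree_of_mem_P hu
        have h2 := degree_of_mem_P ha
        rw [hc, map_add, h2] at h1
        omega
      rcases exch hu ha hz with ⟨w, u1, hu1, e1, hw⟩ | ⟨w, hX', hw⟩
      · have hwz : w ≠ z := by rintro rfl; omega
        have q1 : ∀ v, u1 v + δ w v = u v + δ z v := fun v => by
          have := pw e1 v
          simpa only [Finsupp.add_apply] using this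
        have hdeg : (a - u1).degree < n := by
          have hle : (a - u1) + δ z = a - u := by
            refine Finsupp.ext (fun v => ?_)
            have h1 := q1 v
            simp only [Finsupp.add_apply, Finsupp.tsub_apply]
            by_cases hvw : w = v
            · subst hvw
              rw [δ_ne (Ne.symm hwz)] at h1 ⊢
              rw [δ_self] at h1
              omega
            · rw [δ_ne hvw] at h1
              by_cases hvz : z = v
              · subst hvz
                rw [δ_self] at h1 ⊢
                omega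
              · rw [δ_ne hvz] at h1 ⊢
                omega
          rw [← hle, map_add, degree_single] at hn
          omega
        obtain ⟨t, t', ht, ht', hEC⟩ := ih _ hdeg hu1 ha rfl
        have q1w := q1 w
        rw [δ_self, δ_ne (Ne.symm hwz)] at q1w
        have htw : w ≠ t := by rintro rfl; omega
        have ht'w : w ≠ t' := by rintro rfl; omega
        have q1t := q1 t
        have q1t' := q1 t'
        rw [δ_ne htw] at q1t
        rw [δ_ne ht'w] at q1t'
        have hlt : (u1 + δ t + δ t') w < u w := by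
          simp only [Finsupp.add_apply, δ_ne (Ne.symm htw), δ_ne (Ne.symm ht'w)]
          omega
        rcases exch hEC hu hlt with ⟨v, X', hX', e2, hv⟩ | ⟨v, hX', hv⟩
        · have e3 : X' + δ v = u + δ z + δ t + δ t' := by (refine Finsupp.ext (fun fsv => ?_); have fsh0 := DFunLike.congr_fun (e1) fsv; have fsh1 := DFunLike.congr_fun (e2) fsv; simp only [Finsupp.add_apply] at *; omega)
          simp only [Finsupp.add_apply] at hv
          by_cases hvz : z = v
          · subst hvz
            exact ⟨t, t', by omega, by omega, ec_of hX' (by (refine Finsupp.ext (fun fsv => ?_); have fsh0 := DFunLike.congr_fun (e3) fsv; simp only [Finsupp.add_apply] at *; omega))⟩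
          · have q1v := q1 v
            rw [δ_ne hvz] at q1v
            by_cases hvt : t = v
            · subst hvt
              refine ⟨z, t', hz, by omega, ec_of hX' (by (refine Finsupp.ext (fun fsv => ?_); have fsh0 := DFunLike.congr_fun (e3) fsv; simp only [Finsupp.add_apply] at *; omega))⟩
            · have hvt' : t' = v := δ_pos (by rw [δ_ne hvt] at hv; omega)
              subst hvt'
              refine ⟨z, t, hz, by omega, ec_of hX' (by (refine Finsupp.ext (fun fsv => ?_); have fsh0 := DFunLike.congr_fun (e3) fsv; simp only [Finsupp.add_apply] at *; omega))⟩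
        · exfalso
          have := q1 v
          simp only [Finsupp.add_apply] at hv
          have := δ_le z v
          omega
      · refine ⟨z, w, hz, hw, hX'⟩

/-- the block lemma (cross-block exchange) -/
theorem block_exch {G : SimpleGraph V} {q : ℕ} {u u' : V →₀ ℕ} {x y z s : V}
    (h : EC G q u x y) (hu' : u' ∈ P G q) (e : u' + δ s = u + δ z) (hzs : z ≠ s)
    (hzx : z ≠ x) (hzy : z ≠ y) :
    ∃ X', X' ∈ P G (q + 1) ∧ ∃ w, (w = x ∨ w = y ∨ w = s) ∧ X' + δ w = u + δ x + δ y + δ z := by
  have hlt : (u + δ x + δ y) z < u' z := by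
    have := pw e z
    simp only [Finsupp.add_apply, δ_self, δ_ne (Ne.symm hzs), δ_ne (Ne.symm hzx),
      δ_ne (Ne.symm hzy)] at this ⊢
    omega
  rcases exch h hu' hlt with ⟨w, X', hX', e1, hw⟩ | ⟨w, hX', hw⟩
  · refine ⟨X', hX', w, ?_, e1⟩
    by_contra hcon
    push Not at hcon
    have := pw e w
    simp only [Finsupp.add_apply, δ_ne (Ne.symm hcon.1), δ_ne (Ne.symm hcon.2.1),
      δ_ne (Ne.symm hcon.2.2)] at this hw
    omega
  · exfalso
    have := pw e w
    simp only [Finsupp.add_apply] at this hw
    omega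

end Pool.Agent.LQ
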