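import Pool.Agent.Helper75.LQ.Conn

/-!
# MP_e2a5d3_al : induced cycles of the complement of the even-connection graph
-/

namespace Pool.Agent.LQ

open Finsupp

variable {V : Type*}

/-- `z 0, …, z (n-1)` is an induced cycle (in this cyclic order) of the graph whose NON-edges are
given by `R`. -/
def IndCyc (R : V → V → Prop) (n : ℕ) (z : ZMod n → V) : Prop :=
  ∀ i j, i ≠ j → (R (z i) (z j) ↔ (j ≠ i + 1 ∧ i ≠ j + 1))

open Classical in
/-- weight of a set of vertices -/
noncomputable def wt (I : Set V) : (V →₀ ℕ) →+ ℕ :=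
  Finsupp.liftAddHom (fun v => if v ∈ I then AddMonoidHom.id ℕ else 0)

theorem wt_δ_mem {I : Set V} {x : V} (h : x ∈ I) : wt I (δ x) = 1 := by
  unfold wt δ
  rw [Finsupp.liftAddHom_apply_single, if_pos h]; rfl

theorem wt_δ_not {I : Set V} {x : V} (h : x ∉ I) : wt I (δ x) = 0 := by
  unfold wt δ
  rw [Finsupp.liftAddHom_apply_single, if_neg h]; rfl

theorem wt_le_one (I : Set V) (x : V) : wt I (δ x) ≤ 1 := by
  by_cases h : x ∈ I
  · rw [wt_δ_mem h]
  · rw [wt_δ_not h]; omega

theorem wt_le {G : SimpleGraph V} {I : Set V} (hI : ∀ x ∈ I, ∀ y ∈ I, ¬ G.Adj x y) :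
    ∀ {m : ℕ} {X : V →₀ ℕ}, X ∈ P G m → wt I X ≤ m
  | 0, X, h => by
      have : X = 0 := h
      rw [this, map_zero]
  | m + 1, X, h => by
      obtain ⟨Y, hY, a, b, hab, rfl⟩ := h
      have := wt_le hI hY
      rw [show ev a b = δ a + δ b from rfl, map_add, map_add]
      by_cases ha : a ∈ I
      · by_cases hb : b ∈ I
        · exact absurd hab (hI a ha b hb)
        · rw [wt_δ_not hb]
          have := wt_le_one I a
          omega
      · rw [wt_δ_not ha]
        have := wt_le_one I b
        omega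

theorem exists_of_wt_pos {I : Set V} {X : V →₀ ℕ} (h : 0 < wt I X) : ∃ x ∈ I, 0 < X x := by
  classical
  by_contra hcon
  push Not at hcon
  have : wt I X = 0 := by
    unfold wt
    rw [Finsupp.liftAddHom_apply, Finsupp.sum]
    refine Finset.sum_eq_zero (fun v _ => ?_)
    by_cases hv : v ∈ I
    · rw [if_pos hv]
      have := hcon v hv
      simpa using this
    · rw [if_neg hv]; rfl
  omega

theorem ec_mono {G : SimpleGraph V} {q : ℕ} {u' u : V →₀ ℕ} {p r x y : V} (hpr : G.Adj p r)
    (hu : u = u' + δ p + δ r) (h : EC G q u' x y) : EC G (q + 1) u x y :=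
  add_edge h hpr (by rw [hu]; abel)

theorem ec_split {G : SimpleGraph V} {q : ℕ} {u' u : V →₀ ℕ} {p r x y : V} (hu' : u' ∈ P G q)
    (hu : u = u' + δ p + δ r) (h : EC G (q + 1) u x y) :
    EC G q u' x y ∨ (EC G q u' x p ∧ EC G q u' y r) ∨ (EC G q u' x r ∧ EC G q u' y p) := by
  have hlt : u' x < (u + δ x + δ y) x := by
    have := pw hu x
    simp only [Finsupp.add_apply, δ_self] at *
    omega
  rcases exch2 hu' h hlt with ⟨w, X', Y', h1, h2, h3, h4, h5⟩ | ⟨w, Y', h1, h2, h3, h4⟩
  · exfalso
    have := pw hu w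
    simp only [Finsupp.add_apply] at *
    omega
  · have h2' : Y' ∈ P G (q + 1) := h2
    have e := pw hu w
    simp only [Finsupp.add_apply] at h4 e
    by_cases hwy : y = w
    · subst hwy; exact Or.inl h1
    · by_cases hwp : p = w
      · subst hwp
        refine Or.inr (Or.inl ⟨h1, ec_of h2' (by (refine Finsupp.ext (fun fsv => ?_); have fsh0 := DFunLike.congr_fun (h3) fsv; have fsh1 := DFunLike.congr_fun (hu) fsv; simp only [Finsupp.add_apply] at *; omega))⟩)
      · have hwr : r = w := δ_pos (by rw [δ_ne hwy, δ_ne hwp] at *; omega)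
        subst hwr
        refine Or.inr (Or.inr ⟨h1, ec_of h2' (by (refine Finsupp.ext (fun fsv => ?_); have fsh0 := DFunLike.congr_fun (h3) fsv; have fsh1 := DFunLike.congr_fun (hu) fsv; simp only [Finsupp.add_apply] at *; omega))⟩)

theorem ec_type {G : SimpleGraph V} {q : ℕ} {u' u : V →₀ ℕ} {p r x y : V} (hpr : G.Adj p r)
    (hu : u = u' + δ p + δ r) (hx : EC G q u' x p) (hy : EC G q u' y r)
    (hxy : ¬ EC G (q + 1) u x y) : EC G q u' y p := by
  by_cases hyx : y = x
  · subst hyx; exact hx
  by_cases hyp : y = p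
  · subst hyp; exact absurd (ec_mono hpr hu hx) hxy
  have hlt : (u' + δ x + δ p) y < (u' + δ y + δ r) y := by
    simp only [Finsupp.add_apply, δ_self, δ_ne (Ne.symm hyx), δ_ne (Ne.symm hyp)]
    omega
  rcases exch hx hy hlt with ⟨w, X', hX', e1, hw⟩ | ⟨w, hX', hw⟩
  · simp only [Finsupp.add_apply] at hw
    by_cases hwx : x = w
    · subst hwx
      exact ec_of hX' (by (refine Finsupp.ext (fun fsv => ?_); have fsh0 := DFunLike.congr_fun (e1) fsv; simp only [Finsupp.add_apply] at *; omega))
    · have hwp : p = w := δ_pos (by rw [δ_ne hwx] at hw; omega)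
      subst hwp
      exact absurd (ec_mono hpr hu (ec_of hX' (by (refine Finsupp.ext (fun fsv => ?_); have fsh0 := DFunLike.congr_fun (e1) fsv; simp only [Finsupp.add_apply] at *; omega)))) hxy
  · simp only [Finsupp.add_apply] at hw
    have hwr : r = w := δ_pos (by omega)
    subst hwr
    exact absurd (ec_of hX' (by rw [hu]; abel)) hxy

section cyc

variable {n : ℕ}

theorem natCast_ne {a b : ℕ} (h1 : a < b) (h2 : b < a + n) : (a : ZMod n) ≠ (b : ZMod n) := by
  intro h
  rw [ZMod.natCast_eq_natCast_iff] at h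
  have h3 := (Nat.modEq_iff_dvd' h1.le).1 h
  have := Nat.le_of_dvd (by omega) h3
  omega

theorem indCyc_step {G : SimpleGraph V} (hG : GF G) {q : ℕ} {u' u : V →₀ ℕ} {p r : V}
    (hu' : u' ∈ P G q) (hpr : G.Adj p r) (hu : u = u' + δ p + δ r) (hn : 5 ≤ n)
    {z : ZMod n → V} (hz : IndCyc (EC G (q + 1) u) n z) :
    IndCyc (EC G q u') n z ∧
      ((∀ i, ¬ EC G q u' (z i) p) ∨ (∀ i, ¬ EC G q u' (z i) r)) := by
  have hu2 : u = u' + δ r + δ p := by rw [hu]; abel
  have c2 : (0 : ZMod n) ≠ 2 := by exact_mod_cast natCast_ne (n := n) (a := 0) (b := 2) (by omega) (by omega)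
  have c3 : (0 : ZMod n) ≠ 3 := by exact_mod_cast natCast_ne (n := n) (a := 0) (b := 3) (by omega) (by omega)
  have c1 : (0 : ZMod n) ≠ 1 := by exact_mod_cast natCast_ne (n := n) (a := 0) (b := 1) (by omega) (by omega)
  -- consecutive vertices are not connected
  have hcons : ∀ i, ¬ EC G (q + 1) u (z i) (z (i + 1)) := by
    intro i h
    have hne : i ≠ i + 1 := by
      intro h'
      apply c1
      have : i + 0 = i + 1 := by rw [add_zero]; exact h'
      exact add_left_cancel this
    exact ((hz i (i + 1) hne).1 h).1 rfl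
  -- no vertex is of both types
  have hb : ∀ i, ¬ (EC G q u' (z i) p ∧ EC G q u' (z i) r) := by
    rintro i ⟨h1, h2⟩
    have hne : i + 1 ≠ i - 1 := by
      intro h'
      apply c2
      linear_combination -h'
    have h3 : EC G (q + 1) u (z (i + 1)) (z (i - 1)) := by
      refine (hz _ _ hne).2 ⟨?_, ?_⟩
      · intro h'
        apply c3
        linear_combination h'
      · intro h'
        apply c1
        linear_combination -h'
    have h4 : ¬ EC G (q + 1) u (z i) (z (i - 1)) := by
      intro h'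
      have := hcons (i - 1)
      rw [sub_add_cancel] at this
      exact this h'.symm
    exact ec_ld hG h3 (hcons i) h4 h1 h2 (p := r) (r := p) (by rw [hu]; abel) (by rw [hu]; abel)
      hpr.symm
  have hd1 : ∀ i, ¬ (EC G q u' (z i) p ∧ EC G q u' (z (i + 1)) r) := by
    rintro i ⟨h1, h2⟩
    exact hb (i + 1) ⟨ec_type hpr hu h1 h2 (hcons i), h2⟩
  have hd1' : ∀ i, ¬ (EC G q u' (z i) r ∧ EC G q u' (z (i + 1)) p) := by
    rintro i ⟨h1, h2⟩
    exact hb (i + 1) ⟨h2, ec_type hpr.symm hu2 h1 h2 (hcons i)⟩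
  have hd2 : ∀ i j, i ≠ j → (j ≠ i + 1 ∧ i ≠ j + 1) → ¬ EC G q u' (z i) p → ¬ EC G q u' (z i) r →
      ¬ EC G q u' (z j) p → ¬ EC G q u' (z j) r → False := by
    intro i j hij hnc h1 h2 h3 h4
    have h5 := (hz i j hij).2 hnc
    rcases ec_split hu' hu h5 with h6 | h6 | h6
    · rcases ec_c4 hG h6 (ec_of_adj hu' hpr) with h7 | h7 | h7 | h7
      · exact h1 h7
      · exact h2 h7
      · exact h3 h7
      · exact h4 h7
    · exact h1 h6.1
    · exact h2 h6.1
  have hmain : ¬ ((∃ i, EC G q u' (z i) p) ∧ (∃ j, EC G q u' (z j) r)) := by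
    classical
    rintro ⟨⟨i, hi⟩, ⟨j, hj⟩⟩
    have : NeZero n := ⟨by omega⟩
    have hij : i ≠ j := by
      rintro rfl
      exact hb i ⟨hi, hj⟩
    set m := (j - i).val with hm
    have hmn : m < n := ZMod.val_lt _
    have hj' : i + (m : ZMod n) = j := by
      rw [hm, ZMod.natCast_zmod_val]; ring
    have hm0 : 0 < m := by
      rcases Nat.eq_zero_or_pos m with h | h
      · exfalso
        rw [h] at hj'
        apply hij
        rw [← hj']; simp
      · exact h
    have hfn : i + (n : ZMod n) = i := by simp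
    -- first arc
    have hex1 : ∃ k : ℕ, ¬ EC G q u' (z (i + (k : ZMod n))) p := by
      refine ⟨m, fun h => ?_⟩
      rw [hj'] at h
      exact hb j ⟨h, hj⟩
    obtain ⟨k1, hk1⟩ : ∃ k, k = Nat.find hex1 := ⟨_, rfl⟩
    have hk1s : ¬ EC G q u' (z (i + (k1 : ZMod n))) p := by rw [hk1]; exact Nat.find_spec hex1
    have hk1m : k1 ≤ m := by
      rw [hk1]; apply Nat.find_min'
      intro h
      rw [hj'] at h
      exact hb j ⟨h, hj⟩
    have hk10 : 0 < k1 := by
      rcases Nat.eq_zero_or_pos k1 with h | h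
      · exfalso
        rw [h] at hk1s
        apply hk1s
        simpa using hi
      · exact h
    have hk1p : EC G q u' (z (i + ((k1 - 1 : ℕ) : ZMod n))) p := by
      have := Nat.find_min hex1 (m := k1 - 1) (by rw [← hk1]; omega)
      exact not_not.1 this
    have hk1e : i + ((k1 - 1 : ℕ) : ZMod n) + 1 = i + (k1 : ZMod n) := by
      have : ((k1 - 1 : ℕ) : ZMod n) + 1 = (k1 : ZMod n) := by
        have h : k1 = (k1 - 1) + 1 := by omega
        conv_rhs => rw [h]
        push_cast; ring
      rw [add_assoc, this]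
    have hk1r : ¬ EC G q u' (z (i + (k1 : ZMod n))) r := by
      intro h
      apply hd1 (i + ((k1 - 1 : ℕ) : ZMod n))
      rw [hk1e]
      exact ⟨hk1p, h⟩
    have hk1m' : k1 < m := by
      rcases Nat.lt_or_ge k1 m with h | h
      · exact h
      · exfalso
        have : k1 = m := le_antisymm hk1m h
        rw [this, hj'] at hk1r
        exact hk1r hj
    -- second arc
    have hcast : ∀ k : ℕ, i + ((m + k : ℕ) : ZMod n) = j + (k : ZMod n) := by
      intro k
      rw [← hj']; push_cast; ring
    have hjn : j + ((n - m : ℕ) : ZMod n) = i := by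
      rw [← hcast, show m + (n - m) = n by omega, hfn]
    have hex2 : ∃ k : ℕ, ¬ EC G q u' (z (j + (k : ZMod n))) r := by
      refine ⟨n - m, fun h => ?_⟩
      rw [hjn] at h
      exact hb i ⟨hi, h⟩
    obtain ⟨k2, hk2⟩ : ∃ k, k = Nat.find hex2 := ⟨_, rfl⟩
    have hk2s : ¬ EC G q u' (z (j + (k2 : ZMod n))) r := by rw [hk2]; exact Nat.find_spec hex2
    have hk2m : k2 ≤ n - m := by
      rw [hk2]; apply Nat.find_min'
      intro h
      rw [hjn] at h
      exact hb i ⟨hi, h⟩
    have hk20 : 0 < k2 := by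
      rcases Nat.eq_zero_or_pos k2 with h | h
      · exfalso
        rw [h] at hk2s
        apply hk2s
        simpa using hj
      · exact h
    have hk2p : EC G q u' (z (j + ((k2 - 1 : ℕ) : ZMod n))) r := by
      have := Nat.find_min hex2 (m := k2 - 1) (by rw [← hk2]; omega)
      exact not_not.1 this
    have hk2e : j + ((k2 - 1 : ℕ) : ZMod n) + 1 = j + (k2 : ZMod n) := by
      have : ((k2 - 1 : ℕ) : ZMod n) + 1 = (k2 : ZMod n) := by
        have h : k2 = (k2 - 1) + 1 := by omega
        conv_rhs => rw [h]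
        push_cast; ring
      rw [add_assoc, this]
    have hk2r : ¬ EC G q u' (z (j + (k2 : ZMod n))) p := by
      intro h
      apply hd1' (j + ((k2 - 1 : ℕ) : ZMod n))
      rw [hk2e]
      exact ⟨hk2p, h⟩
    have hk2m' : k2 < n - m := by
      rcases Nat.lt_or_ge k2 (n - m) with h | h
      · exact h
      · exfalso
        have : k2 = n - m := le_antisymm hk2m h
        rw [this, hjn] at hk2r
        exact hk2r hi
    rw [← hcast] at hk2s hk2r
    refine hd2 (i + (k1 : ZMod n)) (i + ((m + k2 : ℕ) : ZMod n)) ?_ ⟨?_, ?_⟩ hk1s hk1r hk2r hk2s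
    · intro h
      exact natCast_ne (n := n) (a := k1) (b := m + k2) (by omega) (by omega) (add_left_cancel h)
    · intro h
      apply natCast_ne (n := n) (a := k1 + 1) (b := m + k2) (by omega) (by omega)
      have : i + ((m + k2 : ℕ) : ZMod n) = i + ((k1 + 1 : ℕ) : ZMod n) := by
        rw [h]; push_cast; ring
      exact (add_left_cancel this).symm
    · intro h
      apply natCast_ne (n := n) (a := k1) (b := m + k2 + 1) (by omega) (by omega)
      have : i + (k1 : ZMod n) = i + ((m + k2 + 1 : ℕ) : ZMod n) := by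
        rw [h]; push_cast; ring
      exact add_left_cancel this
  have hor : (∀ i, ¬ EC G q u' (z i) p) ∨ (∀ i, ¬ EC G q u' (z i) r) := by
    by_contra hcon
    push Not at hcon
    exact hmain hcon
  refine ⟨fun i j hij => ⟨fun h => (hz i j hij).1 (ec_mono hpr hu h), fun h => ?_⟩, hor⟩
  rcases ec_split hu' hu ((hz i j hij).2 h) with h6 | h6 | h6
  · exact h6
  · rcases hor with h7 | h7
    · exact absurd h6.1 (h7 i)
    · exact absurd h6.2 (h7 j)
  · rcases hor with h7 | h7
    · exact absurd h6.2 (h7 j)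
    · exact absurd h6.1 (h7 i)

/-- An induced cycle of length at least 5 of the complement of the even-connection graph of
`u ∈ P G q` is an induced cycle of the complement of `G`, and `u` has at least `q` hubs. -/
theorem indCyc_hub {G : SimpleGraph V} (hG : GF G) (hn : 5 ≤ n) {z : ZMod n → V} :
    ∀ (q : ℕ) (u : V →₀ ℕ), u ∈ P G q → IndCyc (EC G q u) n z →
      IndCyc G.Adj n z ∧ q ≤ wt {v | ∀ i, ¬ G.Adj v (z i)} u
  | 0, u, hu, hz => by
      have hu0 : u = 0 := hu
      subst hu0
      refine ⟨fun i j hij => ?_, Nat.zero_le _⟩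
      rw [← hz i j hij]
      constructor
      · intro h
        exact ec_of_adj hu h
      · rintro ⟨v, hv, a, b, hab, e⟩
        have hv0 : v = 0 := hv
        subst hv0
        rw [zero_add, zero_add, ev] at e
        have ha := pw e a
        have hb := pw e b
        have hab' := hab.ne
        simp only [Finsupp.add_apply] at ha hb
        change δ (z i) a + δ (z j) a = δ a a + δ b a at ha
        change δ (z i) b + δ (z j) b = δ a b + δ b b at hb
        rw [δ_self, δ_ne (Ne.symm hab')] at ha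
        rw [δ_self, δ_ne hab'] at hb
        by_cases h1 : z i = a
        · have h2 : z j = b := δ_pos (by rw [h1, δ_ne hab'] at hb; omega)
          rw [h1, h2]; exact hab
        · have h2 : z j = a := δ_pos (by rw [δ_ne h1] at ha; omega)
          have h3 : z i = b := δ_pos (by rw [h2, δ_ne hab'] at hb; omega)
          rw [h2, h3]; exact hab.symm
  | q + 1, u, hu, hz => by
      obtain ⟨u', hu', p, r, hpr, e⟩ := hu
      have e' : u = u' + δ p + δ r := by rw [e, ev, add_assoc]
      obtain ⟨h1, h2⟩ := indCyc_step hG hu' hpr e' hn hz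
      obtain ⟨h3, h4⟩ := indCyc_hub hG hn q u' hu' h1
      refine ⟨h3, ?_⟩
      rw [e', map_add, map_add]
      rcases h2 with h2 | h2
      · have : wt {v | ∀ i, ¬ G.Adj v (z i)} (δ p) = 1 :=
          wt_δ_mem (fun i hi => h2 i (ec_of_adj hu' hi.symm))
        omega
      · have : wt {v | ∀ i, ¬ G.Adj v (z i)} (δ r) = 1 :=
          wt_δ_mem (fun i hi => h2 i (ec_of_adj hu' hi.symm))
        omega

/-- hubs of `z` are not even-connected to the vertices of `z`. -/
theorem not_ec_hub {G : SimpleGraph V} (hG : GF G) (hn : 5 ≤ n) {z : ZMod n → V} {q : ℕ}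
    {u : V →₀ ℕ} (hu : u ∈ P G q) (hz : IndCyc (EC G q u) n z) {h : V}
    (hh : ∀ i, ¬ G.Adj h (z i)) (i : ZMod n) : ¬ EC G q u h (z i) := by
  intro hec
  obtain ⟨h1, h2⟩ := indCyc_hub hG hn q u hu hz
  set H : Set V := {v | ∀ i, ¬ G.Adj v (z i)} with hH
  have c2 : (0 : ZMod n) ≠ 2 := by exact_mod_cast natCast_ne (n := n) (a := 0) (b := 2) (by omega) (by omega)
  have c3 : (0 : ZMod n) ≠ 3 := by exact_mod_cast natCast_ne (n := n) (a := 0) (b := 3) (by omega) (by omega)
  have c1 : (0 : ZMod n) ≠ 1 := by exact_mod_cast natCast_ne (n := n) (a := 0) (b := 1) (by omega) (by omega)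
  have hadj : ∀ i, G.Adj (z i) (z (i + 2)) := by
    intro i
    refine (h1 i (i + 2) ?_).2 ⟨?_, ?_⟩
    · intro h'
      apply c2
      linear_combination h'
    · intro h'
      apply c1
      linear_combination -h'
    · intro h'
      apply c3
      linear_combination h'
  have hHH : ∀ x ∈ H, ∀ y ∈ H, ¬ G.Adj x y := by
    intro x hx y hy hxy
    rcases hG _ _ _ _ hxy (hadj 0) with h' | h' | h' | h'
    · exact hx _ h'
    · exact hx _ h'
    · exact hy _ h'
    · exact hy _ h'
  have hI : ∀ x ∈ insert (z i) H, ∀ y ∈ insert (z i) H, ¬ G.Adj x y := by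
    intro x hx y hy hxy
    rcases hx with rfl | hx
    · rcases hy with rfl | hy
      · exact G.irrefl hxy
      · exact hy i hxy.symm
    · rcases hy with rfl | hy
      · exact hx i hxy
      · exact hHH x hx y hy hxy
  have h3 := wt_le hI hec
  rw [map_add, map_add, wt_δ_mem (Set.mem_insert _ _),
    wt_δ_mem (Set.mem_insert_of_mem _ (show h ∈ H from hh))] at h3
  have h4 : wt H u ≤ wt (insert (z i) H) u := by
    classical
    unfold wt
    rw [Finsupp.liftAddHom_apply, Finsupp.liftAddHom_apply, Finsupp.sum, Finsupp.sum]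
    refine Finset.sum_le_sum (fun v _ => ?_)
    by_cases hv : v ∈ H
    · rw [if_pos hv, if_pos (Set.mem_insert_of_mem _ hv)]
    · rw [if_neg hv]; exact Nat.zero_le _
  omega

end cyc

end Pool.Agent.LQ
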