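import Mathlib

/-!
# MP_e2a5d3_al : linear quotients of powers of edge ideals.  Definitions.
-/

namespace Pool.Agent.LQ

open MvPolynomial

/-- The edge ideal of a graph `G` on `V` in `K[x_v : v ∈ V]`. -/
noncomputable def edgeIdeal (K : Type*) [Field K] {V : Type*} (G : SimpleGraph V) :
    Ideal (MvPolynomial V K) :=
  Ideal.span {f | ∃ a b : V, G.Adj a b ∧ f = X a * X b}

/-- The exponents of the minimal monomial generators of a monomial ideal `I`: the monomials of `I`
none of whose proper divisors is in `I`. -/
def minGens {K : Type*} [Field K] {V : Type*} (I : Ideal (MvPolynomial V K)) :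
    Set (V →₀ ℕ) :=
  {u | monomial u (1 : K) ∈ I ∧ ∀ v : V →₀ ℕ, v ≤ u → monomial v (1 : K) ∈ I → v = u}

/-- The monomial ideal `I`, whose minimal monomial generators have all the same degree, has
linear quotients: the minimal monomial generators can be listed as `u₁, …, uᵣ` such that each
colon ideal `(u₁, …, uᵢ) : uᵢ₊₁` is generated by a set of variables. -/
def HasLinearQuotients {K : Type*} [Field K] {V : Type*} (I : Ideal (MvPolynomial V K)) : Prop :=
  (∃ d : ℕ, ∀ u ∈ minGens I, u.degree = d) ∧
  ∃ l : List (V →₀ ℕ), l.Nodup ∧ (∀ u, u ∈ l ↔ u ∈ minGens I) ∧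
    ∀ i (hi : i < l.length), ∃ W : Set V,
      (Ideal.span ((fun u => monomial u (1 : K)) '' {u | u ∈ l.take i})).colon
        ({monomial (l[i]) (1 : K)} : Set (MvPolynomial V K)) = Ideal.span (X '' W)

end Pool.Agent.LQ
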