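import Pool.Agent.Helper75.LQ.Comb

/-!
# MP_e2a5d3_al : exchange properties of degree vectors of edge multisets
-/

namespace Pool.Agent.LQ

open Finsupp

variable {V : Type*}

theorem ev_comm (a b : V) : ev a b = ev b a := by
  unfold ev; rw [add_comm]

/-- exponent vector of an element of `Sym2 V` -/
noncomputable def ev2 : Sym2 V → (V →₀ ℕ) := Sym2.lift ⟨ev, ev_comm⟩

@[simp] theorem ev2_mk (a b : V) : ev2 s(a, b) = ev a b := rfl

/-- degree vector of a multiset of edges -/
noncomputable def dg (M : Multiset (Sym2 V)) : V →₀ ℕ := (M.map ev2).sum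

@[simp] theorem dg_zero : dg (0 : Multiset (Sym2 V)) = 0 := by simp [dg]

theorem dg_cons (e : Sym2 V) (M : Multiset (Sym2 V)) : dg (e ::ₘ M) = ev2 e + dg M := by
  simp [dg]

theorem mem_P_iff {G : SimpleGraph V} {q : ℕ} {u : V →₀ ℕ} :
    u ∈ P G q ↔ ∃ M : Multiset (Sym2 V), (∀ e ∈ M, e ∈ G.edgeSet) ∧ M.card = q ∧ dg M = u := by
  induction q generalizing u with
  | zero =>
      constructor
      · intro h
        have : u = 0 := h
        exact ⟨0, by simp, by simp, by simp [this]⟩
      · rintro ⟨M, _, hc, rfl⟩
        rw [Multiset.card_eq_zero] at hc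
        subst hc
        show _ = _
        simp
  | succ q ih =>
      constructor
      · rintro ⟨v, hv, a, b, hab, rfl⟩
        obtain ⟨M, h1, h2, rfl⟩ := ih.1 hv
        refine ⟨s(a, b) ::ₘ M, ?_, by simp [h2], by rw [dg_cons, ev2_mk, add_comm]⟩
        intro e he
        rcases Multiset.mem_cons.1 he with rfl | he
        · exact hab
        · exact h1 e he
      · rintro ⟨M, h1, h2, rfl⟩
        obtain ⟨e, he⟩ : ∃ e, e ∈ M := by
          rw [← Multiset.card_pos_iff_exists_mem]; omega
        obtain ⟨M', rfl⟩ := Multiset.exists_cons_of_mem he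
        induction e using Sym2.ind with
        | _ a b =>
            refine ⟨dg M', ih.2 ⟨M', fun e he => h1 e (Multiset.mem_cons_of_mem he), ?_, rfl⟩, a, b,
              h1 _ he, ?_⟩
            · simpa using h2
            · rw [dg_cons, ev2_mk, add_comm]

theorem dg_apply [DecidableEq V] {M : Multiset (Sym2 V)} (hM : ∀ e ∈ M, ¬ e.IsDiag) (z : V) :
    dg M z = (M.filter (fun e => z ∈ e)).card := by
  induction M using Multiset.induction_on with
  | empty => simp
  | cons e M ih =>
      rw [dg_cons, Finsupp.add_apply, ih (fun e' he' => hM e' (Multiset.mem_cons_of_mem he'))]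
      have hd := hM e (Multiset.mem_cons_self _ _)
      induction e using Sym2.ind with
      | _ a b =>
          have hab : a ≠ b := by simpa using hd
          rw [ev2_mk, ev, Finsupp.add_apply]
          by_cases h : z ∈ s(a, b)
          · rw [Multiset.filter_cons_of_pos (p := fun e => z ∈ e) _ h, Multiset.card_cons]
            rcases Sym2.mem_iff.1 h with rfl | rfl
            · rw [single_eq_same, single_eq_of_ne hab]; omega
            · rw [single_eq_same, single_eq_of_ne (Ne.symm hab)]; omega
          · rw [Multiset.filter_cons_of_neg (p := fun e => z ∈ e) _ h]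
            have h1 : z ≠ a := fun h' => h (Sym2.mem_iff.2 (Or.inl h'))
            have h2 : z ≠ b := fun h' => h (Sym2.mem_iff.2 (Or.inr h'))
            rw [single_eq_of_ne h1, single_eq_of_ne h2]; omega

theorem exists_count_lt [DecidableEq V] {M N : Multiset (Sym2 V)} (hM : ∀ e ∈ M, ¬ e.IsDiag)
    (hN : ∀ e ∈ N, ¬ e.IsDiag) {z : V} (h : dg M z < dg N z) :
    ∃ e, z ∈ e ∧ M.count e < N.count e := by
  by_contra hcon
  push Not at hcon
  rw [dg_apply hM, dg_apply hN] at h
  have : N.filter (fun e => z ∈ e) ≤ M.filter (fun e => z ∈ e) := by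
    rw [Multiset.le_iff_count]
    intro e
    rw [Multiset.count_filter, Multiset.count_filter]
    split_ifs with hz
    · exact hcon e hz
    · exact le_rfl
  exact absurd (Multiset.card_le_card this) (not_le.2 h)

theorem exists_count_lt' [DecidableEq V] {M N : Multiset (Sym2 V)} (hM : ∀ e ∈ M, ¬ e.IsDiag)
    (hN : ∀ e ∈ N, ¬ e.IsDiag) {z : V} (h : dg M z ≤ dg N z) {e₀ : Sym2 V} (hz : z ∈ e₀)
    (hlt : N.count e₀ < M.count e₀) :
    ∃ e, z ∈ e ∧ M.count e < N.count e := by
  by_contra hcon
  push Not at hcon
  rw [dg_apply hM, dg_apply hN] at h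
  have hle : N.filter (fun e => z ∈ e) ≤ M.filter (fun e => z ∈ e) := by
    rw [Multiset.le_iff_count]
    intro e
    rw [Multiset.count_filter, Multiset.count_filter]
    split_ifs with hz
    · exact hcon e hz
    · exact le_rfl
  have heq := Multiset.eq_of_le_of_card_le hle h
  have := congrArg (Multiset.count e₀) heq
  rw [Multiset.count_filter, Multiset.count_filter, if_pos hz, if_pos hz] at this
  omega

theorem exch_aux [DecidableEq V] (G : SimpleGraph V) (N : Multiset (Sym2 V))
    (hN : ∀ e ∈ N, e ∈ G.edgeSet) : ∀ n : ℕ, ∀ M : Multiset (Sym2 V), (N - M).card = n →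
    (∀ e ∈ M, e ∈ G.edgeSet) → ∀ z, dg M z < dg N z →
    (∃ w M', M' ≤ M ∪ N ∧ M'.card = M.card ∧
      dg M' + single w 1 = dg M + single z 1 ∧ dg N w < dg M w) ∨
    (∃ w M', M' ≤ M ∪ N ∧ M'.card = M.card + 1 ∧
      dg M' = dg M + single z 1 + single w 1 ∧ dg M w + (single z 1 : V →₀ ℕ) w < dg N w) := by
  intro n
  induction n with
  | zero =>
      intro M hM hMe z hz
      exfalso
      obtain ⟨e, he, hlt⟩ := exists_count_lt (fun e he => G.not_isDiag_of_mem_edgeSet (hMe e he))
        (fun e he => G.not_isDiag_of_mem_edgeSet (hN e he)) hz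
      rw [Multiset.card_eq_zero] at hM
      have := congrArg (Multiset.count e) hM
      rw [Multiset.count_sub, Multiset.count_zero] at this
      omega
  | succ n ih =>
      intro M hM hMe z hz
      have hMd : ∀ e ∈ M, ¬ e.IsDiag := fun e he => G.not_isDiag_of_mem_edgeSet (hMe e he)
      have hNd : ∀ e ∈ N, ¬ e.IsDiag := fun e he => G.not_isDiag_of_mem_edgeSet (hN e he)
      obtain ⟨e, he, hlt⟩ := exists_count_lt hMd hNd hz
      have heN : e ∈ N := Multiset.count_pos.1 (by omega)
      obtain ⟨z1, rfl⟩ := Sym2.mem_iff_exists.1 he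
      have hadj : G.Adj z z1 := hN _ heN
      have hne : z ≠ z1 := hadj.ne
      by_cases h1 : dg M z1 < dg N z1
      · right
        refine ⟨z1, s(z, z1) ::ₘ M, ?_, by simp, ?_, ?_⟩
        · rw [Multiset.le_iff_count]
          intro f
          rw [Multiset.count_cons, Multiset.count_union]
          by_cases hf : f = s(z, z1)
          · subst hf
            rw [if_pos rfl]
            omega
          · rw [if_neg hf]
            omega
        · rw [dg_cons, ev2_mk, ev]; abel
        · rw [single_eq_of_ne (Ne.symm hne), add_zero]; exact h1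
      · push Not at h1
        obtain ⟨e', he', hlt'⟩ := exists_count_lt' hNd hMd h1 (Sym2.mem_mk_right z z1) hlt
        have heM : e' ∈ M := Multiset.count_pos.1 (by omega)
        obtain ⟨z2, rfl⟩ := Sym2.mem_iff_exists.1 he'
        have hadj' : G.Adj z1 z2 := hMe _ heM
        have hne' : z2 ≠ z := by
          rintro rfl
          rw [Sym2.eq_swap] at hlt'
          omega
        have hee : s(z, z1) ≠ s(z1, z2) := by
          intro h
          rw [h] at hlt
          omega
        obtain ⟨M0, rfl⟩ := Multiset.exists_cons_of_mem heM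
        set M' := s(z, z1) ::ₘ M0 with hM'
        have hM'e : ∀ e ∈ M', e ∈ G.edgeSet := by
          intro e he
          rcases Multiset.mem_cons.1 he with rfl | he
          · exact hadj
          · exact hMe e (Multiset.mem_cons_of_mem he)
        have hle : M' ≤ (s(z1, z2) ::ₘ M0) ∪ N := by
          rw [Multiset.le_iff_count]
          intro f
          rw [hM', Multiset.count_union, Multiset.count_cons, Multiset.count_cons]
          rw [Multiset.count_cons, if_neg hee] at hlt
          by_cases hf : f = s(z, z1)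
          · subst hf
            rw [if_pos rfl]
            omega
          · rw [if_neg hf]
            omega
        have hdg : dg M' + single z2 1 = dg (s(z1, z2) ::ₘ M0) + single z 1 := by
          rw [hM', dg_cons, dg_cons, ev2_mk, ev2_mk, ev, ev]; abel
        have hcard : M'.card = (s(z1, z2) ::ₘ M0).card := by simp [hM']
        by_cases h2 : dg N z2 < dg (s(z1, z2) ::ₘ M0) z2
        · left
          exact ⟨z2, M', hle, hcard, hdg, h2⟩
        · push Not at h2
          have hval : ∀ v, dg M' v + (single z2 1 : V →₀ ℕ) v =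
              dg (s(z1, z2) ::ₘ M0) v + (single z 1 : V →₀ ℕ) v := fun v => by
            have := DFunLike.congr_fun hdg v
            simpa using this
          have h3 : dg M' z2 < dg N z2 := by
            have := hval z2
            rw [single_eq_same, single_eq_of_ne hne'] at this
            omega
          have hsub : (N - M').card = n := by
            have : N - (s(z1, z2) ::ₘ M0) = s(z, z1) ::ₘ (N - M') := by
              ext e
              rw [Multiset.count_sub, Multiset.count_cons, Multiset.count_cons, Multiset.count_sub,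
                hM', Multiset.count_cons]
              rw [Multiset.count_cons] at hlt hlt'
              rw [if_pos rfl] at hlt'
              rw [if_neg hee] at hlt
              by_cases ha : e = s(z, z1)
              · subst ha
                rw [if_neg hee, if_pos rfl]
                omega
              · by_cases hb : e = s(z1, z2)
                · subst hb
                  rw [if_pos rfl, if_neg ha]
                  omega
                · rw [if_neg hb, if_neg ha]
                  omega
            rw [this, Multiset.card_cons] at hM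
            omega
          rcases ih M' hsub hM'e z2 h3 with ⟨w, M'', hM''e, hc, hd, hw⟩ | ⟨w, M'', hM''e, hc, hd, hw⟩
          · left
            refine ⟨w, M'', hM''e.trans (Multiset.union_le hle Multiset.le_union_right), hc.trans hcard,
              hd.trans hdg, ?_⟩
            have h4 := hval w
            by_cases hwz : w = z
            · subst hwz
              rw [single_eq_same, single_eq_of_ne (Ne.symm hne')] at h4
              omega
            · rw [single_eq_of_ne hwz] at h4
              omega
          · right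
            refine ⟨w, M'', hM''e.trans (Multiset.union_le hle Multiset.le_union_right),
              by rw [hc, hcard], by rw [hd, hdg], ?_⟩
            have h4 := hval w
            omega

/-- unit vector -/
noncomputable abbrev δ (x : V) : V →₀ ℕ := single x 1

theorem dg_add (M N : Multiset (Sym2 V)) : dg (M + N) = dg M + dg N := by
  simp [dg]

/-- Exchange, strong form: a direction `z` in which `Y` is larger can be entered from `X` and
left from `Y` simultaneously. -/
theorem exch2 {G : SimpleGraph V} {m n : ℕ} {X Y : V →₀ ℕ} (hX : X ∈ P G m) (hY : Y ∈ P G n)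
    {z : V} (hz : X z < Y z) :
    (∃ w X' Y', X' ∈ P G m ∧ Y' ∈ P G n ∧ X' + δ w = X + δ z ∧ Y' + δ z = Y + δ w ∧ Y w < X w) ∨
    (∃ w Y', X + δ z + δ w ∈ P G (m + 1) ∧ Y' ∈ P G (n - 1) ∧ Y' + δ z + δ w = Y ∧
      X w + δ z w < Y w) := by
  classical
  obtain ⟨M, hM, hMc, rfl⟩ := mem_P_iff.1 hX
  obtain ⟨N, hN, hNc, rfl⟩ := mem_P_iff.1 hY
  have hMN : ∀ M' : Multiset (Sym2 V), M' ≤ M ∪ N → (∀ e ∈ M', e ∈ G.edgeSet) ∧
      (∀ e ∈ M + N - M', e ∈ G.edgeSet) ∧ M' ≤ M + N := by
    intro M' h
    have h2 : M' ≤ M + N := h.trans (Multiset.union_le (Multiset.le_add_right _ _)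
      (Multiset.le_add_left _ _))
    refine ⟨fun e he => ?_, fun e he => ?_, h2⟩
    · rcases Multiset.mem_add.1 (Multiset.mem_of_le h2 he) with h3 | h3
      · exact hM e h3
      · exact hN e h3
    · rcases Multiset.mem_add.1 (Multiset.mem_of_le (Multiset.sub_le_self _ _) he) with h3 | h3
      · exact hM e h3
      · exact hN e h3
  have hsum : ∀ M' : Multiset (Sym2 V), M' ≤ M + N → dg M' + dg (M + N - M') = dg M + dg N ∧
      M'.card + (M + N - M').card = m + n := by
    intro M' h
    refine ⟨?_, ?_⟩
    · rw [← dg_add, ← dg_add, add_comm M', Multiset.sub_add_cancel h]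
    · rw [← Multiset.card_add, add_comm M', Multiset.sub_add_cancel h, Multiset.card_add, hMc, hNc]
  rcases exch_aux G N hN _ M rfl hM z hz with ⟨w, M', h1, h2, h3, h4⟩ | ⟨w, M', h1, h2, h3, h4⟩
  · left
    obtain ⟨a1, a2, a3⟩ := hMN M' h1
    obtain ⟨b1, b2⟩ := hsum M' a3
    refine ⟨w, dg M', dg (M + N - M'), mem_P_iff.2 ⟨M', a1, h2.trans hMc, rfl⟩,
      mem_P_iff.2 ⟨_, a2, by omega, rfl⟩, h3, ?_, h4⟩
    refine Finsupp.ext (fun v => ?_)
    have c1 := DFunLike.congr_fun h3 v
    have c2 := DFunLike.congr_fun b1 v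
    simp only [δ, Finsupp.add_apply] at *
    omega
  · right
    obtain ⟨a1, a2, a3⟩ := hMN M' h1
    obtain ⟨b1, b2⟩ := hsum M' a3
    refine ⟨w, dg (M + N - M'), h3 ▸ mem_P_iff.2 ⟨M', a1, by rw [h2, hMc], rfl⟩,
      mem_P_iff.2 ⟨_, a2, by omega, rfl⟩, ?_, h4⟩
    refine Finsupp.ext (fun v => ?_)
    have c1 := DFunLike.congr_fun h3 v
    have c2 := DFunLike.congr_fun b1 v
    simp only [δ, Finsupp.add_apply] at *
    omega

/-- Exchange: a direction `z` in which `Y` is larger can be entered. -/
theorem exch {G : SimpleGraph V} {m n : ℕ} {X Y : V →₀ ℕ} (hX : X ∈ P G m) (hY : Y ∈ P G n)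
    {z : V} (hz : X z < Y z) :
    (∃ w X', X' ∈ P G m ∧ X' + δ w = X + δ z ∧ Y w < X w) ∨
    (∃ w, X + δ z + δ w ∈ P G (m + 1) ∧ X w + δ z w < Y w) := by
  rcases exch2 hX hY hz with ⟨w, X', Y', h1, h2, h3, h4, h5⟩ | ⟨w, Y', h1, h2, h3, h4⟩
  · exact Or.inl ⟨w, X', h1, h3, h5⟩
  · exact Or.inr ⟨w, h1, h4⟩

/-- Exchange: a direction `z` in which `X` is larger can be left. -/
theorem exch' {G : SimpleGraph V} {m n : ℕ} {X Y : V →₀ ℕ} (hX : X ∈ P G (m + 1)) (hY : Y ∈ P G n)
    {z : V} (hz : Y z < X z) :
    (∃ w X', X' ∈ P G (m + 1) ∧ X' + δ z = X + δ w ∧ X w < Y w) ∨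
    (∃ w X', X' ∈ P G m ∧ X' + δ z + δ w = X ∧ Y w ≤ X' w) := by
  rcases exch2 hY hX hz with ⟨w, X', Y', h1, h2, h3, h4, h5⟩ | ⟨w, Y', h1, h2, h3, h4⟩
  · exact Or.inl ⟨w, Y', h2, h4, h5⟩
  · refine Or.inr ⟨w, Y', h2, h3, ?_⟩
    have := DFunLike.congr_fun h3 w
    simp only [Finsupp.add_apply, single_eq_same] at this
    omega

end Pool.Agent.LQ
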