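import Pool.Agent.Helper75.LQ.Rank

/-!
# MP_e2a5d3_al : elimination of the neighbours of `h`
-/

namespace Pool.Agent.LQ

open Finsupp

variable {V : Type*}

/-- the blow-up of the complement of the relation `R` -/
def Bl (R : V → V → Prop) (hs : ∀ x y, R x y → R y x) : SimpleGraph (V × Bool) where
  Adj a b := a ≠ b ∧ ¬ R a.1 b.1
  symm := ⟨fun _ _ h => ⟨h.1.symm, fun h' => h.2 (hs _ _ h')⟩⟩
  loopless := ⟨fun _ h => h.1 rfl⟩

theorem Bl_adj {R : V → V → Prop} {hs : ∀ x y, R x y → R y x} {a b : V × Bool} :
    (Bl R hs).Adj a b ↔ a ≠ b ∧ ¬ R a.1 b.1 := Iff.rfl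

theorem elim_exists {R : V → V → Prop} (hs : ∀ x y, R x y → R y x)
    (hc4 : ∀ x y x' y', R x y → R x' y' → R x x' ∨ R x y' ∨ R y x' ∨ R y y')
    (S : Finset V) {h : V} (hhS : h ∉ S)
    (hcyc : ∀ n, 5 ≤ n → ∀ z : ZMod n → V, (∀ i, z i ∈ S ∨ z i = h) → IndCyc R n z →
      ∀ i, ¬ R h (z i)) (hex : ∃ x ∈ S, R h x) :
    ∃ x ∈ S, R h x ∧ ∀ t ∈ S, ∀ t' ∈ S, R t t' → R x t ∨ R x t' := by
  classical
  set T : Finset (V × Bool) := insert (h, true) (S ×ˢ (Finset.univ : Finset Bool)) with hT
  have hTm : ∀ a : V × Bool, a ∈ T ↔ (a = (h, true) ∨ a.1 ∈ S) := by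
    intro a
    rw [hT, Finset.mem_insert, Finset.mem_product]
    simp
  have hcyc' : ∀ n, 4 ≤ n → ∀ z : ZMod n → V × Bool, GCyc (Bl R hs) n z → (∀ i, z i ∈ T) →
      ∀ i, (Bl R hs).Adj (h, true) (z i) := by
    intro n hn z hz hzT
    have hR : ∀ i j, i ≠ j → (R (z i).1 (z j).1 ↔ (j ≠ i + 1 ∧ i ≠ j + 1)) := by
      intro i j hij
      have h1 := hz.2 i j hij
      rw [Bl_adj] at h1
      have h2 : z i ≠ z j := fun h' => hij (hz.1 h')
      constructor
      · intro h3
        refine ⟨fun h4 => ?_, fun h4 => ?_⟩
        · exact (h1.2 (Or.inl h4)).2 h3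
        · exact (h1.2 (Or.inr h4)).2 h3
      · intro h3
        by_contra h4
        rcases h1.1 ⟨h2, h4⟩ with h5 | h5
        · exact h3.1 h5
        · exact h3.2 h5
    rcases Nat.lt_or_ge n 5 with h5 | h5
    · exfalso
      have h4 : n = 4 := by omega
      subst h4
      have a02 := (hR 0 2 (by decide)).2 (by decide)
      have a13 := (hR 1 3 (by decide)).2 (by decide)
      rcases hc4 _ _ _ _ a02 a13 with h' | h' | h' | h'
      · exact ((hR 0 1 (by decide)).1 h').1 (by decide)
      · exact ((hR 0 3 (by decide)).1 h').2 (by decide)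
      · exact ((hR 2 1 (by decide)).1 h').2 (by decide)
      · exact ((hR 2 3 (by decide)).1 h').1 (by decide)
    · have hI : IndCyc R n (fun i => (z i).1) := hR
      have hno := hcyc n h5 (fun i => (z i).1) (fun i => by
        rcases (hTm _).1 (hzT i) with h' | h'
        · right; rw [h']
        · left; exact h') hI
      intro i
      refine ⟨?_, hno i⟩
      intro hi
      have c2 : (0 : ZMod n) ≠ 2 := by exact_mod_cast natCast_ne (n := n) (a := 0) (b := 2) (by omega) (by omega)
      have c3 : (0 : ZMod n) ≠ 3 := by exact_mod_cast natCast_ne (n := n) (a := 0) (b := 3) (by omega) (by omega)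
      have c1 : (0 : ZMod n) ≠ 1 := by exact_mod_cast natCast_ne (n := n) (a := 0) (b := 1) (by omega) (by omega)
      have := (hR i (i + 2) (by intro h'; apply c2; linear_combination h')).2 ⟨by
        intro h'; apply c1; linear_combination -h', by
        intro h'; apply c3; linear_combination h'⟩
      rw [← hi] at this
      exact hno _ this
  obtain ⟨x0, hx0S, hx0⟩ := hex
  obtain ⟨x, hxT, hxh, hnx, hsimp⟩ := exists_simplicial (G := Bl R hs) T.card T rfl (h, true)
    ((hTm _).2 (Or.inl rfl)) hcyc' ⟨(x0, true), (hTm _).2 (Or.inr hx0S), by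
      intro h'
      have : x0 = h := congrArg Prod.fst h'
      exact hhS (this ▸ hx0S), fun h' => h'.2 hx0⟩
  have hxS : x.1 ∈ S := by
    rcases (hTm _).1 hxT with h' | h'
    · exact absurd h' hxh
    · exact h'
  refine ⟨x.1, hxS, ?_, ?_⟩
  · by_contra h'
    exact hnx ⟨Ne.symm hxh, h'⟩
  · intro t ht t' ht' htt'
    by_contra hcon
    push Not at hcon
    have n1 : t ≠ x.1 := by
      rintro rfl
      exact hcon.2 htt'
    have n2 : t' ≠ x.1 := by
      rintro rfl
      exact hcon.1 (hs _ _ htt')
    have := hsimp (t, true) ((hTm _).2 (Or.inr ht)) (t', false) ((hTm _).2 (Or.inr ht'))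
      ⟨by intro h'; exact n1 (by rw [h']), hcon.1⟩ ⟨by intro h'; exact n2 (by rw [h']), hcon.2⟩
      (by intro h'; exact Bool.noConfusion (congrArg Prod.snd h'))
    exact this.2 htt'

theorem elim_order {R : V → V → Prop} (hs : ∀ x y, R x y → R y x)
    (hc4 : ∀ x y x' y', R x y → R x' y' → R x x' ∨ R x y' ∨ R y x' ∨ R y y') {h : V} :
    ∀ (N : ℕ) (S : Finset V), S.card = N → h ∉ S →
    (∀ n, 5 ≤ n → ∀ z : ZMod n → V, (∀ i, z i ∈ S ∨ z i = h) → IndCyc R n z →
      ∀ i, ¬ R h (z i)) →
    ∃ pos : V → ℕ, (∀ x ∈ S, ∀ y ∈ S, R h x → R h y → pos x = pos y → x = y) ∧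
      ∀ x ∈ S, R h x → ∀ t ∈ S, ∀ t' ∈ S, R t t' →
        R x t ∨ R x t' ∨ (R h t ∧ pos t < pos x) ∨ (R h t' ∧ pos t' < pos x) := by
  classical
  intro N
  induction N with
  | zero =>
      intro S hS _ _
      rw [Finset.card_eq_zero] at hS
      subst hS
      exact ⟨fun _ => 0, by simp, by simp⟩
  | succ N ih =>
      intro S hS hhS hcyc
      by_cases hex : ∃ x ∈ S, R h x
      · obtain ⟨x0, hx0, hRx0, hx0s⟩ := elim_exists hs hc4 S hhS hcyc hex
        obtain ⟨pos, hinj, hpos⟩ := ih (S.erase x0) (by
          rw [Finset.card_erase_of_mem hx0, hS]; rfl) (fun h' => hhS (Finset.mem_of_mem_erase h'))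
          (fun n hn z hz hI => hcyc n hn z (fun i => by
            rcases hz i with h' | h'
            · exact Or.inl (Finset.mem_of_mem_erase h')
            · exact Or.inr h') hI)
        refine ⟨fun x => if x = x0 then 0 else pos x + 1, ?_, ?_⟩
        · intro x hx y hy h1 h2 h3
          by_cases hxx : x = x0
          · by_cases hyx : y = x0
            · rw [hxx, hyx]
            · simp only [hxx, if_true, hyx, if_false] at h3
              omega
          · by_cases hyx : y = x0
            · simp only [hxx, if_false, hyx, if_true] at h3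
              omega
            · simp only [hxx, if_false, hyx] at h3
              exact hinj x (Finset.mem_erase.2 ⟨hxx, hx⟩) y (Finset.mem_erase.2 ⟨hyx, hy⟩) h1 h2
                (by omega)
        · intro x hx hRx t ht t' ht' htt'
          by_cases hxx : x = x0
          · subst hxx
            rcases hx0s t ht t' ht' htt' with h' | h'
            · exact Or.inl h'
            · exact Or.inr (Or.inl h')
          · by_cases htx : t = x0
            · right; right; left
              refine ⟨by rw [htx]; exact hRx0, ?_⟩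
              simp only [htx, if_true, hxx, if_false]
              omega
            · by_cases htx' : t' = x0
              · right; right; right
                refine ⟨by rw [htx']; exact hRx0, ?_⟩
                simp only [htx', if_true, hxx, if_false]
                omega
              · rcases hpos x (Finset.mem_erase.2 ⟨hxx, hx⟩) hRx t (Finset.mem_erase.2 ⟨htx, ht⟩)
                  t' (Finset.mem_erase.2 ⟨htx', ht'⟩) htt' with h' | h' | h' | h'
                · exact Or.inl h'
                · exact Or.inr (Or.inl h')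
                · right; right; left
                  refine ⟨h'.1, ?_⟩
                  simp only [htx, hxx, if_false]
                  omega
                · right; right; right
                  refine ⟨h'.1, ?_⟩
                  simp only [htx', hxx, if_false]
                  omega
      · push Not at hex
        exact ⟨fun _ => 0, fun x hx y _ h1 _ _ => absurd h1 (hex x hx),
          fun x hx h1 => absurd h1 (hex x hx)⟩

end Pool.Agent.LQ
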