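import Pool.Agent.Helper75.LQ.Main

/-!
# MP_e2a5d3_al : hub sets in terms of embeddings of cycle graphs in the complement
-/

namespace Pool.Agent.LQ

open Finsupp SimpleGraph

variable {V : Type*}

/-- The hubs of an induced cycle of the complement of `G`: the vertices which are joined, in the
complement of `G`, to all the vertices of the cycle. -/
def hubs {G : SimpleGraph V} {n : ℕ} (f : cycleGraph n ↪g Gᶜ) : Set V :=
  {v | ∀ i, Gᶜ.Adj v (f i)}

theorem indCyc_inj {G : SimpleGraph V} {n : ℕ} (hn : 5 ≤ n) {z : ZMod n → V}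
    (hz : IndCyc G.Adj n z) : Function.Injective z := by
  have c2 : (0 : ZMod n) ≠ 2 := by exact_mod_cast natCast_ne (n := n) (a := 0) (b := 2) (by omega) (by omega)
  have c3 : (0 : ZMod n) ≠ 3 := by exact_mod_cast natCast_ne (n := n) (a := 0) (b := 3) (by omega) (by omega)
  have c1 : (0 : ZMod n) ≠ 1 := by exact_mod_cast natCast_ne (n := n) (a := 0) (b := 1) (by omega) (by omega)
  have key : ∀ i, z i ≠ z (i + 1) := by
    intro i h
    have h1 : G.Adj (z i) (z (i + 2)) := by
      refine (hz i (i + 2) ?_).2 ⟨?_, ?_⟩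
      · intro h'; apply c2; linear_combination h'
      · intro h'; apply c1; linear_combination -h'
      · intro h'; apply c3; linear_combination h'
    rw [h] at h1
    have h2 : i + 1 ≠ i + 2 := by
      intro h'; apply c1; linear_combination h'
    exact ((hz (i + 1) (i + 2) h2).1 h1).1 (by ring)
  intro i j h
  by_contra hij
  have h1 : ¬ G.Adj (z i) (z j) := by rw [h]; exact G.loopless.irrefl _
  rw [hz i j hij] at h1
  have h2 : j = i + 1 ∨ i = j + 1 := by
    by_contra hcon
    push Not at hcon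
    exact h1 hcon
  rcases h2 with h2 | h2
  · rw [h2] at h; exact key i h
  · rw [h2] at h; exact key j h.symm

theorem exists_emb {G : SimpleGraph V} {n : ℕ} (hn : 5 ≤ n) {z : ZMod n → V}
    (hz : IndCyc G.Adj n z) : ∃ f : cycleGraph n ↪g Gᶜ,
      ∀ v, (∀ i, ¬ G.Adj v (z i)) ↔ v ∈ hubs f := by
  have c2 : (0 : ZMod n) ≠ 2 := by exact_mod_cast natCast_ne (n := n) (a := 0) (b := 2) (by omega) (by omega)
  have c3 : (0 : ZMod n) ≠ 3 := by exact_mod_cast natCast_ne (n := n) (a := 0) (b := 3) (by omega) (by omega)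
  have c1 : (0 : ZMod n) ≠ 1 := by exact_mod_cast natCast_ne (n := n) (a := 0) (b := 1) (by omega) (by omega)
  have hinj := indCyc_inj hn hz
  have hex : ∀ i, ∃ j, G.Adj (z i) (z j) := by
    intro i
    refine ⟨i + 2, (hz i (i + 2) ?_).2 ⟨?_, ?_⟩⟩
    · intro h'; apply c2; linear_combination h'
    · intro h'; apply c1; linear_combination -h'
    · intro h'; apply c3; linear_combination h'
  obtain ⟨m, rfl⟩ : ∃ m, n = m + 2 := ⟨n - 2, by omega⟩
  let z' : Fin (m + 2) → V := z
  have hadj : ∀ i j : Fin (m + 2), Gᶜ.Adj (z' i) (z' j) ↔ (cycleGraph (m + 2)).Adj i j := by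
    intro i j
    rw [cycleGraph_adj, SimpleGraph.compl_adj]
    by_cases hij : i = j
    · subst hij
      simp
    · have h1 := hz i j hij
      constructor
      · rintro ⟨_, h2⟩
        have h2' : ¬ G.Adj (z i) (z j) := h2
        rw [h1] at h2'
        by_contra hcon
        push Not at hcon
        apply h2'
        refine ⟨?_, ?_⟩
        · intro h3
          apply hcon.2
          have h3' : (j : Fin (m + 2)) = i + 1 := h3
          rw [h3']
          exact add_sub_cancel_left i 1
        · intro h3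
          apply hcon.1
          have h3' : (i : Fin (m + 2)) = j + 1 := h3
          rw [h3']
          exact add_sub_cancel_left j 1
      · intro h2
        refine ⟨fun h' => hij (hinj h'), ?_⟩
        intro h3
        have h4 := h1.1 h3
        rcases h2 with h2 | h2
        · apply h4.2
          have : (i : Fin (m + 2)) = j + 1 := by
            rw [← h2]; exact (add_sub_cancel j i).symm
          exact this
        · apply h4.1
          have : (j : Fin (m + 2)) = i + 1 := by
            rw [← h2]; exact (add_sub_cancel i j).symm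
          exact this
  let f : cycleGraph (m + 2) ↪g Gᶜ := ⟨⟨z', hinj⟩, fun {i j} => hadj i j⟩
  refine ⟨f, fun v => ⟨fun h i => ?_, fun h i => ?_⟩⟩
  · show Gᶜ.Adj v (z' i)
    rw [SimpleGraph.compl_adj]
    refine ⟨?_, h i⟩
    intro hv
    obtain ⟨j, hj⟩ := hex i
    have hv' : v = z i := hv
    exact h j (by rw [hv']; exact hj)
  · have := h i
    exact this.2

theorem hubChain_of {G : SimpleGraph V}
    (h : ∀ n n', 5 ≤ n → 5 ≤ n' → ∀ (f : cycleGraph n ↪g Gᶜ) (f' : cycleGraph n' ↪g Gᶜ),
      (hubs f).Nonempty → (hubs f').Nonempty → hubs f ⊆ hubs f' ∨ hubs f' ⊆ hubs f) :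
    HubChain G := by
  intro n hn z hz n' hn' z' hz' ⟨a, ha⟩ ⟨b, hb⟩
  obtain ⟨f, hf⟩ := exists_emb hn hz
  obtain ⟨f', hf'⟩ := exists_emb hn' hz'
  rcases h n n' hn hn' f f' ⟨a, (hf a).1 ha⟩ ⟨b, (hf' b).1 hb⟩ with h1 | h1
  · exact Or.inl (fun v hv => (hf' v).2 (h1 ((hf v).1 hv)))
  · exact Or.inr (fun v hv => (hf v).2 (h1 ((hf' v).1 hv)))

end Pool.Agent.LQ
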