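import Pool.Agent.Helper75.LQ.Stageb

/-!
# MP_e2a5d3_al : persistence when the heavy hub sets form a chain
-/

namespace Pool.Agent.LQ

open Finsupp

variable {V : Type*}

theorem wt_le_sum [Fintype V] (I : Set V) [DecidablePred (· ∈ I)] {u : V →₀ ℕ} {c : V → ℕ}
    (hu : ∀ x, u x ≤ c x) : wt I u ≤ ∑ x, if x ∈ I then c x else 0 := by
  classical
  unfold wt
  rw [Finsupp.liftAddHom_apply, Finsupp.sum_fintype _ _ (by intro x; rw [map_zero])]
  refine Finset.sum_le_sum (fun x _ => ?_)
  by_cases hx : x ∈ I
  · rw [if_pos hx, if_pos hx]; exact hu x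
  · rw [if_neg hx, if_neg hx]; exact le_rfl

theorem Fam_restrict {G : SimpleGraph V} {q : ℕ} (H : CLQ (P G q)) (c : V → ℕ) :
    CLQ (Fam G c q) := by
  refine H.restrict (fun a ha => ha.1) ?_
  rintro a ⟨_, ha⟩ b ⟨_, hb⟩ t ht b' hb' hle
  refine ⟨hb', fun x => ?_⟩
  have h1 := hle x
  simp only [Finsupp.add_apply] at h1
  by_cases hx : t = x
  · subst hx
    rw [δ_self] at h1
    have := hb t
    omega
  · rw [δ_ne hx] at h1
    have := ha x
    omega

open Classical in
/-- the weight of the hub set of `z` -/
noncomputable def hw [Fintype V] (G : SimpleGraph V) (c : V → ℕ) {n : ℕ} (z : ZMod n → V) : ℕ :=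
  ∑ x, if ∀ i, ¬ G.Adj x (z i) then c x else 0

theorem hw_mono [Fintype V] (G : SimpleGraph V) {c c' : V → ℕ} (h : ∀ x, c x ≤ c' x) {n : ℕ}
    (z : ZMod n → V) : hw G c z ≤ hw G c' z := by
  classical
  unfold hw
  refine Finset.sum_le_sum (fun x _ => ?_)
  split_ifs
  · exact h x
  · exact le_rfl

/-- `h` is a hub of all induced cycles in the support of `c` whose hub set has weight at least `q` -/
def HubW [Fintype V] (G : SimpleGraph V) (q : ℕ) (c : V → ℕ) (h : V) : Prop :=
  ∀ n, 5 ≤ n → ∀ z : ZMod n → V, (∀ i, 0 < c (z i)) → IndCyc G.Adj n z → q ≤ hw G c z →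
    ∀ i, ¬ G.Adj h (z i)

theorem clq_fam_succ [Fintype V] {G : SimpleGraph V} (hG : GF G) {q : ℕ} (hq : 1 ≤ q)
    (H : CLQ (P G q)) (c : V → ℕ)
    (hS : ∀ S : Finset V, S.Nonempty → (∀ x ∈ S, 0 < c x) →
      ∃ h ∈ S, ∀ c' : V → ℕ, (∀ x, c' x ≤ c x) → (∀ x, 0 < c' x → x ∈ S) → HubW G q c' h) :
    ∀ (N : ℕ) (S : Finset V), S.card = N → (∀ x ∈ S, 0 < c x) →
      CLQ (Fam G (fun x => open Classical in if x ∈ S then c x else 0) (q + 1)) := by
  classical
  intro N
  induction N with
  | zero =>
      intro S hcard _
      rw [Finset.card_eq_zero] at hcard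
      subst hcard
      convert clq_empty (V := V) using 1
      rw [Set.eq_empty_iff_forall_notMem]
      rintro a ⟨ha, hv⟩
      have h1 : a = 0 := by
        ext v
        have := hv v
        rw [Finsupp.zero_apply]
        simpa using this
      have h2 := degree_of_mem_P ha
      rw [h1] at h2
      simp at h2
  | succ N ih =>
      intro S hcard hpos
      obtain ⟨h, hhS, hub⟩ := hS S (Finset.card_pos.1 (by omega)) hpos
      have hk : ∀ k, k ≤ c h →
          CLQ (Fam G (fun x => if x ∈ S.erase h then c x else if x = h then k else 0) (q + 1)) := by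
        intro k
        induction k with
        | zero =>
            intro _
            have := ih (S.erase h) (by rw [Finset.card_erase_of_mem hhS, hcard]; rfl)
              (fun x hx => hpos x (Finset.mem_of_mem_erase hx))
            convert this using 2
            funext x
            by_cases hx : x ∈ S.erase h
            · simp only [hx, if_true]
            · simp only [hx, if_false, ite_self]
        | succ k ihk =>
            intro hkc
            refine stageb hG (h := h) ?_ ?_ hq ?_ (ihk (by omega)) (Fam_restrict H _)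
            · intro x hx
              by_cases hxS : x ∈ S.erase h
              · simp only [hxS, if_true]
              · simp only [hxS, if_false, hx]
            · have : h ∉ S.erase h := Finset.notMem_erase h S
              simp only [this, if_false, if_true]
            · intro n hn z hz hI hex
              have hc'le : ∀ x, (if x ∈ S.erase h then c x else if x = h then k + 1 else 0) ≤ c x := by
                intro x
                by_cases hxS : x ∈ S.erase h
                · simp only [hxS, if_true]; exact le_rfl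
                · by_cases hx : x = h
                  · rw [if_neg hxS, if_pos hx, hx]; exact hkc
                  · simp only [hxS, if_false, hx]; exact Nat.zero_le _
              refine hub _ hc'le ?_ n hn z hz hI ?_
              · intro x hx
                by_cases hxS : x ∈ S.erase h
                · exact Finset.mem_of_mem_erase hxS
                · by_cases hxh : x = h
                  · rw [hxh]; exact hhS
                  · simp only [hxS, if_false, hxh] at hx
                    omega
              · obtain ⟨u, hu, hle⟩ := hex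
                refine hle.trans ((wt_le_sum {v | ∀ i, ¬ G.Adj v (z i)} hu.2).trans ?_)
                unfold hw
                refine Finset.sum_le_sum (fun x _ => ?_)
                by_cases hxz : ∀ i, ¬ G.Adj x (z i)
                · rw [if_pos hxz]
                  simp only [Set.mem_ofPred_eq]
                  rw [if_pos hxz]
                  by_cases hxS : x ∈ S.erase h
                  · simp only [hxS, if_true]; exact le_rfl
                  · by_cases hxh : x = h
                    · simp only [hxS, if_false, hxh, if_true]; split_ifs <;> omega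
                    · simp only [hxS, if_false, hxh]; exact le_rfl
                · rw [if_neg hxz]
                  simp only [Set.mem_ofPred_eq]
                  rw [if_neg hxz]
      convert hk (c h) le_rfl using 2
      funext x
      by_cases hx : x = h
      · rw [hx]
        simp only [hhS, if_true, Finset.notMem_erase, if_false]
      · by_cases hxS : x ∈ S
        · simp only [hxS, if_true, Finset.mem_erase, ne_eq, hx, not_false_eq_true, true_and]
        · simp only [hxS, if_false, Finset.mem_erase, ne_eq, hx, not_false_eq_true, true_and]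

/-- the chain condition for the hub sets of weight at least `q` -/
def HeavyChain [Fintype V] (G : SimpleGraph V) (q : ℕ) (c : V → ℕ) : Prop :=
  ∀ n, 5 ≤ n → ∀ z : ZMod n → V, IndCyc G.Adj n z →
  ∀ n', 5 ≤ n' → ∀ z' : ZMod n' → V, IndCyc G.Adj n' z' →
    q ≤ hw G c z → q ≤ hw G c z' →
    (∀ h, (∀ i, ¬ G.Adj h (z i)) → ∀ i, ¬ G.Adj h (z' i)) ∨
    (∀ h, (∀ i, ¬ G.Adj h (z' i)) → ∀ i, ¬ G.Adj h (z i))

theorem exists_hubW [Fintype V] {G : SimpleGraph V} {q : ℕ} (hq : 1 ≤ q) {c : V → ℕ}
    (hc : HeavyChain G q c) (S : Finset V) (hS : S.Nonempty) :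
    ∃ h ∈ S, ∀ c' : V → ℕ, (∀ x, c' x ≤ c x) → (∀ x, 0 < c' x → x ∈ S) → HubW G q c' h := by
  classical
  let 𝓗 : Set (Finset V) := {A | ∃ n, 5 ≤ n ∧ ∃ z : ZMod n → V,
    IndCyc G.Adj n z ∧ (∃ c' : V → ℕ, (∀ x, c' x ≤ c x) ∧ (∀ x, 0 < c' x → x ∈ S) ∧
      q ≤ hw G c' z) ∧ A = S.filter (fun h => ∀ i, ¬ G.Adj h (z i))}
  by_cases hne : 𝓗.Nonempty
  · obtain ⟨A, hA, hmin⟩ := WellFounded.has_min (InvImage.wf Finset.card Nat.lt_wfRel.wf) 𝓗 hne
    obtain ⟨n, hn, z, hz, ⟨c1, hc1, hc1S, hq1⟩, hAeq⟩ := hA
    have hAne : A.Nonempty := by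
      by_contra hcon
      rw [Finset.not_nonempty_iff_eq_empty] at hcon
      have : hw G c1 z = 0 := by
        unfold hw
        refine Finset.sum_eq_zero (fun x _ => ?_)
        by_cases hx : ∀ i, ¬ G.Adj x (z i)
        · rw [if_pos hx]
          by_contra hx0
          have hxS : x ∈ S := hc1S x (by omega)
          have : x ∈ A := by rw [hAeq, Finset.mem_filter]; exact ⟨hxS, hx⟩
          rw [hcon] at this
          simp at this
        · rw [if_neg hx]
      omega
    obtain ⟨h, hh⟩ := hAne
    have hh' := hh
    rw [hAeq, Finset.mem_filter] at hh'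
    refine ⟨h, hh'.1, ?_⟩
    intro c' hc' hc'S n' hn' z' hzc' hz' hq'
    rcases hc n hn z hz n' hn' z' hz' (hq1.trans (hw_mono G hc1 z))
      (hq'.trans (hw_mono G hc' z')) with h1 | h1
    · exact h1 h hh'.2
    · set A' := S.filter (fun h => ∀ i, ¬ G.Adj h (z' i)) with hA'
      have hsub : A' ⊆ A := by
        intro x hx
        rw [hA', Finset.mem_filter] at hx
        rw [hAeq, Finset.mem_filter]
        exact ⟨hx.1, h1 x hx.2⟩
      have hA'𝓗 : A' ∈ 𝓗 := ⟨n', hn', z', hz', ⟨c', hc', hc'S, hq'⟩, rfl⟩
      have hcard : A.card ≤ A'.card := not_lt.1 (hmin A' hA'𝓗)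
      have heq : A' = A := Finset.eq_of_subset_of_card_le hsub hcard
      rw [← heq, hA', Finset.mem_filter] at hh
      exact hh.2
  · obtain ⟨h, hh⟩ := hS
    refine ⟨h, hh, ?_⟩
    intro c' hc' hc'S n hn z hzc hz hq'
    exfalso
    exact hne ⟨_, n, hn, z, hz, ⟨c', hc', hc'S, hq'⟩, rfl⟩

/-- persistence from `q` if the heavy hub sets form a chain -/
theorem clq_persist_heavy [Fintype V] {G : SimpleGraph V} {c : V → ℕ}
    (hk : ∀ v, ∀ I : Finset V, (∀ x ∈ I, G.Adj v x) → (∀ x ∈ I, ∀ y ∈ I, ¬ G.Adj x y) →
      I.card ≤ c v + 1) {q : ℕ} (hq : 1 ≤ q) (hc : HeavyChain G q c) (H : CLQ (P G q)) :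
    ∀ s, q ≤ s → CLQ (P G s) := by
  classical
  have hG := gf_of_clq hq H
  intro s hs
  induction s, hs using Nat.le_induction with
  | base => exact H
  | succ s hs ih =>
      have hs1 : 1 ≤ s := hq.trans hs
      have hcs : HeavyChain G s c := by
        intro n hn z hz n' hn' z' hz' h1 h2
        exact hc n hn z hz n' hn' z' hz' (hs.trans h1) (hs.trans h2)
      refine clq_of_fam hG hk (by omega) ?_
      have := clq_fam_succ hG hs1 ih c (fun S hS _ => exists_hubW hs1 hcs S hS) _
        (Finset.univ.filter (fun x => 0 < c x)) rfl (by simp)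
      convert this using 2
      funext x
      by_cases hx : 0 < c x
      · simp [hx]
      · have : c x = 0 := by omega
        simp [this]

end Pool.Agent.LQ
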