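import Pool.Agent.Helper75.LQ.TW2
import Pool.Agent.Helper75.LQ.Main

/-!
# MP_e2a5d3_al : raising all multiplicities
-/

namespace Pool.Agent.LQ

open Finsupp

variable {V : Type*}

theorem Fam_finite [Finite V] (G : SimpleGraph V) (c : V → ℕ) (m : ℕ) : (Fam G c m).Finite := by
  classical
  cases nonempty_fintype V
  refine (F_finite G Finset.univ · m (2 * m)) |> fun h => ?_
  by_cases hV : Nonempty V
  · obtain ⟨x⟩ := hV
    refine (h x).subset ?_
    rintro a ⟨ha, _⟩
    refine ⟨ha, fun v _ => by simp, ?_⟩
    rw [← degree_of_mem_P ha]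
    exact Finsupp.le_degree x a
  · rw [not_nonempty_iff] at hV
    exact Set.toFinite _

/-- Raising the bound of the multiplicity of `v` by one, if the neighbourhood of `v` has no
independent set with more than `c v + 1` elements. -/
theorem tw_step [Finite V] {G : SimpleGraph V} (hG : GF G) {v : V} {c : V → ℕ}
    (hk : ∀ I : Finset V, (∀ x ∈ I, G.Adj v x) → (∀ x ∈ I, ∀ y ∈ I, ¬ G.Adj x y) →
      I.card ≤ c v + 1) {c' : V → ℕ} (hc' : ∀ x, x ≠ v → c' x = c x) (hcv : c' v = c v + 1)
    {q : ℕ} (H : CLQ (Fam G c (q + 1))) : CLQ (Fam G c' (q + 1)) := by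
  classical
  cases nonempty_fintype V
  let e := Fintype.equivFin V
  let g : V → ℕ := fun x => if x ≠ v ∧ ¬ G.Adj v x then (e x : ℕ) else Fintype.card V + e x
  have hg : Function.Injective g := by
    intro x y hxy
    have hx := (e x).2
    have hy := (e y).2
    by_cases h1 : x ≠ v ∧ ¬ G.Adj v x
    · by_cases h2 : y ≠ v ∧ ¬ G.Adj v y
      · simp only [g, if_pos h1, if_pos h2] at hxy
        exact e.injective (Fin.ext hxy)
      · simp only [g, if_pos h1, if_neg h2] at hxy
        omega
    · by_cases h2 : y ≠ v ∧ ¬ G.Adj v y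
      · simp only [g, if_neg h1, if_pos h2] at hxy
        omega
      · simp only [g, if_neg h1, if_neg h2] at hxy
        exact e.injective (Fin.ext (by omega))
  let : LinearOrder V := LinearOrder.lift' g hg
  have hlt : ∀ x y : V, x < y ↔ g x < g y := fun x y => Iff.rfl
  let ℓ : (V →₀ ℕ) →+ Lex (V →₀ ℕ) :=
    { toFun := toLex, map_zero' := rfl, map_add' := fun _ _ => rfl }
  refine tw (Γ := Lex (V →₀ ℕ)) hG ℓ toLex.injective ?_ hk hc' hcv (Fam_finite G c' (q + 1)) H
  intro x y hx h1 h2
  show toLex (single y 1) < toLex (single x 1)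
  rw [Lex.single_lt_iff, hlt]
  have h3 : ¬ (y ≠ v ∧ ¬ G.Adj v y) := fun h' => h'.2 h2
  simp only [g, if_pos (show x ≠ v ∧ ¬ G.Adj v x from ⟨hx, h1⟩), if_neg h3]
  have := (e x).2
  omega

/-- It is enough to have linear quotients for the elements with bounded multiplicities `c v`,
where `c v + 1` is at least the independence number of the neighbourhood of `v`. -/
theorem clq_of_fam [Finite V] {G : SimpleGraph V} (hG : GF G) {c : V → ℕ}
    (hk : ∀ v, ∀ I : Finset V, (∀ x ∈ I, G.Adj v x) → (∀ x ∈ I, ∀ y ∈ I, ¬ G.Adj x y) →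
      I.card ≤ c v + 1) {q : ℕ} (hq : 1 ≤ q) (H : CLQ (Fam G c q)) : CLQ (P G q) := by
  classical
  cases nonempty_fintype V
  obtain ⟨q, rfl⟩ : ∃ q', q = q' + 1 := ⟨q - 1, by omega⟩
  -- raise one vertex
  have h1 : ∀ (c : V → ℕ), (∀ v, ∀ I : Finset V, (∀ x ∈ I, G.Adj v x) →
      (∀ x ∈ I, ∀ y ∈ I, ¬ G.Adj x y) → I.card ≤ c v + 1) → CLQ (Fam G c (q + 1)) →
      ∀ v n, CLQ (Fam G (Function.update c v (c v + n)) (q + 1)) := by
    intro c hk H v n
    induction n with
    | zero => rw [add_zero, Function.update_eq_self]; exact H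
    | succ n ih =>
        refine tw_step hG (v := v) (c := Function.update c v (c v + n)) ?_ ?_ ?_ ih
        · intro I h1 h2
          rw [Function.update_self]
          have := hk v I h1 h2
          omega
        · intro x hx
          rw [Function.update_of_ne hx, Function.update_of_ne hx]
        · rw [Function.update_self, Function.update_self]; ring
  -- raise all vertices of a set
  have h2 : ∀ S : Finset V, CLQ (Fam G (fun x => if x ∈ S then c x + 2 * (q + 1) else c x)
      (q + 1)) := by
    intro S
    induction S using Finset.induction_on with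
    | empty => simpa using H
    | insert v S hv ih =>
        have h3 := h1 _ (fun w I h4 h5 => by
          have := hk w I h4 h5
          split_ifs <;> omega) ih v (2 * (q + 1))
        convert h3 using 2
        funext x
        by_cases hx : x = v
        · subst hx
          rw [Function.update_self, if_pos (Finset.mem_insert_self _ _), if_neg hv]
        · rw [Function.update_of_ne hx]
          by_cases hxS : x ∈ S
          · rw [if_pos (Finset.mem_insert_of_mem hxS), if_pos hxS]
          · rw [if_neg (by
              rw [Finset.mem_insert]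
              rintro (h' | h')
              · exact hx h'
              · exact hxS h'), if_neg hxS]
  convert h2 Finset.univ using 1
  ext a
  constructor
  · intro ha
    refine ⟨ha, fun x => ?_⟩
    show a x ≤ if x ∈ Finset.univ then c x + 2 * (q + 1) else c x
    rw [if_pos (Finset.mem_univ x)]
    have h3 := Finsupp.le_degree x a
    rw [degree_of_mem_P ha] at h3
    omega
  · exact fun ha => ha.1

/-- Linear quotients of all large powers of the edge ideal of a gapfree graph. -/
theorem clq_large [Fintype V] {G : SimpleGraph V} (hG : GF G) {c : V → ℕ}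
    (hk : ∀ v, ∀ I : Finset V, (∀ x ∈ I, G.Adj v x) → (∀ x ∈ I, ∀ y ∈ I, ¬ G.Adj x y) →
      I.card ≤ c v + 1) {q : ℕ} (hq : ∑ v, c v < 2 * q) : CLQ (P G q) := by
  have h0 : 1 ≤ q := by
    by_contra hcon
    have : q = 0 := by omega
    rw [this] at hq
    omega
  refine clq_of_fam hG hk h0 ?_
  convert clq_empty (V := V) using 1
  rw [Set.eq_empty_iff_forall_notMem]
  rintro a ⟨ha, hac⟩
  have h1 := degree_of_mem_P ha
  rw [Finsupp.degree_eq_sum] at h1
  have h2 : ∑ v, a v ≤ ∑ v, c v := Finset.sum_le_sum (fun v _ => hac v)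
  omega

end Pool.Agent.LQ
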