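import Pool.Agent.Helper75.LQ.Chord

/-!
# MP_e2a5d3_al : linear quotients by rank functions
-/

namespace Pool.Agent.LQ

open Finsupp

variable {V : Type*}

/-- the linear quotients condition for a rank function with values in a linear order -/
def RankLQ {β : Type*} [LinearOrder β] (E : Set (V →₀ ℕ)) (r : (V →₀ ℕ) → β) : Prop :=
  Set.InjOn r E ∧ ∀ a ∈ E, ∀ b ∈ E, r b < r a →
    ∃ t, a t < b t ∧ ∃ b' ∈ E, r b' < r a ∧ b' ≤ a + δ t

theorem CLQ.finite {E : Set (V →₀ ℕ)} (h : CLQ E) : E.Finite := by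
  classical
  obtain ⟨l, _, hl, _⟩ := h
  refine (l.toFinset.finite_toSet).subset (fun u hu => ?_)
  rw [Finset.mem_coe, List.mem_toFinset]
  exact (hl u).2 hu

theorem CLQ.rank {E : Set (V →₀ ℕ)} (h : CLQ E) : ∃ r : (V →₀ ℕ) → ℕ, RankLQ E r := by
  classical
  obtain ⟨l, hnd, hl, hq⟩ := h
  refine ⟨fun u => l.idxOf u, ?_, ?_⟩
  · intro a ha b hb hab
    have ha' := (hl a).2 ha
    exact (List.idxOf_inj ha').1 hab
  · intro a ha b hb hab
    have ha' := (hl a).2 ha
    have hb' := (hl b).2 hb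
    have hi : l.idxOf a < l.length := List.idxOf_lt_length_iff.2 ha'
    have hj : l.idxOf b < l.length := List.idxOf_lt_length_iff.2 hb'
    obtain ⟨t, ht, b', hb'', hle⟩ := hq (l.idxOf a) hi b (by
      rw [List.mem_take_iff_getElem]
      exact ⟨l.idxOf b, by simp only [lt_min_iff]; exact ⟨hab, hj⟩, List.getElem_idxOf hj⟩)
    rw [List.getElem_idxOf hi] at ht hle
    rw [List.mem_take_iff_getElem] at hb''
    obtain ⟨k, hk, hkb⟩ := hb''
    rw [lt_min_iff] at hk
    have hkm : b' ∈ l := by rw [← hkb]; exact List.getElem_mem _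
    refine ⟨t, ht, b', (hl b').1 hkm, ?_, hle⟩
    have : l.idxOf b' = k := by
      rw [← hkb]
      exact hnd.idxOf_getElem k hk.2
    show l.idxOf b' < l.idxOf a
    rw [this]; exact hk.1

theorem CLQ_of_rank {β : Type*} [LinearOrder β] {E : Set (V →₀ ℕ)} (hE : E.Finite)
    {r : (V →₀ ℕ) → β} (h : RankLQ E r) : CLQ E := by
  classical
  obtain ⟨hinj, hr⟩ := h
  set F := hE.toFinset with hF
  have hFm : ∀ u, u ∈ F ↔ u ∈ E := fun u => by rw [hF, Set.Finite.mem_toFinset]
  set s := (F.image r).sort (· ≤ ·) with hs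
  have hsm : ∀ x, x ∈ s ↔ ∃ u ∈ E, r u = x := by
    intro x
    rw [hs, Finset.mem_sort, Finset.mem_image]
    simp only [hFm]
  have hch : ∀ x : β, ∃ u : V →₀ ℕ, x ∈ s → (u ∈ E ∧ r u = x) := by
    intro x
    by_cases hx : x ∈ s
    · obtain ⟨u, hu⟩ := (hsm x).1 hx
      exact ⟨u, fun _ => hu⟩
    · exact ⟨0, fun h' => absurd h' hx⟩
  choose g hg using hch
  have hss : s.Pairwise (· < ·) := by
    rw [hs]; exact (Finset.sortedLT_sort _).pairwise
  have hmemtake : ∀ (i : ℕ) (hi : i < (s.map g).length) (b : V →₀ ℕ), b ∈ (s.map g).take i ↔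
      (b ∈ E ∧ r b < s[i]'(by simpa using hi)) := by
    intro i hi b
    have hi' : i < s.length := by simpa using hi
    rw [List.mem_take_iff_getElem]
    constructor
    · rintro ⟨j, hj, rfl⟩
      rw [lt_min_iff] at hj
      have hj' : j < s.length := by simpa using hj.2
      rw [List.getElem_map]
      obtain ⟨h1, h2⟩ := hg s[j] (List.getElem_mem _)
      refine ⟨h1, ?_⟩
      rw [h2]
      exact List.pairwise_iff_getElem.1 hss j i hj' hi' hj.1
    · rintro ⟨hb, hlt⟩
      obtain ⟨j, hj, hjb⟩ := List.getElem_of_mem ((hsm (r b)).2 ⟨b, hb, rfl⟩)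
      have hji : j < i := by
        by_contra hcon
        push Not at hcon
        rcases hcon.lt_or_eq with h1 | h1
        · have := List.pairwise_iff_getElem.1 hss i j hi' hj h1
          rw [hjb] at this
          exact absurd this (not_lt.2 hlt.le)
        · subst h1
          rw [hjb] at hlt
          exact lt_irrefl _ hlt
      refine ⟨j, by rw [lt_min_iff]; exact ⟨hji, by simpa using hj⟩, ?_⟩
      rw [List.getElem_map, hjb]
      obtain ⟨h1, h2⟩ := hg (r b) (by rw [← hjb]; exact List.getElem_mem _)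
      exact hinj h1 hb h2
  refine ⟨s.map g, ?_, ?_, ?_⟩
  · rw [List.nodup_map_iff_inj_on]
    · intro x hx y hy hxy
      rw [← (hg x hx).2, ← (hg y hy).2, hxy]
    · exact hss.imp (fun h' => ne_of_lt h')
  · intro u
    rw [List.mem_map]
    constructor
    · rintro ⟨x, hx, rfl⟩
      exact (hg x hx).1
    · intro hu
      have hx := (hsm (r u)).2 ⟨u, hu, rfl⟩
      exact ⟨r u, hx, hinj (hg _ hx).1 hu (hg _ hx).2⟩
  · intro i hi b hb
    have hi' : i < s.length := by simpa using hi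
    obtain ⟨h1, h2⟩ := hg s[i] (List.getElem_mem _)
    rw [hmemtake i hi] at hb
    have hgi : (s.map g)[i] = g s[i] := List.getElem_map _
    obtain ⟨t, ht, b', hb', hlt, hle⟩ := hr (g s[i]) h1 b hb.1 (by rw [h2]; exact hb.2)
    rw [hgi]
    refine ⟨t, ht, b', ?_, hle⟩
    rw [hmemtake i hi]
    exact ⟨hb', by rw [← h2]; exact hlt⟩

/-- restriction of linear quotients -/
theorem CLQ.restrict {E E' : Set (V →₀ ℕ)} (h : CLQ E) (hsub : E' ⊆ E)
    (hcl : ∀ a ∈ E', ∀ b ∈ E', ∀ t, a t < b t → ∀ b' ∈ E, b' ≤ a + δ t → b' ∈ E') : CLQ E' := by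
  obtain ⟨r, hinj, hr⟩ := h.rank
  refine CLQ_of_rank (h.finite.subset hsub) (r := r) ⟨hinj.mono hsub, ?_⟩
  intro a ha b hb hlt
  obtain ⟨t, ht, b', hb', h1, h2⟩ := hr a (hsub ha) b (hsub hb) hlt
  exact ⟨t, ht, b', hcl a ha b hb t ht b' hb' h2, h1, h2⟩

/-- elements of `P G m` with support in `S` and `h`-degree at most `k` -/
def F (G : SimpleGraph V) (S : Set V) (h : V) (m k : ℕ) : Set (V →₀ ℕ) :=
  {a | a ∈ P G m ∧ (∀ v, 0 < a v → v ∈ S) ∧ a h ≤ k}

theorem F_restrict {G : SimpleGraph V} {m : ℕ} (h : CLQ (P G m)) (S : Set V) (x : V) (k : ℕ) :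
    CLQ (F G S x m k) := by
  refine h.restrict (fun a ha => ha.1) ?_
  rintro a ⟨_, ha1, ha2⟩ b ⟨_, hb1, hb2⟩ t ht b' hb' hle
  refine ⟨hb', ?_, ?_⟩
  · intro v hv
    have h1 := hle v
    simp only [Finsupp.add_apply] at h1
    by_cases h2 : 0 < a v
    · exact ha1 v h2
    · have h3 : t = v := δ_pos (by omega)
      subst h3
      exact hb1 t (by omega)
  · have h1 := hle x
    simp only [Finsupp.add_apply] at h1
    by_cases h2 : t = x
    · subst h2
      rw [δ_self] at h1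
      omega
    · rw [δ_ne h2] at h1
      omega

end Pool.Agent.LQ
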