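import Pool.Agent.Helper75.LQ.Raise

/-!
# MP_e2a5d3_al : adding the elements of the next multiplicity of `h` in bounded families
-/

namespace Pool.Agent.LQ

open Finsupp

variable {V : Type*}

theorem stageb [Finite V] {G : SimpleGraph V} (hG : GF G) {h : V} {c c' : V → ℕ}
    (hcx : ∀ x, x ≠ h → c' x = c x) (hch : c' h = c h + 1) {q : ℕ} (hq : 1 ≤ q)
    (hub : ∀ n, 5 ≤ n → ∀ z : ZMod n → V, (∀ i, 0 < c' (z i)) → IndCyc G.Adj n z →
      (∃ u ∈ Fam G c q, q ≤ wt {v | ∀ i, ¬ G.Adj v (z i)} u) → ∀ i, ¬ G.Adj h (z i))
    (H1 : CLQ (Fam G c (q + 1))) (H0 : CLQ (Fam G c q)) : CLQ (Fam G c' (q + 1)) := by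
  classical
  cases nonempty_fintype V
  obtain ⟨k, hkc⟩ : ∃ k, k = c h := ⟨_, rfl⟩
  rw [← hkc] at hch
  have hcc : ∀ x, c x ≤ c' x := by
    intro x
    by_cases hx : x = h
    · rw [hx, hch, hkc]; omega
    · rw [hcx x hx]
  let S : Finset V := Finset.univ.filter (fun x => 0 < c' x)
  have hSm : ∀ x, x ∈ S ↔ 0 < c' x := fun x => by simp [S]
  have hhS : h ∈ S := by rw [hSm]; omega
  obtain ⟨r1, hinj1, hr1⟩ := H1.rank
  obtain ⟨r0, hinj0, hr0⟩ := H0.rank
  set E : Set (V →₀ ℕ) := Fam G c' (q + 1) with hE
  set E0 : Set (V →₀ ℕ) := Fam G c q with hE0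
  set E1 : Set (V →₀ ℕ) := Fam G c (q + 1) with hE1
  have hE1E : ∀ a ∈ E, a h ≤ k → a ∈ E1 := by
    intro a ha h'
    refine ⟨ha.1, fun x => ?_⟩
    by_cases hx : x = h
    · rw [hx, ← hkc]; exact h'
    · rw [← hcx x hx]; exact ha.2 x
  have hEE : ∀ a ∈ E1, a ∈ E := fun a ha => ⟨ha.1, fun x => (ha.2 x).trans (hcc x)⟩
  have hES : ∀ a ∈ E, ∀ v, 0 < a v → v ∈ S := by
    intro a ha v hv
    rw [hSm]
    exact lt_of_lt_of_le hv (ha.2 v)
  have hE0S : ∀ a ∈ E0, ∀ v, 0 < a v → v ∈ S := by
    intro a ha v hv
    rw [hSm]
    exact lt_of_lt_of_le hv ((ha.2 v).trans (hcc v))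
  have hEh : ∀ a ∈ E, a h ≤ k + 1 := fun a ha => by rw [← hch]; exact ha.2 h
  have hE1h : ∀ a ∈ E1, a h ≤ k := fun a ha => by rw [hkc]; exact ha.2 h
  have hE0h : ∀ a ∈ E0, a h ≤ k := fun a ha => by rw [hkc]; exact ha.2 h
  -- positions in the blocks
  let T : (V →₀ ℕ) → Finset V := fun u =>
    (S.erase h).filter (fun t => ∀ u' ∈ E0, r0 u' < r0 u → ¬ u' ≤ u + δ t)
  have hpos : ∀ u, ∃ pos : V → ℕ, u ∈ E0 →
      (∀ x ∈ T u, ∀ y ∈ T u, EC G q u h x → EC G q u h y → pos x = pos y → x = y) ∧
      ∀ x ∈ T u, EC G q u h x → ∀ t ∈ T u, ∀ t' ∈ T u, EC G q u t t' →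
        EC G q u x t ∨ EC G q u x t' ∨ (EC G q u h t ∧ pos t < pos x) ∨
          (EC G q u h t' ∧ pos t' < pos x) := by
    intro u
    by_cases hu : u ∈ E0
    · obtain ⟨pos, h1, h2⟩ := elim_order (R := EC G q u) (fun x y h' => h'.symm)
        (fun x y x' y' h1 h2 => ec_c4 hG h1 h2) (h := h) (T u).card (T u) rfl (by
          intro h'
          rw [Finset.mem_filter] at h'
          exact (Finset.notMem_erase h S) h'.1) (by
          intro n hn z hz hI i
          obtain ⟨h1, h2⟩ := indCyc_hub hG hn q u hu.1 hI
          have := hub n hn z (fun i => by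
            rcases hz i with h' | h'
            · exact (hSm _).1 (Finset.mem_of_mem_erase (Finset.mem_filter.1 h').1)
            · rw [h']; omega) h1 ⟨u, hu, h2⟩
          exact not_ec_hub hG hn hu.1 hI this i)
      exact ⟨pos, fun _ => ⟨h1, h2⟩⟩
    · exact ⟨fun _ => 0, fun h' => absurd h' hu⟩
  choose pos hposp using hpos
  -- divisors
  have hdiv : ∀ a ∈ E, a h = k + 1 → ∃ u ∈ E0, ∃ x, a = u + δ h + δ x := by
    intro a ha hk
    obtain ⟨x, u, hx, hu, e⟩ := split_at ha.1 (x := h) (by omega)
    refine ⟨u, ⟨hu, fun y => ?_⟩, x, by rw [← e]⟩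
    by_cases hy : y = h
    · have := pw e h
      simp only [Finsupp.add_apply, δ_self, δ_ne hx.ne'] at this
      rw [hy, ← hkc]
      omega
    · have := pw e y
      simp only [Finsupp.add_apply] at this
      have h2 := ha.2 y
      rw [hcx y hy] at h2
      omega
  have hmin : ∀ a, ∃ (u : V →₀ ℕ) (x : V), a ∈ E → a h = k + 1 → (u ∈ E0 ∧ a = u + δ h + δ x ∧
      ∀ u' ∈ E0, ∀ x', a = u' + δ h + δ x' → r0 u ≤ r0 u') := by
    intro a
    by_cases hc : a ∈ E ∧ a h = k + 1
    · obtain ⟨u, hu, x, e⟩ := hdiv a hc.1 hc.2
      obtain ⟨u, hu, hm⟩ := WellFounded.has_min (InvImage.wf r0 Nat.lt_wfRel.wf)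
        {u | u ∈ E0 ∧ ∃ x, a = u + δ h + δ x} ⟨u, hu, x, e⟩
      obtain ⟨hu0, x, e⟩ := hu
      refine ⟨u, x, fun _ _ => ⟨hu0, e, fun u' hu' x' e' => ?_⟩⟩
      exact not_lt.1 (hm u' ⟨hu', x', e'⟩)
    · exact ⟨0, h, fun h1 h2 => absurd ⟨h1, h2⟩ hc⟩
  choose ua xa hmin using hmin
  -- the rank function
  let r : (V →₀ ℕ) → ℕ ×ₗ (ℕ ×ₗ ℕ) := fun a =>
    if a h ≤ k then toLex (0, toLex (r1 a, 0)) else
      toLex (1, toLex (r0 (ua a), pos (ua a) (xa a)))
  have hrlo : ∀ a, a h ≤ k → r a = toLex (0, toLex (r1 a, 0)) := fun a h' => if_pos h'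
  have hrhi : ∀ a, a h = k + 1 → r a = toLex (1, toLex (r0 (ua a), pos (ua a) (xa a))) :=
    fun a h' => if_neg (by omega)
  -- facts about the first divisor
  have hEC : ∀ a ∈ E, a h = k + 1 → EC G q (ua a) h (xa a) := by
    intro a ha hk
    obtain ⟨_, e, _⟩ := hmin a ha hk
    exact ec_of ha.1 e
  have hM : ∀ a ∈ E, a h = k + 1 → ∀ u' ∈ E0, r0 u' < r0 (ua a) → ¬ u' ≤ ua a + δ (xa a) := by
    intro a ha hk u' hu' hlt hle
    obtain ⟨hu, e, hm⟩ := hmin a ha hk
    obtain ⟨s, hs⟩ := exists_single_of_le hu.1 hu'.1 hle
    have := hm u' hu' s (by rw [e]; (refine Finsupp.ext (fun fsv => ?_); have fsh0 := DFunLike.congr_fun (hs) fsv; simp only [Finsupp.add_apply] at *; omega))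
    omega
  have hT : ∀ a ∈ E, a h = k + 1 → xa a ≠ h → xa a ∈ T (ua a) := by
    intro a ha hk hx
    refine Finset.mem_filter.2 ⟨Finset.mem_erase.2 ⟨hx, ?_⟩, hM a ha hk⟩
    obtain ⟨hu, e, hm⟩ := hmin a ha hk
    apply hES a ha
    have := pw e (xa a)
    simp only [Finsupp.add_apply, δ_self] at this
    omega
  have huk : ∀ a ∈ E, a h = k + 1 → (xa a ≠ h → ua a h = k) := by
    intro a ha hk hx
    obtain ⟨hu, e, hm⟩ := hmin a ha hk
    have := pw e h
    simp only [Finsupp.add_apply, δ_self, δ_ne hx] at this
    omega
  have huk' : ∀ a ∈ E, a h = k + 1 → (xa a = h → ua a h + 1 = k) := by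
    intro a ha hk hx
    obtain ⟨hu, e, hm⟩ := hmin a ha hk
    have := pw e h
    rw [hx] at this
    simp only [Finsupp.add_apply, δ_self] at this
    omega
  -- elements of smaller rank
  have hlow : ∀ a ∈ E, a h = k + 1 → ∀ X' ∈ P G (q + 1), ∀ z, a z < c' z → z ≠ h →
      X' ≤ a + δ z → (X' h ≤ k ∨ ∃ u' ∈ E0, r0 u' < r0 (ua a) ∧ ∃ x', X' = u' + δ h + δ x') →
      X' ∈ E ∧ r X' < r a := by
    intro a ha hk X' hX' z hz hzh hle hor
    have hX'E : X' ∈ E := by
      refine ⟨hX', fun v => ?_⟩
      have h1 := hle v
      simp only [Finsupp.add_apply] at h1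
      by_cases h2 : z = v
      · rw [h2, δ_self] at h1
        rw [h2] at hz
        omega
      · rw [δ_ne h2] at h1
        have := ha.2 v
        omega
    refine ⟨hX'E, ?_⟩
    by_cases hk' : X' h ≤ k
    · rw [hrlo X' hk', hrhi a hk, lex3_lt]
      exact Or.inl (by omega)
    · have hk'' : X' h = k + 1 := by have := hEh X' hX'E; omega
      rcases hor with h' | ⟨u', hu', hlt, x', e'⟩
      · exact absurd h' hk'
      · rw [hrhi X' hk'', hrhi a hk, lex3_lt]
        right
        refine ⟨rfl, Or.inl ?_⟩
        obtain ⟨_, _, hm⟩ := hmin X' hX'E hk''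
        exact lt_of_le_of_lt (hm u' hu' x' e') hlt
  -- the exchange for a variable which is not in `M`
  have hexch : ∀ a ∈ E, a h = k + 1 → ∀ z, a z < c' z → z ≠ h → ∀ u' ∈ E0, r0 u' < r0 (ua a) →
      u' ≤ ua a + δ z → ∃ b' ∈ E, r b' < r a ∧ b' ≤ a + δ z := by
    intro a ha hk z hzc hzh u' hu' hlt hle
    obtain ⟨hu, e, hm⟩ := hmin a ha hk
    obtain ⟨s, hs⟩ := exists_single_of_le hu.1 hu'.1 hle
    have hzs : z ≠ s := by
      rintro rfl
      have : u' = ua a := by (refine Finsupp.ext (fun fsv => ?_); have fsh0 := DFunLike.congr_fun (hs) fsv; simp only [Finsupp.add_apply] at *; omega)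
      rw [this] at hlt
      exact lt_irrefl _ hlt
    have hzx : z ≠ xa a := by
      intro h'
      exact hM a ha hk u' hu' hlt (by rw [← h']; exact hle)
    obtain ⟨X', hX', w, hw, e1⟩ := block_exch (hEC a ha hk) hu'.1 hs hzs hzh hzx
    have e2 : X' + δ w = a + δ z := by rw [e1]; (refine Finsupp.ext (fun fsv => ?_); have fsh0 := DFunLike.congr_fun (e) fsv; simp only [Finsupp.add_apply] at *; omega)
    have hle' : X' ≤ a + δ z := by rw [← e2]; exact le_self_add
    have hor : X' h ≤ k ∨ ∃ u' ∈ E0, r0 u' < r0 (ua a) ∧ ∃ x', X' = u' + δ h + δ x' := by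
      rcases hw with rfl | rfl | rfl
      · left
        have := pw e2 w
        simp only [Finsupp.add_apply, δ_self, δ_ne hzh] at this
        omega
      · right
        refine ⟨u', hu', hlt, s, ?_⟩
        (refine Finsupp.ext (fun fsv => ?_); have fsh0 := DFunLike.congr_fun (e1) fsv; have fsh1 := DFunLike.congr_fun (hs) fsv; simp only [Finsupp.add_apply] at *; omega)
      · right
        refine ⟨u', hu', hlt, xa a, ?_⟩
        (refine Finsupp.ext (fun fsv => ?_); have fsh0 := DFunLike.congr_fun (e1) fsv; have fsh1 := DFunLike.congr_fun (hs) fsv; simp only [Finsupp.add_apply] at *; omega)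
    obtain ⟨h1, h2⟩ := hlow a ha hk X' hX' z hzc hzh hle' hor
    exact ⟨X', h1, h2, hle'⟩
  refine CLQ_of_rank (Fam_finite G c' (q + 1)) (r := r) ⟨?_, ?_⟩
  · intro a ha b hb hab
    by_cases ha' : a h ≤ k
    · by_cases hb' : b h ≤ k
      · rw [hrlo a ha', hrlo b hb', lex3_eq] at hab
        exact hinj1 (hE1E a ha ha') (hE1E b hb hb') hab.2.1
      · rw [hrlo a ha', hrhi b (by have := hEh b hb; omega), lex3_eq] at hab
        omega
    · have hak : a h = k + 1 := by have := hEh a ha; omega
      by_cases hb' : b h ≤ k
      · rw [hrhi a hak, hrlo b hb', lex3_eq] at hab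
        omega
      · have hbk : b h = k + 1 := by have := hEh b hb; omega
        rw [hrhi a hak, hrhi b hbk, lex3_eq] at hab
        obtain ⟨hua, ea, _⟩ := hmin a ha hak
        obtain ⟨hub', eb, _⟩ := hmin b hb hbk
        have hu : ua a = ua b := hinj0 hua hub' hab.2.1
        have hx : xa a = xa b := by
          by_cases hxa : xa a = h
          · by_cases hxb : xa b = h
            · rw [hxa, hxb]
            · have h1 := huk' a ha hak hxa
              have h2 := huk b hb hbk hxb
              rw [hu] at h1
              omega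
          · by_cases hxb : xa b = h
            · have h1 := huk a ha hak hxa
              have h2 := huk' b hb hbk hxb
              rw [hu] at h1
              omega
            · have h1 := hT a ha hak hxa
              have h2 := hT b hb hbk hxb
              have h3 := hEC a ha hak
              have h4 := hEC b hb hbk
              rw [← hu] at h2 h4
              refine (hposp (ua a) hua).1 _ h1 _ h2 h3 h4 ?_
              rw [hab.2.2, hu]
        rw [ea, eb, hu, hx]
  · intro a ha b hb hlt
    by_cases ha' : a h ≤ k
    · have hb' : b h ≤ k := by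
        by_contra hcon
        rw [hrlo a ha', hrhi b (by have := hEh b hb; omega), lex3_lt] at hlt
        omega
      rw [hrlo a ha', hrlo b hb', lex3_lt] at hlt
      obtain ⟨t, ht, b', hb1, hb2, hb3⟩ := hr1 a (hE1E a ha ha') b (hE1E b hb hb') (by omega)
      refine ⟨t, ht, b', hEE b' hb1, ?_, hb3⟩
      rw [hrlo b' (hE1h b' hb1), hrlo a ha', lex3_lt]
      omega
    · have hak : a h = k + 1 := by have := hEh a ha; omega
      obtain ⟨hu, e, hm⟩ := hmin a ha hak
      have hECa := hEC a ha hak
      -- first divisor of `b` smaller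
      have hbh : b h ≤ k + 1 := hEh b hb
      by_cases hb' : b h ≤ k
      · -- lower `h`-degree
        obtain ⟨t, t', ht, ht', hECt⟩ := exists_aug _ hu.1 hb.1 rfl
        by_cases hxh : xa a = h
        · -- `a = u + 2 h`
          have huh := huk' a ha hak hxh
          rw [hxh] at hECa e
          have main : ∀ t, EC G q (ua a) h t → t ≠ h → ua a t < b t →
              ∃ t, a t < b t ∧ ∃ b' ∈ E, r b' < r a ∧ b' ≤ a + δ t := by
            intro t h1 h2 h3
            have hat : a t = ua a t := by
              have := pw e t
              simpa only [Finsupp.add_apply, δ_ne (Ne.symm h2), add_zero] using this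
            refine ⟨t, by omega, ua a + δ h + δ t, ?_⟩
            have hle : ua a + δ h + δ t ≤ a + δ t := by
              intro v
              have := pw e v
              simp only [Finsupp.add_apply] at this ⊢
              omega
            have hkk : (ua a + δ h + δ t) h ≤ k := by
              simp only [Finsupp.add_apply, δ_self, δ_ne h2]
              omega
            obtain ⟨h4, h5⟩ := hlow a ha hak _ h1 t (by have := hb.2 t; omega) h2 hle
              (Or.inl hkk)
            exact ⟨h4, h5, hle⟩
          have hor : EC G q (ua a) h t ∨ EC G q (ua a) h t' := by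
            rcases ec_c4 hG hECa hECt with h' | h' | h' | h'
            · exact Or.inl h'
            · exact Or.inr h'
            · exact Or.inl h'
            · exact Or.inr h'
          by_cases hth : t = h
          · have hth' : t' ≠ h := by
              rintro h'
              rw [hth, h', δ_self] at ht'
              omega
            rw [hth] at hECt
            exact main t' hECt hth' (by omega)
          · by_cases hth' : t' = h
            · rw [hth'] at hECt
              exact main t hECt.symm hth ht
            · rcases hor with h' | h'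
              · exact main t h' hth ht
              · exact main t' h' hth' (by omega)
        · -- `a = u + h + x`
          have huh := huk a ha hak hxh
          have hth : t ≠ h := by
            rintro rfl
            omega
          have hth' : t' ≠ h := by
            rintro rfl
            omega
          have hat : ∀ s, s ≠ h → a s = ua a s + δ (xa a) s := by
            intro s hs
            have := pw e s
            simpa only [Finsupp.add_apply, δ_ne (Ne.symm hs), add_zero] using this
          -- everything in `M`
          have mkM : ∀ s, s ≠ h → ua a s < b s → s ∉ T (ua a) →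
              ∃ t, a t < b t ∧ ∃ b' ∈ E, r b' < r a ∧ b' ≤ a + δ t := by
            intro s hs hlt' hsT
            have hsS : s ∈ S := hES b hb s (by omega)
            have : ∃ u' ∈ E0, r0 u' < r0 (ua a) ∧ u' ≤ ua a + δ s := by
              by_contra hcon
              push Not at hcon
              exact hsT (Finset.mem_filter.2 ⟨Finset.mem_erase.2 ⟨hs, hsS⟩,
                fun u' hu' h' => hcon u' hu' h'⟩)
            obtain ⟨u', hu', h1, h2⟩ := this
            have hsx : xa a ≠ s := by
              intro h'
              exact hM a ha hak u' hu' h1 (by rw [h']; exact h2)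
            have has : a s < b s := by
              rw [hat s hs, δ_ne hsx]
              omega
            exact ⟨s, has, hexch a ha hak s (lt_of_lt_of_le has (hb.2 s)) hs u' hu' h1 h2⟩
          by_cases htT : t ∈ T (ua a)
          swap
          · exact mkM t hth ht htT
          by_cases htT' : t' ∈ T (ua a)
          swap
          · exact mkM t' hth' (by omega) htT'
          -- exchange with `h`
          have ex1 : ∀ s, EC G q (ua a) (xa a) s → s ≠ h → a s < b s →
              ∃ t, a t < b t ∧ ∃ b' ∈ E, r b' < r a ∧ b' ≤ a + δ t := by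
            intro s h1 h2 h3
            refine ⟨s, h3, ua a + δ (xa a) + δ s, ?_⟩
            have hle : ua a + δ (xa a) + δ s ≤ a + δ s := by
              intro v
              have := pw e v
              simp only [Finsupp.add_apply] at this ⊢
              omega
            have hkk : (ua a + δ (xa a) + δ s) h ≤ k := by
              simp only [Finsupp.add_apply, δ_ne h2, δ_ne hxh]
              omega
            obtain ⟨h4, h5⟩ := hlow a ha hak _ h1 s (by have := hb.2 s; omega) h2 hle
              (Or.inl hkk)
            exact ⟨h4, h5, hle⟩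
          -- exchange inside the block
          have ex2 : ∀ s, s ∈ T (ua a) → EC G q (ua a) h s →
              pos (ua a) s < pos (ua a) (xa a) → ua a s < b s →
              ∃ t, a t < b t ∧ ∃ b' ∈ E, r b' < r a ∧ b' ≤ a + δ t := by
            intro s hsT h1 h2 h3
            have hsh : s ≠ h := (Finset.mem_erase.1 (Finset.mem_filter.1 hsT).1).1
            have hsx : xa a ≠ s := by
              intro h'
              rw [h'] at h2
              exact lt_irrefl _ h2
            have has : a s < b s := by rw [hat s hsh, δ_ne hsx]; omega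
            refine ⟨s, has, ua a + δ h + δ s, ?_⟩
            have hle : ua a + δ h + δ s ≤ a + δ s := by
              intro v
              have := pw e v
              simp only [Finsupp.add_apply] at this ⊢
              omega
            have hkk : (ua a + δ h + δ s) h = k + 1 := by
              simp only [Finsupp.add_apply, δ_self, δ_ne hsh]
              omega
            have hX'E : ua a + δ h + δ s ∈ E := by
              refine ⟨h1, fun v => ?_⟩
              by_cases hv2 : s = v
              · have h6 := hb.2 s
                have h7 := hle s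
                simp only [Finsupp.add_apply, δ_self] at h7 ⊢
                rw [← hv2, δ_self]
                omega
              · have h7 := hle v
                simp only [Finsupp.add_apply, δ_ne hv2] at h7 ⊢
                have := ha.2 v
                omega
            refine ⟨hX'E, ?_, hle⟩
            rw [hrhi _ hkk, hrhi a hak, lex3_lt]
            right
            refine ⟨rfl, ?_⟩
            obtain ⟨hu', e', hm'⟩ := hmin _ hX'E hkk
            rcases (hm' (ua a) hu s rfl).lt_or_eq with h' | h'
            · exact Or.inl h'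
            · right
              refine ⟨h', ?_⟩
              have h6 : ua (ua a + δ h + δ s) = ua a := hinj0 hu' hu h'
              have h7 : xa (ua a + δ h + δ s) = s := by
                have h8 := pw e' s
                rw [h6] at h8
                simp only [Finsupp.add_apply, δ_self] at h8
                have h9 := pw e' s
                exact δ_pos (by omega)
              rw [h6, h7]
              exact h2
          have hxT := hT a ha hak hxh
          rcases (hposp (ua a) hu).2 _ hxT hECa t htT t' htT' hECt with h' | h' | h' | h'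
          · by_cases htx : xa a = t
            · by_cases htx' : xa a = t'
              · refine ex1 t h' hth ?_
                have : t = t' := by rw [← htx, ← htx']
                rw [hat t hth, htx, δ_self]
                rw [← this, δ_self] at ht'
                omega
              · rw [← htx] at hECt
                exact ex1 t' hECt hth' (by rw [hat t' hth', δ_ne htx']; omega)
            · exact ex1 t h' hth (by rw [hat t hth, δ_ne htx]; omega)
          · by_cases htx' : xa a = t'
            · by_cases htx : xa a = t
              · refine ex1 t' h' hth' ?_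
                have : t = t' := by rw [← htx, ← htx']
                rw [hat t' hth', htx', δ_self]
                rw [this, δ_self] at ht'
                omega
              · rw [← htx'] at hECt
                exact ex1 t hECt.symm hth (by rw [hat t hth, δ_ne htx]; omega)
            · exact ex1 t' h' hth' (by rw [hat t' hth', δ_ne htx']; omega)
          · exact ex2 t htT h'.1 h'.2 ht
          · exact ex2 t' htT' h'.1 h'.2 (by omega)
      · -- same `h`-degree
        have hbk : b h = k + 1 := by omega
        obtain ⟨hub', eb, hmb⟩ := hmin b hb hbk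
        rw [hrhi a hak, hrhi b hbk, lex3_lt] at hlt
        rcases hlt with h' | ⟨_, h' | ⟨h', h''⟩⟩
        · omega
        · obtain ⟨t, ht, u', hu', h1, h2⟩ := hr0 (ua a) hu (ua b) hub' h'
          have htx : xa a ≠ t := by
            intro h3
            exact hM a ha hak u' hu' h1 (by rw [h3]; exact h2)
          have hab : a t < b t := by
            have e1 := pw e t
            have e2 := pw eb t
            simp only [Finsupp.add_apply, δ_ne htx] at e1 e2
            omega
          have hth : t ≠ h := by
            rintro rfl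
            omega
          exact ⟨t, hab, hexch a ha hak t (lt_of_lt_of_le hab (hb.2 t)) hth u' hu' h1 h2⟩
        · have hu' : ua b = ua a := hinj0 hub' hu h'
          have hxx : xa a ≠ xa b := by
            intro h3
            rw [hu', h3] at h''
            exact lt_irrefl _ h''
          refine ⟨xa b, ?_, b, hb, ?_, ?_⟩
          · have e1 := pw e (xa b)
            have e2 := pw eb (xa b)
            rw [hu'] at e2
            simp only [Finsupp.add_apply, δ_self, δ_ne hxx] at e1 e2
            omega
          · rw [hrhi a hak, hrhi b hbk, lex3_lt]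
            exact Or.inr ⟨rfl, Or.inr ⟨h', h''⟩⟩
          · intro v
            have e1 := pw e v
            have e2 := pw eb v
            rw [hu'] at e2
            simp only [Finsupp.add_apply] at e1 e2 ⊢
            omega

end Pool.Agent.LQ
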