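import Pool.Agent.Helper75.LQ.Conf

/-!
# MP_e2a5d3_al : raising the multiplicity of one vertex
-/

namespace Pool.Agent.LQ

open Finsupp

variable {V : Type*}

/-- `M` is an edge multiset of `G` with degree vector `m` -/
def Mat (G : SimpleGraph V) (M : Multiset (Sym2 V)) (m : V →₀ ℕ) : Prop :=
  (∀ e ∈ M, e ∈ G.edgeSet) ∧ dg M = m

/-- `m - v - d` is in `P G q` -/
def InD (G : SimpleGraph V) (q : ℕ) (v : V) (m : V →₀ ℕ) (d : V) : Prop :=
  ∃ X ∈ P G q, X + δ v + δ d = m

/-- `m - v + z` is in `P G (q + 1)` -/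
def InR (G : SimpleGraph V) (q : ℕ) (v : V) (m : V →₀ ℕ) (z : V) : Prop :=
  ∃ X ∈ P G (q + 1), X + δ v = m + δ z

theorem inR_of {G : SimpleGraph V} {q : ℕ} {v : V} {m : V →₀ ℕ} {d z : V} (hd : InD G q v m d)
    (h : G.Adj d z) : InR G q v m z := by
  obtain ⟨X, hX, e⟩ := hd
  exact ⟨X + δ d + δ z, add_edge hX h rfl, by (refine Finsupp.ext (fun fsv => ?_); have fsh0 := DFunLike.congr_fun (e) fsv; simp only [Finsupp.add_apply] at *; omega)⟩

theorem inD_of {G : SimpleGraph V} {q : ℕ} {v : V} {m : V →₀ ℕ} (hm : m ∈ P G (q + 1))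
    {z' a : V} (hz : ¬ InR G q v m z') (ha : InR G q v m a) {X1 : V →₀ ℕ}
    (hX1 : X1 ∈ P G (q + 1)) (e1 : X1 + δ a = m + δ z') : InD G q v m a := by
  have hzv : z' ≠ v := by
    rintro rfl
    exact hz ⟨m, hm, rfl⟩
  have hav : a ≠ v := by
    rintro rfl
    exact hz ⟨X1, hX1, e1⟩
  have haz : a ≠ z' := by
    rintro rfl
    exact hz ha
  obtain ⟨Y, hY, eY⟩ := ha
  have hlt : Y v < X1 v := by
    have p1 := pw e1 v
    have p2 := pw eY v
    simp only [Finsupp.add_apply, δ_self, δ_ne hav, δ_ne hzv] at p1 p2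
    omega
  rcases exch' hX1 hY hlt with ⟨w, X', hX', e2, hw⟩ | ⟨w, X', hX', e2, hw⟩
  · have p1 := pw e1 w
    have p2 := pw eY w
    simp only [Finsupp.add_apply] at p1 p2
    have haw : a = w := δ_pos (by omega)
    subst haw
    exact absurd ⟨X', hX', by (refine Finsupp.ext (fun fsv => ?_); have fsh0 := DFunLike.congr_fun (e1) fsv; have fsh1 := DFunLike.congr_fun (e2) fsv; simp only [Finsupp.add_apply] at *; omega)⟩ hz
  · have p1 := pw e1 w
    have p2 := pw eY w
    have p3 := pw e2 w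
    simp only [Finsupp.add_apply, δ_self] at p1 p2 p3
    have hzw : z' = w := δ_pos (by omega)
    subst hzw
    exact ⟨X', hX', by (refine Finsupp.ext (fun fsv => ?_); have fsh0 := DFunLike.congr_fun (e1) fsv; have fsh1 := DFunLike.congr_fun (e2) fsv; simp only [Finsupp.add_apply] at *; omega)⟩

/-- the graph without the edges at `v` -/
def del (G : SimpleGraph V) (v : V) : SimpleGraph V where
  Adj a b := G.Adj a b ∧ a ≠ v ∧ b ≠ v
  symm := ⟨fun _ _ h => ⟨h.1.symm, h.2.2, h.2.1⟩⟩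
  loopless := ⟨fun _ h => G.loopless.irrefl _ h.1⟩

theorem P_mono {G H : SimpleGraph V} (h : ∀ a b, G.Adj a b → H.Adj a b) : ∀ {q : ℕ} {X : V →₀ ℕ},
    X ∈ P G q → X ∈ P H q
  | 0, _, hX => hX
  | _ + 1, _, ⟨Y, hY, a, b, hab, e⟩ => ⟨Y, P_mono h hY, a, b, h a b hab, e⟩

theorem P_del {G : SimpleGraph V} {v : V} {q : ℕ} {X : V →₀ ℕ} (h : X ∈ P (del G v) q) :
    X ∈ P G q := P_mono (G := del G v) (fun _ _ h => h.1) h

theorem P_del_v {G : SimpleGraph V} {v : V} : ∀ {q : ℕ} {X : V →₀ ℕ}, X ∈ P (del G v) q → X v = 0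
  | 0, X, hX => by
      have : X = 0 := hX
      rw [this]; rfl
  | q + 1, X, ⟨Y, hY, a, b, hab, e⟩ => by
      have h1 := P_del_v hY
      have h2 := pw e v
      change X v = Y v + (δ a v + δ b v) at h2
      rw [h1, δ_ne hab.2.1, δ_ne hab.2.2] at h2
      omega

/-- the edges of `M` at `v`, as a multiset of neighbours, and the other edges -/
theorem split_v {G : SimpleGraph V} (v : V) : ∀ (M : Multiset (Sym2 V)),
    (∀ e ∈ M, e ∈ G.edgeSet) → ∃ (Y : Multiset V) (M0 : Multiset (Sym2 V)),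
      M = Y.map (fun y => s(v, y)) + M0 ∧ (∀ y ∈ Y, G.Adj v y) ∧
        (∀ e ∈ M0, e ∈ (del G v).edgeSet) := by
  classical
  intro M
  induction M using Multiset.induction_on with
  | empty => intro _; exact ⟨0, 0, by simp, by simp, by simp⟩
  | cons e M ih =>
      intro hM
      obtain ⟨Y, M0, h1, h2, h3⟩ := ih (fun e he => hM e (Multiset.mem_cons_of_mem he))
      have he := hM e (Multiset.mem_cons_self _ _)
      by_cases hv : v ∈ e
      · obtain ⟨y, rfl⟩ := Sym2.mem_iff_exists.1 hv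
        refine ⟨y ::ₘ Y, M0, by rw [h1, Multiset.map_cons, Multiset.cons_add], ?_, h3⟩
        intro y' hy'
        rcases Multiset.mem_cons.1 hy' with rfl | hy'
        · exact he
        · exact h2 y' hy'
      · refine ⟨Y, e ::ₘ M0, by rw [h1, Multiset.add_cons], h2, ?_⟩
        intro e' he'
        rcases Multiset.mem_cons.1 he' with rfl | he'
        · induction e' using Sym2.ind with
          | _ a b =>
              refine ⟨he, ?_, ?_⟩
              · rintro rfl; exact hv (Sym2.mem_mk_left _ _)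
              · rintro rfl; exact hv (Sym2.mem_mk_right _ _)
        · exact h3 e' he'

theorem not_mem_del {G : SimpleGraph V} {v : V} {e : Sym2 V} (he : e ∈ (del G v).edgeSet) :
    v ∉ e := by
  intro hv
  obtain ⟨y, rfl⟩ := Sym2.mem_iff_exists.1 hv
  exact he.2.1 rfl

theorem edgesAt_split {G : SimpleGraph V} {v : V} {Y : Multiset V} {M0 : Multiset (Sym2 V)}
    (h : ∀ e ∈ M0, e ∈ (del G v).edgeSet) :
    edgesAt v (Y.map (fun y => s(v, y)) + M0) = {e | e ∈ Y.map (fun y => s(v, y))} := by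
  ext e
  constructor
  · rintro ⟨h1, h2⟩
    rcases Multiset.mem_add.1 h1 with h3 | h3
    · exact h3
    · exact absurd h2 (not_mem_del (h e h3))
  · intro h1
    refine ⟨Multiset.mem_add.2 (Or.inl h1), ?_⟩
    obtain ⟨y, _, rfl⟩ := Multiset.mem_map.1 h1
    exact Sym2.mem_mk_left _ _

theorem dg_map_apply_self (v : V) (Y : Multiset V) (hY : ∀ y ∈ Y, y ≠ v) :
    dg (Y.map (fun y => s(v, y))) v = Y.card := by
  induction Y using Multiset.induction_on with
  | empty => simp
  | cons y Y ih =>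
      rw [Multiset.map_cons, dg_cons, Finsupp.add_apply,
        ih (fun y hy => hY y (Multiset.mem_cons_of_mem hy)), ev2_mk, Multiset.card_cons]
      change (δ v + δ y) v + _ = _
      rw [Finsupp.add_apply, δ_self, δ_ne (hY y (Multiset.mem_cons_self _ _))]
      omega

theorem dg_map_pos {v : V} {Y : Multiset V} {w : V} (hw : w ≠ v)
    (h : 0 < dg (Y.map (fun y => s(v, y))) w) : w ∈ Y := by
  induction Y using Multiset.induction_on with
  | empty => simp at h
  | cons y Y ih =>
      rw [Multiset.map_cons, dg_cons, Finsupp.add_apply, ev2_mk] at h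
      change 0 < (δ v + δ y) w + _ at h
      rw [Finsupp.add_apply, δ_ne (Ne.symm hw)] at h
      by_cases hyw : y = w
      · rw [hyw]; exact Multiset.mem_cons_self _ _
      · rw [δ_ne hyw] at h
        exact Multiset.mem_cons_of_mem (ih (by omega))

theorem dg_mem_P {G : SimpleGraph V} {M : Multiset (Sym2 V)} (hM : ∀ e ∈ M, e ∈ G.edgeSet) {q : ℕ}
    (hq : M.card = q) : dg M ∈ P G q := mem_P_iff.2 ⟨M, hM, hq, rfl⟩

/-- an element of the layer with a decomposition `M = (v-edges to Y) + M0` -/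
structure Dec (G : SimpleGraph V) (q : ℕ) (v : V) (m : V →₀ ℕ) (Y : Multiset V)
    (M0 : Multiset (Sym2 V)) : Prop where
  hY : ∀ y ∈ Y, G.Adj v y
  hM0 : ∀ e ∈ M0, e ∈ (del G v).edgeSet
  hc : Y.card + M0.card = q + 1
  hdg : dg (Y.map (fun y => s(v, y))) + dg M0 = m

theorem Dec.edges {G : SimpleGraph V} {q : ℕ} {v : V} {m : V →₀ ℕ} {Y : Multiset V}
    {M0 : Multiset (Sym2 V)} (h : Dec G q v m Y M0) :
    ∀ e ∈ Y.map (fun y => s(v, y)), e ∈ G.edgeSet := by
  intro e he
  obtain ⟨y, hy, rfl⟩ := Multiset.mem_map.1 he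
  exact h.hY y hy

theorem Dec.edges0 {G : SimpleGraph V} {q : ℕ} {v : V} {m : V →₀ ℕ} {Y : Multiset V}
    {M0 : Multiset (Sym2 V)} (h : Dec G q v m Y M0) : ∀ e ∈ M0, e ∈ G.edgeSet := by
  intro e he
  induction e using Sym2.ind with
  | _ a b => exact (h.hM0 _ he).1

theorem Dec.mem {G : SimpleGraph V} {q : ℕ} {v : V} {m : V →₀ ℕ} {Y : Multiset V}
    {M0 : Multiset (Sym2 V)} (h : Dec G q v m Y M0) : m ∈ P G (q + 1) := by
  rw [← h.hdg, ← dg_add]
  refine dg_mem_P ?_ (by rw [Multiset.card_add, Multiset.card_map, h.hc])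
  intro e he
  rcases Multiset.mem_add.1 he with he | he
  · exact h.edges e he
  · exact h.edges0 e he

theorem Dec.m0 {G : SimpleGraph V} {q : ℕ} {v : V} {m : V →₀ ℕ} {Y : Multiset V}
    {M0 : Multiset (Sym2 V)} (h : Dec G q v m Y M0) : dg M0 ∈ P (del G v) M0.card :=
  dg_mem_P h.hM0 rfl

theorem Dec.apply_v {G : SimpleGraph V} {q : ℕ} {v : V} {m : V →₀ ℕ} {Y : Multiset V}
    {M0 : Multiset (Sym2 V)} (h : Dec G q v m Y M0) : m v = Y.card := by
  have h1 := pw h.hdg v
  rw [Finsupp.add_apply, dg_map_apply_self v Y (fun y hy => (h.hY y hy).ne'), P_del_v h.m0] at h1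
  omega

/-- partners of `v` -/
theorem Dec.inD {G : SimpleGraph V} {q : ℕ} {v : V} {m : V →₀ ℕ} {Y : Multiset V}
    {M0 : Multiset (Sym2 V)} (h : Dec G q v m Y M0) {y : V} (hy : y ∈ Y) : InD G q v m y := by
  obtain ⟨Y', rfl⟩ := Multiset.exists_cons_of_mem hy
  refine ⟨dg (Y'.map (fun y => s(v, y)) + M0), dg_mem_P ?_ ?_, ?_⟩
  · intro e he
    rcases Multiset.mem_add.1 he with he | he
    · exact h.edges e (by rw [Multiset.map_cons]; exact Multiset.mem_cons_of_mem he)
    · exact h.edges0 e he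
  · have := h.hc
    rw [Multiset.card_cons] at this
    rw [Multiset.card_add, Multiset.card_map]
    omega
  · rw [← h.hdg, Multiset.map_cons, dg_cons, dg_add, ev2_mk]
    change _ = (δ v + δ y) + _ + _
    abel

theorem exists_dec {G : SimpleGraph V} {q : ℕ} (v : V) {m : V →₀ ℕ} {M : Multiset (Sym2 V)}
    (hM : Mat G M m) (hc : M.card = q + 1) : ∃ Y M0, M = Y.map (fun y => s(v, y)) + M0 ∧
      Dec G q v m Y M0 := by
  obtain ⟨Y, M0, h1, h2, h3⟩ := split_v v M hM.1
  refine ⟨Y, M0, h1, h2, h3, ?_, ?_⟩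
  · rw [h1, Multiset.card_add, Multiset.card_map] at hc
    exact hc
  · rw [← hM.2, h1, dg_add]

/-- two directions which can be entered simultaneously -/
theorem pair_success {G : SimpleGraph V} (hG : GF G) {q : ℕ} {v : V} {m : V →₀ ℕ} {Y : Multiset V}
    {M0 : Multiset (Sym2 V)} (h : Dec G q v m Y M0) {y : V} (hy : y ∈ Y) {z z' : V}
    (hz : ¬ InR G q v m z) (hz' : ¬ InR G q v m z') (hzD : G.Adj v z → InD G q v m z)
    (hzD' : G.Adj v z' → InD G q v m z') (h2 : m + δ z + δ z' ∈ P G (q + 1 + 1)) :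
    ∃ ζ w X M0', (ζ = z ∨ ζ = z') ∧ ζ ≠ v ∧ ¬ G.Adj v ζ ∧ G.Adj v w ∧ X + δ w = m + δ ζ ∧
      Dec G q v X Y M0' := by
  have hm := h.mem
  have hRv : InR G q v m v := ⟨m, hm, rfl⟩
  have hzv : z ≠ v := by rintro rfl; exact hz hRv
  have hzv' : z' ≠ v := by rintro rfl; exact hz' hRv
  -- partners of `z` are not in `R`
  have step1 : ∀ z z' : V, ¬ InR G q v m z → ¬ InR G q v m z' → ∀ a X', G.Adj z a →
      X' ∈ P G (q + 1) → X' + δ a = m + δ z' → ¬ InR G q v m a := by
    intro z z' hz hz' a X' hza hX' e ha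
    exact hz (inR_of (inD_of hm hz' ha hX' e) hza.symm)
  -- the directions are not neighbours of `v`
  have step2 : ∀ z z' : V, ¬ InR G q v m z → ¬ InR G q v m z' → (G.Adj v z → InD G q v m z) →
      m + δ z + δ z' ∈ P G (q + 1 + 1) → ¬ G.Adj v z := by
    intro z z' hz hz' hzD h2 hvz
    obtain ⟨a, X', hza, hX', e⟩ := split_at h2 (x := z) (by
      simp only [Finsupp.add_apply, δ_self]; omega)
    exact step1 z z' hz hz' a X' hza hX' (by (refine Finsupp.ext (fun fsv => ?_); have fsh0 := DFunLike.congr_fun (e) fsv; simp only [Finsupp.add_apply] at *; omega)) (inR_of (hzD hvz) hza)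
  have hvz : ¬ G.Adj v z := step2 z z' hz hz' hzD h2
  have hvz' : ¬ G.Adj v z' := step2 z' z hz' hz hzD' (by
    have : m + δ z' + δ z = m + δ z + δ z' := by abel
    rw [this]; exact h2)
  -- neighbours of the directions outside `R` are neighbours of `v`
  have step3 : ∀ z a : V, ¬ InR G q v m z → ¬ G.Adj v z → G.Adj z a → ¬ InR G q v m a →
      G.Adj v a := by
    intro z a hz hvz hza ha
    rcases hG _ _ _ _ (h.hY y hy) hza with h' | h' | h' | h'
    · exact absurd h' hvz
    · exact h'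
    · exact absurd (inR_of (h.inD hy) h') hz
    · exact absurd (inR_of (h.inD hy) h') ha
  -- decomposition of `m + z + z'`
  obtain ⟨N, hN, hNc, hNd⟩ := mem_P_iff.1 h2
  obtain ⟨Y2, N0, hNe, hdec⟩ := exists_dec (q := q + 1) v ⟨hN, hNd⟩ hNc
  have hYc : Y2.card = Y.card := by
    have h3 := hdec.apply_v
    have h4 := h.apply_v
    simp only [Finsupp.add_apply, δ_ne hzv, δ_ne hzv'] at h3
    omega
  have hN0c : N0.card = M0.card + 1 := by
    have h3 := hdec.hc
    have h4 := h.hc
    omega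
  have hA : ∀ w, w ≠ v → ¬ G.Adj v w → ∀ (Z : Multiset V), (∀ y ∈ Z, G.Adj v y) →
      dg (Z.map (fun y => s(v, y))) w = 0 := by
    intro w hw hvw Z hZ
    by_contra hcon
    exact hvw (hZ w (dg_map_pos hw (by omega)))
  have ez := pw h.hdg z
  have eN := pw hdec.hdg z
  simp only [Finsupp.add_apply, δ_self] at ez eN
  rw [hA z hzv hvz Y h.hY] at ez
  rw [hA z hzv hvz Y2 hdec.hY] at eN
  have hlt : dg M0 z < dg N0 z := by omega
  rcases exch h.m0 hdec.m0 hlt with ⟨w, X', hX', e1, hw⟩ | ⟨w, hX', hw⟩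
  · -- exchange `z` with `w`
    have hwv : w ≠ v := by
      rintro rfl
      have := P_del_v h.m0
      omega
    have hvw : G.Adj v w := by
      by_contra hcon
      have e3 := pw h.hdg w
      have e4 := pw hdec.hdg w
      simp only [Finsupp.add_apply] at e3 e4
      rw [hA w hwv hcon Y h.hY] at e3
      rw [hA w hwv hcon Y2 hdec.hY] at e4
      omega
    obtain ⟨M0', hM0', hM0c', hM0d'⟩ := mem_P_iff.1 hX'
    refine ⟨z, w, dg (Y.map (fun y => s(v, y))) + X', M0', Or.inl rfl, hzv, hvz, hvw, ?_,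
      ⟨h.hY, hM0', ?_, ?_⟩⟩
    · (refine Finsupp.ext (fun fsv => ?_); have fsh0 := DFunLike.congr_fun (e1) fsv; have fsh1 := DFunLike.congr_fun (h.hdg) fsv; simp only [Finsupp.add_apply] at *; omega)
    · rw [hM0c']; exact h.hc
    · rw [hM0d']
  · have hwv : w ≠ v := by
      rintro rfl
      have := P_del_v hdec.m0
      omega
    by_cases hwY : 0 < dg (Y.map (fun y => s(v, y))) w
    · -- then `z` is in `R`
      exfalso
      have hwY' : w ∈ Y := dg_map_pos hwv hwY
      obtain ⟨Y', rfl⟩ := Multiset.exists_cons_of_mem hwY'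
      obtain ⟨M1, hM1, hM1c, hM1d⟩ := mem_P_iff.1 hX'
      apply hz
      refine ⟨dg (Y'.map (fun y => s(v, y)) + M1), dg_mem_P ?_ ?_, ?_⟩
      · intro e he
        rcases Multiset.mem_add.1 he with he | he
        · exact h.edges e (by rw [Multiset.map_cons]; exact Multiset.mem_cons_of_mem he)
        · have := hM1 e he
          induction e using Sym2.ind with
          | _ a b => exact this.1
      · have := h.hc
        rw [Multiset.card_cons] at this
        rw [Multiset.card_add, Multiset.card_map, hM1c]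
        omega
      · rw [← h.hdg, Multiset.map_cons, dg_cons, dg_add, ev2_mk, hM1d]
        change _ = (δ v + δ w) + _ + _ + _
        abel
    · have hwz : z' = w := by
        have e3 := pw h.hdg w
        have e4 := pw hdec.hdg w
        simp only [Finsupp.add_apply] at e3 e4
        exact δ_pos (by omega)
      subst hwz
      obtain ⟨a, X1, hza, hX1, e1⟩ := split_at hX' (x := z) (by
        simp only [Finsupp.add_apply, δ_self]; omega)
      have e2 : X1 + δ a = dg M0 + δ z' := by (refine Finsupp.ext (fun fsv => ?_); have fsh0 := DFunLike.congr_fun (e1) fsv; simp only [Finsupp.add_apply] at *; omega)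
      obtain ⟨M0', hM0', hM0c', hM0d'⟩ := mem_P_iff.1 hX1
      have hdec' : Dec G q v (dg (Y.map (fun y => s(v, y))) + X1) Y M0' :=
        ⟨h.hY, hM0', by rw [hM0c']; exact h.hc, by rw [hM0d']⟩
      have e3 : dg (Y.map (fun y => s(v, y))) + X1 + δ a = m + δ z' := by (refine Finsupp.ext (fun fsv => ?_); have fsh0 := DFunLike.congr_fun (e2) fsv; have fsh1 := DFunLike.congr_fun (h.hdg) fsv; simp only [Finsupp.add_apply] at *; omega)
      have haR : ¬ InR G q v m a := step1 z z' hz hz' a _ hza.1 hdec'.mem e3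
      exact ⟨z', a, _, M0', Or.inr rfl, hzv', hvz', step3 z a hz hvz hza.1 haR, e3, hdec'⟩

end Pool.Agent.LQ
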