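import Pool.Agent.Helper75.LQ.TW

/-!
# MP_e2a5d3_al : raising the multiplicity of one vertex, the order of the new elements
-/

namespace Pool.Agent.LQ

open Finsupp

variable {V : Type*}

theorem kap_eq {G : SimpleGraph V} {v : V} {Y : Multiset V} {M0 : Multiset (Sym2 V)}
    (h : ∀ e ∈ M0, e ∈ (del G v).edgeSet) :
    kap v (Y.map (fun y => s(v, y)) + M0) = {y | y ∈ Y}.ncard := by
  unfold kap
  rw [edgesAt_split h]
  have : {e | e ∈ Y.map (fun y => s(v, y))} = (fun y => s(v, y)) '' {y | y ∈ Y} := by
    ext e
    simp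
  rw [this, Set.ncard_image_of_injective]
  intro a b hab
  exact Sym2.congr_right.1 hab

/-- a neighbour of `v` which can not be a partner of `v` -/
theorem single_success {G : SimpleGraph V} {q : ℕ} {v : V} {m : V →₀ ℕ} {Y : Multiset V}
    {M0 : Multiset (Sym2 V)} (h : Dec G q v m Y M0)
    (hk : ∀ I : Finset V, (∀ x ∈ I, G.Adj v x) → (∀ x ∈ I, ∀ y ∈ I, ¬ G.Adj x y) →
      I.card ≤ Y.card) {z : V} (hz : ¬ InR G q v m z) (hvz : G.Adj v z)
    (hzD : ¬ InD G q v m z) :
    ∃ y X Y', y ≠ v ∧ X + δ y = m + δ z ∧ Dec G q v X Y' M0 ∧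
      {y | y ∈ Y}.ncard < {y | y ∈ Y'}.ncard := by
  classical
  have hzY : z ∉ Y := fun h' => hzD (h.inD h')
  have hzy : ∀ y ∈ Y, ¬ G.Adj y z := fun y hy h' => hz (inR_of (h.inD hy) h')
  have hind : ∀ y₁ ∈ Y, ∀ y₂ ∈ Y, ¬ G.Adj y₁ y₂ := by
    intro y₁ h1 y₂ h2 hadj
    obtain ⟨Y1, rfl⟩ := Multiset.exists_cons_of_mem h1
    have h3 : y₂ ∈ Y1 := by
      rcases Multiset.mem_cons.1 h2 with h3 | h3
      · exact absurd h3.symm hadj.ne
      · exact h3
    obtain ⟨Y2, rfl⟩ := Multiset.exists_cons_of_mem h3
    apply hz
    refine ⟨dg (s(v, z) ::ₘ s(y₁, y₂) ::ₘ (Y2.map (fun y => s(v, y)) + M0)), dg_mem_P ?_ ?_, ?_⟩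
    · intro e he
      rcases Multiset.mem_cons.1 he with rfl | he
      · exact hvz
      · rcases Multiset.mem_cons.1 he with rfl | he
        · exact hadj
        · rcases Multiset.mem_add.1 he with he | he
          · exact h.edges e (by
              rw [Multiset.map_cons, Multiset.map_cons]
              exact Multiset.mem_cons_of_mem (Multiset.mem_cons_of_mem he))
          · exact h.edges0 e he
    · have := h.hc
      rw [Multiset.card_cons, Multiset.card_cons] at this
      rw [Multiset.card_cons, Multiset.card_cons, Multiset.card_add, Multiset.card_map]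
      omega
    · rw [← h.hdg, dg_cons, dg_cons, dg_add, Multiset.map_cons, Multiset.map_cons, dg_cons,
        dg_cons, ev2_mk, ev2_mk, ev2_mk, ev2_mk]
      change (δ v + δ z) + ((δ y₁ + δ y₂) + _) + _ = (δ v + δ y₁) + ((δ v + δ y₂) + _) + _ + _
      abel
  have hnd : ¬ Y.Nodup := by
    intro hnd
    have h1 := hk (insert z Y.toFinset) (by
      intro x hx
      rcases Finset.mem_insert.1 hx with rfl | hx
      · exact hvz
      · exact h.hY x (Multiset.mem_toFinset.1 hx)) (by
      intro x hx y hy
      rcases Finset.mem_insert.1 hx with hx' | hx'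
      · rcases Finset.mem_insert.1 hy with hy' | hy'
        · rw [hx', hy']; exact G.loopless.irrefl _
        · rw [hx']
          exact fun h' => hzy y (Multiset.mem_toFinset.1 hy') h'.symm
      · rcases Finset.mem_insert.1 hy with hy' | hy'
        · rw [hy']
          exact hzy x (Multiset.mem_toFinset.1 hx')
        · exact hind x (Multiset.mem_toFinset.1 hx') y (Multiset.mem_toFinset.1 hy'))
    rw [Finset.card_insert_of_notMem (by rw [Multiset.mem_toFinset]; exact hzY),
      Multiset.toFinset_card_of_nodup hnd] at h1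
    omega
  rw [Multiset.nodup_iff_count_le_one] at hnd
  push Not at hnd
  obtain ⟨y, hy⟩ := hnd
  have hyY : y ∈ Y := Multiset.count_pos.1 (by omega)
  obtain ⟨Y1, rfl⟩ := Multiset.exists_cons_of_mem hyY
  have hyY1 : y ∈ Y1 := by
    rw [Multiset.count_cons_self] at hy
    exact Multiset.count_pos.1 (by omega)
  refine ⟨y, dg ((z ::ₘ Y1).map (fun y => s(v, y))) + dg M0, z ::ₘ Y1,
    (h.hY y (Multiset.mem_cons_self _ _)).ne', ?_, ⟨?_, h.hM0, ?_, rfl⟩, ?_⟩
  · rw [← h.hdg, Multiset.map_cons, Multiset.map_cons, dg_cons, dg_cons, ev2_mk, ev2_mk]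
    change (δ v + δ z) + _ + _ + _ = (δ v + δ y) + _ + _ + _
    abel
  · intro y' hy'
    rcases Multiset.mem_cons.1 hy' with rfl | hy'
    · exact hvz
    · exact h.hY y' (Multiset.mem_cons_of_mem hy')
  · have := h.hc
    rw [Multiset.card_cons] at this ⊢
    exact this
  · have h1 : {y' | y' ∈ y ::ₘ Y1} = {y' | y' ∈ Y1} := by
      ext x
      simp only [Multiset.mem_cons, Set.mem_ofPred_eq]
      constructor
      · rintro (rfl | hx)
        · exact hyY1
        · exact hx
      · exact fun hx => Or.inr hx
    have h2 : {y' | y' ∈ z ::ₘ Y1} = insert z {y' | y' ∈ Y1} := by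
      ext x
      simp only [Multiset.mem_cons, Set.mem_ofPred_eq, Set.mem_insert_iff]
    have hfin : {y' | y' ∈ Y1}.Finite := by
      refine (Y1.toFinset.finite_toSet).subset (fun x hx => ?_)
      rw [Finset.mem_coe, Multiset.mem_toFinset]
      exact hx
    have hz1 : z ∉ {y' | y' ∈ Y1} := fun h' => hzY (Multiset.mem_cons_of_mem h')
    rw [h1, h2, Set.ncard_insert_of_notMem hz1 hfin]
    omega

theorem lower_success {G : SimpleGraph V} {q : ℕ} {v : V} {m : V →₀ ℕ} {Y : Multiset V}
    {M0 : Multiset (Sym2 V)} (h : Dec G q v m Y M0) {y : V} (hy : y ∈ Y) {b : V →₀ ℕ}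
    (hb : b ∈ P G (q + 1)) (hbv : b v < m v) :
    (∃ ζ, m ζ < b ζ ∧ InR G q v m ζ) ∨
    (∃ z z', m z < b z ∧ m z' < b z' ∧ m + δ z + δ z' ∈ P G (q + 1 + 1)) := by
  obtain ⟨u, hu, e⟩ := h.inD hy
  obtain ⟨t, t', ht, ht', hEC⟩ := exists_aug _ hu hb rfl
  have hyv : y ≠ v := (h.hY y hy).ne'
  have hvy : G.Adj v y := h.hY y hy
  have htv : t ≠ v := by
    rintro rfl
    have := pw e t
    simp only [Finsupp.add_apply, δ_self, δ_ne hyv] at this
    omega
  have htv' : t' ≠ v := by
    rintro rfl
    have := pw e t'
    simp only [Finsupp.add_apply, δ_self, δ_ne hyv] at this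
    omega
  have hEC' : u + δ t + δ t' ∈ P G (q + 1) := hEC
  have et := pw e t
  have et' := pw e t'
  simp only [Finsupp.add_apply, δ_ne (Ne.symm htv), δ_ne (Ne.symm htv')] at et et'
  by_cases hty : y = t
  · subst hty
    by_cases hty' : y = t'
    · subst hty'
      rw [δ_self] at et ht'
      exact Or.inl ⟨y, by omega, u + δ y + δ y, hEC', by (refine Finsupp.ext (fun fsv => ?_); have fsh0 := DFunLike.congr_fun (e) fsv; simp only [Finsupp.add_apply] at *; omega)⟩
    · rw [δ_ne hty'] at et' ht'
      exact Or.inl ⟨t', by omega, u + δ y + δ t', hEC', by (refine Finsupp.ext (fun fsv => ?_); have fsh0 := DFunLike.congr_fun (e) fsv; simp only [Finsupp.add_apply] at *; omega)⟩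
  · rw [δ_ne hty] at et
    by_cases hty' : y = t'
    · subst hty'
      exact Or.inl ⟨t, by omega, u + δ t + δ y, hEC', by (refine Finsupp.ext (fun fsv => ?_); have fsh0 := DFunLike.congr_fun (e) fsv; simp only [Finsupp.add_apply] at *; omega)⟩
    · rw [δ_ne hty'] at et'
      refine Or.inr ⟨t, t', by omega, by omega, ?_⟩
      exact add_edge hEC' hvy (by (refine Finsupp.ext (fun fsv => ?_); have fsh0 := DFunLike.congr_fun (e) fsv; simp only [Finsupp.add_apply] at *; omega))

theorem lex3_lt' {α β γ : Type*} [LinearOrder α] [LinearOrder β] [LinearOrder γ]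
    {a a' : α} {b b' : β} {c c' : γ} :
    (toLex (a, toLex (b, c)) : α ×ₗ (β ×ₗ γ)) < toLex (a', toLex (b', c')) ↔
      a < a' ∨ (a = a' ∧ (b < b' ∨ (b = b' ∧ c < c'))) := by
  rw [Prod.Lex.toLex_lt_toLex, Prod.Lex.toLex_lt_toLex]

theorem lex3_eq' {α β γ : Type*} {a a' : α} {b b' : β} {c c' : γ} :
    (toLex (a, toLex (b, c)) : α ×ₗ (β ×ₗ γ)) = toLex (a', toLex (b', c')) ↔
      a = a' ∧ b = b' ∧ c = c' := by
  simp

/-- bounded family -/
def Fam (G : SimpleGraph V) (c : V → ℕ) (m : ℕ) : Set (V →₀ ℕ) := {a | a ∈ P G m ∧ ∀ x, a x ≤ c x}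

/-- the maximal number of distinct partners of `v` -/
noncomputable def kappa (G : SimpleGraph V) (v : V) (a : V →₀ ℕ) : ℕ :=
  sSup {n | ∃ M, Mat G M a ∧ kap v M = n}

theorem card_of_mat {G : SimpleGraph V} {q : ℕ} {a : V →₀ ℕ} (ha : a ∈ P G q)
    {M : Multiset (Sym2 V)} (hM : Mat G M a) : M.card = q := by
  have h1 := degree_of_mem_P ha
  have h2 := degree_of_mem_P (dg_mem_P hM.1 rfl)
  rw [hM.2] at h2
  omega

theorem kappa_bdd {G : SimpleGraph V} {q : ℕ} {v : V} {a : V →₀ ℕ} (ha : a ∈ P G q) :
    BddAbove {n | ∃ M, Mat G M a ∧ kap v M = n} := by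
  refine ⟨q, ?_⟩
  rintro n ⟨M, hM, rfl⟩
  rw [← card_of_mat ha hM]
  exact kap_le_card v M

theorem kap_le_kappa {G : SimpleGraph V} {q : ℕ} {v : V} {a : V →₀ ℕ} (ha : a ∈ P G q)
    {M : Multiset (Sym2 V)} (hM : Mat G M a) : kap v M ≤ kappa G v a :=
  le_csSup (kappa_bdd ha) ⟨M, hM, rfl⟩

theorem exists_kappa {G : SimpleGraph V} {q : ℕ} {v : V} {a : V →₀ ℕ} (ha : a ∈ P G q) :
    ∃ M, Mat G M a ∧ kap v M = kappa G v a := by
  obtain ⟨M, hM, _, hd⟩ := mem_P_iff.1 ha
  exact Nat.sSup_mem (s := {n | ∃ M, Mat G M a ∧ kap v M = n}) ⟨_, M, ⟨hM, hd⟩, rfl⟩ (kappa_bdd ha)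

theorem Dec.mat {G : SimpleGraph V} {q : ℕ} {v : V} {m : V →₀ ℕ} {Y : Multiset V}
    {M0 : Multiset (Sym2 V)} (h : Dec G q v m Y M0) : Mat G (Y.map (fun y => s(v, y)) + M0) m := by
  refine ⟨fun e he => ?_, by rw [dg_add, h.hdg]⟩
  rcases Multiset.mem_add.1 he with he | he
  · exact h.edges e he
  · exact h.edges0 e he

theorem tw {Γ : Type*} [AddCommMonoid Γ] [LinearOrder Γ] [IsOrderedCancelAddMonoid Γ]
    {G : SimpleGraph V} (hG : GF G) {v : V} (ℓ : (V →₀ ℕ) →+ Γ) (hinj : Function.Injective ℓ)
    (hL : ∀ x y, x ≠ v → ¬ G.Adj v x → G.Adj v y → ℓ (δ y) < ℓ (δ x)) {c : V → ℕ}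
    (hk : ∀ I : Finset V, (∀ x ∈ I, G.Adj v x) → (∀ x ∈ I, ∀ y ∈ I, ¬ G.Adj x y) →
      I.card ≤ c v + 1) {c' : V → ℕ} (hc' : ∀ x, x ≠ v → c' x = c x) (hcv : c' v = c v + 1)
    {q : ℕ} (hfin : (Fam G c' (q + 1)).Finite) (H : CLQ (Fam G c (q + 1))) :
    CLQ (Fam G c' (q + 1)) := by
  classical
  obtain ⟨r1, hinj1, hr1⟩ := H.rank
  have hlo : ∀ a ∈ Fam G c' (q + 1), a v ≤ c v → a ∈ Fam G c (q + 1) := by
    intro a ha hav
    refine ⟨ha.1, fun x => ?_⟩
    by_cases hx : x = v
    · rw [hx]; exact hav
    · rw [← hc' x hx]; exact ha.2 x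
  have hup : ∀ a ∈ Fam G c (q + 1), a ∈ Fam G c' (q + 1) := by
    intro a ha
    refine ⟨ha.1, fun x => ?_⟩
    by_cases hx : x = v
    · rw [hx, hcv]; have := ha.2 v; omega
    · rw [hc' x hx]; exact ha.2 x
  let r : (V →₀ ℕ) → ℤ ×ₗ (ℤ ×ₗ Γᵒᵈ) := fun a =>
    if a v ≤ c v then toLex (0, toLex ((r1 a : ℤ), OrderDual.toDual 0)) else
      toLex (1, toLex (-(kappa G v a : ℤ), OrderDual.toDual (ℓ a)))
  have hrlo : ∀ a, a v ≤ c v → r a = toLex (0, toLex ((r1 a : ℤ), OrderDual.toDual 0)) :=
    fun a h => if_pos h
  have hrhi : ∀ a, a v = c v + 1 →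
      r a = toLex (1, toLex (-(kappa G v a : ℤ), OrderDual.toDual (ℓ a))) :=
    fun a h => if_neg (by omega)
  refine CLQ_of_rank hfin (r := r) ⟨?_, ?_⟩
  · intro a ha b hb hab
    have hav := ha.2 v
    have hbv := hb.2 v
    rw [hcv] at hav hbv
    by_cases h1 : a v ≤ c v
    · by_cases h2 : b v ≤ c v
      · rw [hrlo a h1, hrlo b h2, lex3_eq'] at hab
        exact hinj1 (hlo a ha h1) (hlo b hb h2) (by exact_mod_cast hab.2.1)
      · rw [hrlo a h1, hrhi b (by omega), lex3_eq'] at hab
        exact absurd hab.1 (by norm_num)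
    · by_cases h2 : b v ≤ c v
      · rw [hrhi a (by omega), hrlo b h2, lex3_eq'] at hab
        exact absurd hab.1 (by norm_num)
      · rw [hrhi a (by omega), hrhi b (by omega), lex3_eq'] at hab
        exact hinj (OrderDual.toDual.injective hab.2.2)
  · intro m hm b hb hlt
    have hmv := hm.2 v
    have hbv := hb.2 v
    rw [hcv] at hmv hbv
    by_cases h1 : m v ≤ c v
    · have h2 : b v ≤ c v := by
        by_contra hcon
        rw [hrlo m h1, hrhi b (by omega), lex3_lt'] at hlt
        rcases hlt with h' | ⟨h', _⟩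
        · exact absurd h' (by norm_num)
        · exact absurd h' (by norm_num)
      rw [hrlo m h1, hrlo b h2, lex3_lt'] at hlt
      have hlt' : r1 b < r1 m := by
        rcases hlt with h' | ⟨_, h' | ⟨_, h'⟩⟩
        · exact absurd h' (by norm_num)
        · exact_mod_cast h'
        · exact absurd h' (lt_irrefl _)
      obtain ⟨t, ht, b', hb', h3, h4⟩ := hr1 m (hlo m hm h1) b (hlo b hb h2) hlt'
      refine ⟨t, ht, b', hup b' hb', ?_, h4⟩
      rw [hrlo m h1, hrlo b' (hb'.2 v), lex3_lt']
      exact Or.inr ⟨rfl, Or.inl (by exact_mod_cast h3)⟩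
    · have hmk : m v = c v + 1 := by omega
      obtain ⟨M, hM, hMk⟩ := exists_kappa (v := v) hm.1
      have hMc := card_of_mat hm.1 hM
      obtain ⟨Y, M0, hMe, hdec⟩ := exists_dec v hM hMc
      have hYc : Y.card = c v + 1 := by rw [← hdec.apply_v, hmk]
      obtain ⟨y, hy⟩ : ∃ y, y ∈ Y := by
        rw [← Multiset.card_pos_iff_exists_mem]; omega
      have hkY : kap v M = {y | y ∈ Y}.ncard := by rw [hMe]; exact kap_eq hdec.hM0
      have hk' : ∀ I : Finset V, (∀ x ∈ I, G.Adj v x) → (∀ x ∈ I, ∀ y ∈ I, ¬ G.Adj x y) →
        I.card ≤ Y.card := by rw [hYc]; exact hk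
      -- bounds
      have hbd : ∀ ζ, m ζ < c' ζ → ∀ X w, X + δ w = m + δ ζ → X ∈ P G (q + 1) →
          X ∈ Fam G c' (q + 1) := by
        intro ζ hζ X w e hX
        refine ⟨hX, fun x => ?_⟩
        have h2 := pw e x
        simp only [Finsupp.add_apply] at h2
        by_cases hx : ζ = x
        · rw [hx, δ_self] at h2
          rw [hx] at hζ
          omega
        · rw [δ_ne hx] at h2
          have := hm.2 x
          omega
      have hζv : ∀ ζ, m ζ < c' ζ → ζ ≠ v := by
        rintro ζ hζ rfl
        omega
      have hle : ∀ (X : V →₀ ℕ) (w ζ : V), X + δ w = m + δ ζ → X ≤ m + δ ζ := by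
        intro X w ζ e
        rw [← e]; exact le_self_add
      -- successes
      have S1 : ∀ ζ, m ζ < c' ζ → InR G q v m ζ →
          ∃ b' ∈ Fam G c' (q + 1), r b' < r m ∧ b' ≤ m + δ ζ := by
        rintro ζ hζ ⟨X, hX, e⟩
        refine ⟨X, hbd ζ hζ X v e hX, ?_, hle X v ζ e⟩
        have h2 := pw e v
        simp only [Finsupp.add_apply, δ_self, δ_ne (hζv ζ hζ)] at h2
        rw [hrlo X (by omega), hrhi m hmk, lex3_lt']
        exact Or.inl (by norm_num)
      have S2 : ∀ ζ, m ζ < c' ζ → ∀ X w, w ≠ v → X + δ w = m + δ ζ → ∀ M', Mat G M' X →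
          (kap v M < kap v M' ∨ (kap v M = kap v M' ∧ ℓ m < ℓ X)) →
          ∃ b' ∈ Fam G c' (q + 1), r b' < r m ∧ b' ≤ m + δ ζ := by
        intro ζ hζ X w hwv e M' hM' hor
        have hXP : X ∈ P G (q + 1) := by
          refine mem_P_iff.2 ⟨M', hM'.1, ?_, hM'.2⟩
          have h3 := congrArg Finsupp.degree e
          have h4 := degree_of_mem_P (dg_mem_P hM'.1 rfl)
          rw [hM'.2] at h4
          rw [map_add, map_add, degree_of_mem_P hm.1, degree_single, degree_single] at h3
          omega
        refine ⟨X, hbd ζ hζ X w e hXP, ?_, hle X w ζ e⟩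
        have h2 := pw e v
        simp only [Finsupp.add_apply, δ_ne hwv, δ_ne (hζv ζ hζ)] at h2
        rw [hrhi X (by omega), hrhi m hmk, lex3_lt']
        right
        refine ⟨rfl, ?_⟩
        have h5 := kap_le_kappa (v := v) hXP hM'
        rcases hor with h6 | ⟨h6, h7⟩
        · left
          have : kappa G v m < kappa G v X := by omega
          omega
        · by_cases h8 : kappa G v m = kappa G v X
          · right
            exact ⟨by rw [h8], OrderDual.toDual_lt_toDual.2 h7⟩
          · left
            have : kappa G v m < kappa G v X := by omega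
            omega
      have Spair : ∀ z z', m z < c' z → m z' < c' z' → m + δ z + δ z' ∈ P G (q + 1 + 1) →
          ∃ ζ, (ζ = z ∨ ζ = z') ∧ ∃ b' ∈ Fam G c' (q + 1), r b' < r m ∧ b' ≤ m + δ ζ := by
        intro z z' hz hz' h2
        by_cases a1 : InR G q v m z
        · exact ⟨z, Or.inl rfl, S1 z hz a1⟩
        by_cases a2 : InR G q v m z'
        · exact ⟨z', Or.inr rfl, S1 z' hz' a2⟩
        by_cases a3 : G.Adj v z ∧ ¬ InD G q v m z
        · obtain ⟨y', X, Y', h3, h4, h5, h6⟩ := single_success hdec hk' a1 a3.1 a3.2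
          refine ⟨z, Or.inl rfl, S2 z hz X y' h3 h4 _ h5.mat (Or.inl ?_)⟩
          rw [hkY, kap_eq h5.hM0]; exact h6
        by_cases a4 : G.Adj v z' ∧ ¬ InD G q v m z'
        · obtain ⟨y', X, Y', h3, h4, h5, h6⟩ := single_success hdec hk' a2 a4.1 a4.2
          refine ⟨z', Or.inr rfl, S2 z' hz' X y' h3 h4 _ h5.mat (Or.inl ?_)⟩
          rw [hkY, kap_eq h5.hM0]; exact h6
        push Not at a3 a4
        obtain ⟨ζ, w, X, M0', h3, h4, h5, h6, h7, h8⟩ := pair_success hG hdec hy a1 a2 a3 a4 h2
        refine ⟨ζ, h3, S2 ζ ?_ X w h6.ne' h7 _ h8.mat (Or.inr ⟨?_, ?_⟩)⟩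
        · rcases h3 with rfl | rfl
          · exact hz
          · exact hz'
        · rw [hkY, kap_eq h8.hM0]
        · have h9 := congrArg ℓ h7
          rw [map_add, map_add] at h9
          have h10 := hL ζ w h4 h5 h6
          by_contra hcon
          push Not at hcon
          have h11 : ℓ X + ℓ (δ w) < ℓ m + ℓ (δ ζ) := add_lt_add_of_le_of_lt hcon h10
          exact absurd h9 (ne_of_lt h11)
      -- the induction for elements with the same multiplicity of `v`
      have VE : ∀ (n : ℕ) (b : V →₀ ℕ) (N : Multiset (Sym2 V)), (b - m).degree = n → Mat G N b →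
          N.card = q + 1 → b v = m v → (∀ x, b x ≤ c' x) →
          (kap v M < kap v N ∨ (kap v M = kap v N ∧ ℓ m < ℓ b)) →
          ∃ ζ, m ζ < b ζ ∧ ∃ b' ∈ Fam G c' (q + 1), r b' < r m ∧ b' ≤ m + δ ζ := by
        intro n
        induction n using Nat.strong_induction_on with
        | _ n ih =>
            intro b N hn hN hNc hbv' hbc hor
            have hbP : b ∈ P G (q + 1) := mem_P_iff.2 ⟨N, hN.1, hNc, hN.2⟩
            have hbm : b ≠ m := by
              rintro rfl
              have := kap_le_kappa (v := v) hbP hN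
              rcases hor with h' | ⟨_, h'⟩
              · omega
              · exact lt_irrefl _ h'
            obtain ⟨z, hz⟩ : ∃ z, m z < b z := by
              by_contra hcon
              push Not at hcon
              have hle' : b ≤ m := hcon
              obtain ⟨d, hd⟩ := exists_add_of_le hle'
              have h3 := degree_of_mem_P hbP
              have h4 := degree_of_mem_P hm.1
              rw [hd, map_add, h3] at h4
              have h5 : d = 0 := by
                rw [← degree_eq_zero_iff]; omega
              rw [h5, add_zero] at hd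
              exact hbm hd.symm
            have hzv : z ≠ v := by rintro rfl; omega
            have hzc : m z < c' z := lt_of_lt_of_le hz (hbc z)
            have hz' : dg M z < dg N z := by rw [hM.2, hN.2]; exact hz
            rcases exchM hM.1 hN.1 hz' with ⟨w, M', N', h1', h2', h3', h4', h5', h6'⟩ |
              ⟨w, h1', h2'⟩
            · rw [hM.2] at h5'
              rw [hM.2, hN.2] at h6'
              have hwv : w ≠ v := by rintro rfl; omega
              have hall : ∀ e ∈ M + N, e ∈ G.edgeSet := by
                intro e he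
                rcases Multiset.mem_add.1 he with he | he
                · exact hM.1 e he
                · exact hN.1 e he
              have hM' : Mat G M' (dg M') := ⟨fun e he => hall e (by
                rw [← h1']; exact Multiset.mem_add.2 (Or.inl he)), rfl⟩
              have hN' : Mat G N' (dg N') := ⟨fun e he => hall e (by
                rw [← h1']; exact Multiset.mem_add.2 (Or.inr he)), rfl⟩
              have hsum : dg M' + dg N' = m + b := by
                rw [← dg_add, h1', dg_add, hM.2, hN.2]
              have hconf := kap_conf v h1' h2' h3'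
              by_cases hgain : kap v M < kap v M' ∨ (kap v M = kap v M' ∧ ℓ m < ℓ (dg M'))
              · exact ⟨z, hz, S2 z hzc (dg M') w hwv h5' M' hM' hgain⟩
              · push Not at hgain
                have hb2 : dg N' + δ z = b + δ w := by (refine Finsupp.ext (fun fsv => ?_); have fsh0 := DFunLike.congr_fun (hsum) fsv; have fsh1 := DFunLike.congr_fun (h5') fsv; simp only [Finsupp.add_apply] at *; omega)
                have hor' : kap v M < kap v N' ∨ (kap v M = kap v N' ∧ ℓ m < ℓ (dg N')) := by
                  rcases hgain.1.lt_or_eq with h7 | h7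
                  · left
                    rcases hor with h8 | h8
                    · omega
                    · omega
                  · have h9 := hgain.2 h7.symm
                    rcases hor with h8 | h8
                    · left; omega
                    · by_cases h10 : kap v M < kap v N'
                      · exact Or.inl h10
                      · right
                        refine ⟨by omega, ?_⟩
                        have h11 := congrArg ℓ hsum
                        rw [map_add, map_add] at h11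
                        by_contra hcon
                        push Not at hcon
                        have h12 : ℓ (dg N') < ℓ b := lt_of_le_of_lt hcon h8.2
                        have h13 : ℓ (dg M') + ℓ (dg N') < ℓ m + ℓ b :=
                          add_lt_add_of_le_of_lt h9 h12
                        exact absurd h11 (ne_of_lt h13)
                have hwz : w ≠ z := by rintro rfl; omega
                have hval : ∀ x, dg N' x + δ z x = b x + δ w x := fun x => by
                  have := pw hb2 x
                  simpa only [Finsupp.add_apply] using this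
                have hdeg : (dg N' - m).degree < n := by
                  have hle2 : (dg N' - m) + δ z = b - m := by
                    refine Finsupp.ext (fun x => ?_)
                    have h7 := hval x
                    simp only [Finsupp.add_apply, Finsupp.tsub_apply]
                    by_cases hwx : w = x
                    · subst hwx
                      rw [δ_ne (Ne.symm hwz)] at h7 ⊢
                      rw [δ_self] at h7
                      omega
                    · rw [δ_ne hwx] at h7
                      by_cases hzx : z = x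
                      · subst hzx
                        rw [δ_self] at h7 ⊢
                        omega
                      · rw [δ_ne hzx] at h7 ⊢
                        omega
                  rw [← hle2, map_add, degree_single] at hn
                  omega
                have hN'c : N'.card = q + 1 := by
                  have := congrArg Multiset.card h1'
                  rw [Multiset.card_add, Multiset.card_add, hNc, h4'] at this
                  omega
                have hbv2 : dg N' v = m v := by
                  have := hval v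
                  rw [δ_ne hzv, δ_ne hwv] at this
                  omega
                obtain ⟨ζ, h7, h8⟩ := ih _ hdeg (dg N') N' rfl hN' hN'c hbv2 (by
                  intro x
                  have h7 := hval x
                  by_cases hwx : w = x
                  · subst hwx
                    rw [δ_self, δ_ne (Ne.symm hwz)] at h7
                    have := hm.2 w
                    omega
                  · rw [δ_ne hwx] at h7
                    have := hbc x
                    omega) hor'
                refine ⟨ζ, ?_, h8⟩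
                have h9 := hval ζ
                by_cases hwx : w = ζ
                · subst hwx
                  rw [δ_self, δ_ne (Ne.symm hwz)] at h9
                  omega
                · rw [δ_ne hwx] at h9
                  omega
            · rw [hM.2] at h1'
              rw [hM.2, hN.2] at h2'
              rw [hMc] at h1'
              obtain ⟨ζ, h3, h4⟩ := Spair z w hzc (by have := hbc w; omega) h1'
              refine ⟨ζ, ?_, h4⟩
              rcases h3 with rfl | rfl
              · exact hz
              · omega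
      -- conclusion
      rcases hbv.lt_or_eq with h2 | h2
      · rcases lower_success hdec hy hb.1 (by omega) with ⟨ζ, h3, h4⟩ | ⟨z, z', h3, h4, h5⟩
        · exact ⟨ζ, h3, S1 ζ (lt_of_lt_of_le h3 (hb.2 ζ)) h4⟩
        · obtain ⟨ζ, h6, h7⟩ := Spair z z' (lt_of_lt_of_le h3 (hb.2 z))
            (lt_of_lt_of_le h4 (hb.2 z')) h5
          refine ⟨ζ, ?_, h7⟩
          rcases h6 with rfl | rfl
          · exact h3
          · exact h4
      · obtain ⟨N, hN, hNk⟩ := exists_kappa (v := v) hb.1
        rw [hrhi m hmk, hrhi b h2, lex3_lt'] at hlt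
        refine VE _ b N rfl hN (card_of_mat hb.1 hN) (by omega) hb.2 ?_
        rcases hlt with h' | ⟨_, h' | ⟨h', h''⟩⟩
        · exact absurd h' (by norm_num)
        · left
          omega
        · right
          exact ⟨by omega, OrderDual.toDual_lt_toDual.1 h''⟩

end Pool.Agent.LQ
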